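import Mathlib

set_option autoImplicit false

open Filter Set MeasureTheory intervalIntegral
open scoped Topology Real

namespace Pool.Agent.H83

/-- The smooth cut-off `F(x) = sqrt (1 + (x⁺)²) - 1`. -/
noncomputable def Fc (x : ℝ) : ℝ := Real.sqrt (1 + (max x 0) ^ 2) - 1

/-- Derivative of `Fc`. -/
noncomputable def Fd (x : ℝ) : ℝ := max x 0 / Real.sqrt (1 + (max x 0) ^ 2)

/-- Derivative of `Fc²`. -/
noncomputable def Pd (x : ℝ) : ℝ := 2 * Fc x * Fd x

/-- Second derivative of `Fc²`. -/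
noncomputable def Pdd (x : ℝ) : ℝ := 2 - 2 / Real.sqrt (1 + (max x 0) ^ 2) ^ 3

theorem hasDerivAt_zero_of_le_sq {f : ℝ → ℝ} {C : ℝ} (h0 : f 0 = 0) (h : ∀ x, |f x| ≤ C * x ^ 2) :
    HasDerivAt f 0 0 := by
  rw [hasDerivAt_iff_isLittleO_nhds_zero]
  simp only [zero_add, h0, sub_zero, smul_zero]
  have h1 : f =O[𝓝 0] fun x : ℝ => x ^ 2 :=
    Asymptotics.IsBigO.of_bound C (Eventually.of_forall fun x => by
      rw [Real.norm_eq_abs, Real.norm_eq_abs, abs_of_nonneg (sq_nonneg x)]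
      exact h x)
  exact h1.trans_isLittleO (Asymptotics.isLittleO_pow_id one_lt_two)

theorem hasDerivAt_max_sq (x : ℝ) :
    HasDerivAt (fun x : ℝ => (max x 0) ^ 2) (2 * max x 0) x := by
  rcases lt_trichotomy x 0 with hx | hx | hx
  · have h1 : (fun x : ℝ => (max x 0) ^ 2) =ᶠ[𝓝 x] fun _ => 0 := by
      filter_upwards [Iio_mem_nhds hx] with y hy
      rw [max_eq_right (le_of_lt hy)]; simp
    rw [max_eq_right hx.le, mul_zero]
    exact (hasDerivAt_const x (0 : ℝ)).congr_of_eventuallyEq h1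
  · subst hx
    simp only [max_self, mul_zero]
    refine hasDerivAt_zero_of_le_sq (C := 1) (by simp) (fun x => ?_)
    rw [abs_of_nonneg (sq_nonneg _), one_mul]
    rcases le_total x 0 with h | h
    · rw [max_eq_right h]; nlinarith [sq_nonneg x]
    · rw [max_eq_left h]
  · have h1 : (fun x : ℝ => (max x 0) ^ 2) =ᶠ[𝓝 x] fun x => x ^ 2 := by
      filter_upwards [Ioi_mem_nhds hx] with y hy
      rw [max_eq_left (le_of_lt hy)]
    rw [max_eq_left hx.le]
    have h2 : HasDerivAt (fun x : ℝ => x ^ 2) (2 * x) x := by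
      simpa using hasDerivAt_pow 2 x
    exact h2.congr_of_eventuallyEq h1

theorem one_add_pos (x : ℝ) : 0 < 1 + (max x 0) ^ 2 := by positivity

theorem sqrt_pos' (x : ℝ) : 0 < Real.sqrt (1 + (max x 0) ^ 2) := Real.sqrt_pos.2 (one_add_pos x)

theorem one_le_sqrt' (x : ℝ) : 1 ≤ Real.sqrt (1 + (max x 0) ^ 2) := by
  rw [Real.one_le_sqrt]
  nlinarith [sq_nonneg (max x 0)]

theorem sq_sqrt' (x : ℝ) : Real.sqrt (1 + (max x 0) ^ 2) ^ 2 = 1 + (max x 0) ^ 2 :=
  Real.sq_sqrt (one_add_pos x).le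

theorem hasDerivAt_Fc (x : ℝ) : HasDerivAt Fc (Fd x) x := by
  have h1 : HasDerivAt (fun x : ℝ => 1 + (max x 0) ^ 2) (2 * max x 0) x :=
    (hasDerivAt_max_sq x).const_add 1
  have h2 := (h1.sqrt (one_add_pos x).ne').sub_const 1
  refine h2.congr_deriv ?_
  rw [Fd]
  have := sqrt_pos' x
  field_simp

theorem Fc_nonneg (x : ℝ) : 0 ≤ Fc x := by
  rw [Fc]; linarith [one_le_sqrt' x]

theorem Fc_of_nonpos {x : ℝ} (hx : x ≤ 0) : Fc x = 0 := by
  rw [Fc, max_eq_right hx]; simp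

theorem Fc_pos {x : ℝ} (hx : 0 < x) : 0 < Fc x := by
  rw [Fc, max_eq_left hx.le, sub_pos]
  rw [Real.lt_sqrt (by norm_num)]
  nlinarith [sq_pos_of_pos hx]

theorem Fc_le (x : ℝ) : Fc x ≤ max x 0 := by
  rw [Fc, sub_le_iff_le_add]
  rw [Real.sqrt_le_left (by positivity)]
  nlinarith [le_max_right x 0]

theorem Fd_nonneg (x : ℝ) : 0 ≤ Fd x := by
  rw [Fd]; exact div_nonneg (le_max_right _ _) (sqrt_pos' x).le

theorem Fd_of_nonpos {x : ℝ} (hx : x ≤ 0) : Fd x = 0 := by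
  rw [Fd, max_eq_right hx]; simp

theorem Fd_le_max (x : ℝ) : Fd x ≤ max x 0 := by
  rw [Fd]
  exact div_le_self (le_max_right _ _) (one_le_sqrt' x)

theorem Pd_of_nonpos {x : ℝ} (hx : x ≤ 0) : Pd x = 0 := by
  rw [Pd, Fc_of_nonpos hx]; simp

theorem Pd_nonneg (x : ℝ) : 0 ≤ Pd x := by
  rw [Pd]; have := Fc_nonneg x; have := Fd_nonneg x; positivity

theorem Pdd_of_nonpos {x : ℝ} (hx : x ≤ 0) : Pdd x = 0 := by
  rw [Pdd, max_eq_right hx]; simp

theorem Pd_eq (x : ℝ) : Pd x = 2 * max x 0 - 2 * max x 0 / Real.sqrt (1 + (max x 0) ^ 2) := by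
  rw [Pd, Fc, Fd]
  have := sqrt_pos' x
  field_simp

theorem hasDerivAt_Pd (x : ℝ) : HasDerivAt Pd (Pdd x) x := by
  rcases lt_trichotomy x 0 with hx | hx | hx
  · have h1 : Pd =ᶠ[𝓝 x] fun _ => 0 := by
      filter_upwards [Iio_mem_nhds hx] with y hy
      exact Pd_of_nonpos (le_of_lt hy)
    rw [Pdd_of_nonpos hx.le]
    exact (hasDerivAt_const x (0 : ℝ)).congr_of_eventuallyEq h1
  · subst hx
    rw [Pdd_of_nonpos le_rfl]
    refine hasDerivAt_zero_of_le_sq (C := 2) (Pd_of_nonpos le_rfl) (fun x => ?_)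
    rw [abs_of_nonneg (Pd_nonneg x), Pd]
    have h1 : Fc x ≤ |x| := (Fc_le x).trans (max_le (le_abs_self x) (abs_nonneg x))
    have h2 : Fd x ≤ |x| := (Fd_le_max x).trans (max_le (le_abs_self x) (abs_nonneg x))
    have h3 := Fc_nonneg x
    have h4 := Fd_nonneg x
    calc 2 * Fc x * Fd x ≤ 2 * |x| * |x| := by gcongr
      _ = 2 * x ^ 2 := by rw [← sq_abs x]; ring
  · have h1 : Pd =ᶠ[𝓝 x] fun y => 2 * y - 2 * y / Real.sqrt (1 + y ^ 2) := by
      filter_upwards [Ioi_mem_nhds hx] with y hy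
      rw [Pd_eq, max_eq_left (le_of_lt hy)]
    have h2 : HasDerivAt (fun y : ℝ => 1 + y ^ 2) (2 * x) x := by
      simpa using (hasDerivAt_pow 2 x).const_add 1
    have hne : (1 + x ^ 2) ≠ 0 := by positivity
    have hs : 0 < Real.sqrt (1 + x ^ 2) := Real.sqrt_pos.2 (by positivity)
    have hs2 : Real.sqrt (1 + x ^ 2) ^ 2 = 1 + x ^ 2 := Real.sq_sqrt (by positivity)
    have h3 := h2.sqrt hne
    have h4 : HasDerivAt (fun y : ℝ => 2 * y) 2 x := by
      simpa using (hasDerivAt_id x).const_mul 2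
    have h5 := h4.sub (h4.div h3 hs.ne')
    refine (h5.congr_deriv ?_).congr_of_eventuallyEq h1
    rw [Pdd, max_eq_left hx.le]
    set q := Real.sqrt (1 + x ^ 2) with hq
    have hx2 : x ^ 2 = q ^ 2 - 1 := by rw [hs2]; ring
    field_simp
    nlinarith

theorem continuous_Fc : Continuous Fc :=
  continuous_iff_continuousAt.2 fun x => (hasDerivAt_Fc x).continuousAt

theorem continuous_Pd : Continuous Pd :=
  continuous_iff_continuousAt.2 fun x => (hasDerivAt_Pd x).continuousAt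

theorem continuous_Fd : Continuous Fd := by
  unfold Fd
  exact (continuous_id.max continuous_const).div (by fun_prop) (fun x => (sqrt_pos' x).ne')

theorem continuous_Pdd : Continuous Pdd := by
  unfold Pdd
  refine continuous_const.sub (continuous_const.div (by fun_prop) (fun x => ?_))
  have := sqrt_pos' x
  positivity

theorem Pdd_ge (x : ℝ) : 2 * Fd x ^ 2 ≤ Pdd x := by
  rw [Pdd, Fd, div_pow, sq_sqrt']
  set q := Real.sqrt (1 + (max x 0) ^ 2) with hq
  have h1 : 1 ≤ q := one_le_sqrt' x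
  have h2 : q ^ 2 = 1 + (max x 0) ^ 2 := sq_sqrt' x
  have h3 : (max x 0) ^ 2 = q ^ 2 - 1 := by rw [h2]; ring
  rw [← h2, h3]
  have h4 : 2 / q ^ 3 ≤ 2 / q ^ 2 := by
    apply div_le_div_of_nonneg_left (by norm_num) (by positivity)
    calc q ^ 2 = q ^ 2 * 1 := by ring
      _ ≤ q ^ 2 * q := by gcongr
      _ = q ^ 3 := by ring
  have h5 : 2 * ((q ^ 2 - 1) / q ^ 2) = 2 - 2 / q ^ 2 := by
    have : q ≠ 0 := by positivity
    field_simp
  rw [h5]
  linarith

theorem Pdd_nonneg (x : ℝ) : 0 ≤ Pdd x :=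
  le_trans (by positivity) (Pdd_ge x)

theorem one_le_Pdd {x : ℝ} (hx : 1 ≤ x) : 1 ≤ Pdd x := by
  refine le_trans ?_ (Pdd_ge x)
  rw [Fd, div_pow, sq_sqrt', max_eq_left (by linarith), mul_div_assoc', le_div_iff₀ (by positivity)]
  nlinarith

/-- Differentiation under the integral sign for jointly continuous derivative. -/
theorem hasDerivAt_integral_param {K K' : ℝ → ℝ → ℝ}
    (hK : Continuous (Function.uncurry K)) (hK' : Continuous (Function.uncurry K'))
    (hd : ∀ t θ, HasDerivAt (fun t => K t θ) (K' t θ) t) (a b t : ℝ) :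
    HasDerivAt (fun t => ∫ θ in a..b, K t θ) (∫ θ in a..b, K' t θ) t := by
  have hcomp : IsCompact (Icc (t - 1) (t + 1) ×ˢ uIcc a b) := isCompact_Icc.prod isCompact_uIcc
  obtain ⟨C, hC⟩ := hcomp.exists_bound_of_continuousOn hK'.continuousOn
  have hs : Icc (t - 1) (t + 1) ∈ 𝓝 t := Icc_mem_nhds (by linarith) (by linarith)
  have hKt : ∀ t, Continuous (K t) := fun t => hK.comp (Continuous.prodMk_right t)
  have hKt' : ∀ t, Continuous (K' t) := fun t => hK'.comp (Continuous.prodMk_right t)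
  refine (intervalIntegral.hasDerivAt_integral_of_dominated_loc_of_deriv_le
    (F := K) (F' := K') (bound := fun _ => C) hs ?_ ?_ ?_ ?_ ?_ ?_).2
  · exact Eventually.of_forall fun x => (hKt x).aestronglyMeasurable
  · exact (hKt t).intervalIntegrable _ _
  · exact (hKt' t).aestronglyMeasurable
  · refine Eventually.of_forall fun θ hθ x hx => ?_
    exact hC (x, θ) ⟨hx, uIoc_subset_uIcc hθ⟩
  · exact intervalIntegrable_const
  · exact Eventually.of_forall fun θ _ x _ => hd x θ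

end Pool.Agent.H83
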