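import Mathlib

set_option autoImplicit false

open Filter Set MeasureTheory intervalIntegral
open scoped Topology Real

namespace Pool.Agent.H83

/-- Dirichlet Poincare inequality with a constant below the sharp one. -/
theorem dirichlet_aux {f f' : ℝ → ℝ} (hf : ∀ x, HasDerivAt f (f' x) x) (hf' : Continuous f')
    {a b κ : ℝ} (hab : a ≤ b) (hκ0 : 0 < κ) (hκ : κ * (b - a) < π) (ha : f a = 0) (hb : f b = 0) :
    κ ^ 2 * ∫ x in a..b, f x ^ 2 ≤ ∫ x in a..b, f' x ^ 2 := by
  set c : ℝ := (a + b) / 2 with hc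
  set ψ : ℝ → ℝ := fun x => -(κ * Real.tan (κ * (x - c))) with hψ
  have hfc : Continuous f := continuous_iff_continuousAt.2 fun x => (hf x).continuousAt
  have harg : ∀ x ∈ Icc a b, κ * (x - c) ∈ Ioo (-(π / 2)) (π / 2) := by
    intro x hx
    have h1 : x - c ≤ (b - a) / 2 := by rw [hc]; linarith [hx.2]
    have h2 : -((b - a) / 2) ≤ x - c := by rw [hc]; linarith [hx.1]
    constructor
    · have : κ * (-((b - a) / 2)) ≤ κ * (x - c) := by gcongr
      linarith
    · have : κ * (x - c) ≤ κ * ((b - a) / 2) := by gcongr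
      linarith
  have hcos : ∀ x ∈ Icc a b, Real.cos (κ * (x - c)) ≠ 0 := fun x hx =>
    (Real.cos_pos_of_mem_Ioo (harg x hx)).ne'
  have hψd : ∀ x ∈ Icc a b, HasDerivAt ψ (-κ ^ 2 - ψ x ^ 2) x := by
    intro x hx
    have h1 : HasDerivAt (fun x => κ * (x - c)) κ x := by
      simpa using ((hasDerivAt_id x).sub_const c).const_mul κ
    have h2 := (Real.hasDerivAt_tan (hcos x hx)).comp x h1
    have h3 := (h2.const_mul κ).neg
    refine h3.congr_deriv ?_
    have h4 : 1 / Real.cos (κ * (x - c)) ^ 2 = 1 + Real.tan (κ * (x - c)) ^ 2 := by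
      rw [Real.tan_eq_sin_div_cos]
      have := hcos x hx
      field_simp
      rw [Real.cos_sq_add_sin_sq]
    rw [h4, hψ]
    ring
  have hψc : ContinuousOn ψ (Icc a b) := fun x hx => (hψd x hx).continuousAt.continuousWithinAt
  set P' : ℝ → ℝ := fun x => (-κ ^ 2 - ψ x ^ 2) * f x ^ 2 + ψ x * (2 * f x * f' x) with hP'
  have hPd : ∀ x ∈ uIcc a b, HasDerivAt (fun x => ψ x * f x ^ 2) (P' x) x := by
    intro x hx
    rw [uIcc_of_le hab] at hx
    have h1 := (hψd x hx).mul ((hf x).pow 2)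
    refine h1.congr_deriv ?_
    simp [hP']
  have hP'c : ContinuousOn P' (Icc a b) := by
    rw [hP']
    have hfo := hfc.continuousOn (s := Icc a b)
    have hfo' := hf'.continuousOn (s := Icc a b)
    fun_prop
  have hP'i : IntervalIntegrable P' volume a b := by
    apply ContinuousOn.intervalIntegrable
    rwa [uIcc_of_le hab]
  have hint0 : ∫ x in a..b, P' x = 0 := by
    rw [integral_eq_sub_of_hasDerivAt hPd hP'i, ha, hb]
    simp
  have hi1 : IntervalIntegrable (fun x => f' x ^ 2) volume a b :=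
    (hf'.pow 2).intervalIntegrable _ _
  have hi2 : IntervalIntegrable (fun x => κ ^ 2 * f x ^ 2) volume a b :=
    (continuous_const.mul (hfc.pow 2)).intervalIntegrable _ _
  have key : 0 ≤ ∫ x in a..b, (f' x ^ 2 - κ ^ 2 * f x ^ 2 - P' x) := by
    apply integral_nonneg hab
    intro x hx
    have : f' x ^ 2 - κ ^ 2 * f x ^ 2 - P' x = (f' x - ψ x * f x) ^ 2 := by
      rw [hP']; ring
    rw [this]
    positivity
  rw [integral_sub (hi1.sub hi2) hP'i, hint0, sub_zero, integral_sub hi1 hi2,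
    intervalIntegral.integral_const_mul] at key
  linarith

/-- Sharp Dirichlet Poincare inequality on an interval of length at most `ℓ`. -/
theorem dirichlet {f f' : ℝ → ℝ} (hf : ∀ x, HasDerivAt f (f' x) x) (hf' : Continuous f')
    {a b ℓ : ℝ} (hab : a ≤ b) (hℓ : 0 < ℓ) (hℓ' : b - a ≤ ℓ) (ha : f a = 0) (hb : f b = 0) :
    (π / ℓ) ^ 2 * ∫ x in a..b, f x ^ 2 ≤ ∫ x in a..b, f' x ^ 2 := by
  have hπ := Real.pi_pos
  have hlim : Tendsto (fun κ : ℝ => κ ^ 2 * ∫ x in a..b, f x ^ 2) (𝓝[<] (π / ℓ))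
      (𝓝 ((π / ℓ) ^ 2 * ∫ x in a..b, f x ^ 2)) := by
    apply Tendsto.mono_left _ nhdsWithin_le_nhds
    exact (Continuous.tendsto (by fun_prop) _)
  refine le_of_tendsto hlim ?_
  have hpos : 0 < π / ℓ := by positivity
  filter_upwards [Ioo_mem_nhdsLT hpos] with κ hκ
  refine dirichlet_aux hf hf' hab hκ.1 ?_ ha hb
  calc κ * (b - a) ≤ κ * ℓ := by gcongr; exact hκ.1.le
    _ < π / ℓ * ℓ := by gcongr; exact hκ.2
    _ = π := by field_simp

/-- Poincare inequality between two zeros when every closed interval of length `ℓ` has a zero. -/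
theorem poincare_zeros {f f' : ℝ → ℝ} (hf : ∀ x, HasDerivAt f (f' x) x) (hf' : Continuous f')
    {ℓ : ℝ} (hℓ : 0 < ℓ) (hz : ∀ x, ∃ y ∈ Icc x (x + ℓ), f y = 0) {x0 x1 : ℝ} (h01 : x0 ≤ x1)
    (h0 : f x0 = 0) (h1 : f x1 = 0) :
    (π / ℓ) ^ 2 * ∫ x in x0..x1, f x ^ 2 ≤ ∫ x in x0..x1, f' x ^ 2 := by
  have hfc : Continuous f := continuous_iff_continuousAt.2 fun x => (hf x).continuousAt
  have hi1 : ∀ a b, IntervalIntegrable (fun x => f' x ^ 2) volume a b := fun a b =>
    (hf'.pow 2).intervalIntegrable _ _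
  have hi2 : ∀ a b, IntervalIntegrable (fun x => f x ^ 2) volume a b := fun a b =>
    (hfc.pow 2).intervalIntegrable _ _
  set S : Set ℝ := {x | x ∈ Icc x0 x1 ∧ f x = 0 ∧
    (π / ℓ) ^ 2 * ∫ t in x0..x, f t ^ 2 ≤ ∫ t in x0..x, f' t ^ 2} with hS
  have hSc : IsClosed S := by
    have c1 : IsClosed {x : ℝ | x ∈ Icc x0 x1} := isClosed_Icc
    have c2 : IsClosed {x : ℝ | f x = 0} := isClosed_eq hfc continuous_const
    have c3 : IsClosed {x : ℝ | (π / ℓ) ^ 2 * ∫ t in x0..x, f t ^ 2 ≤ ∫ t in x0..x, f' t ^ 2} :=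
      isClosed_le (continuous_const.mul (continuous_primitive (fun a b => hi2 a b) x0))
        (continuous_primitive (fun a b => hi1 a b) x0)
    exact c1.inter (c2.inter c3)
  have hSne : S.Nonempty := ⟨x0, ⟨le_rfl, h01⟩, h0, by simp⟩
  have hSb : BddAbove S := ⟨x1, fun x hx => hx.1.2⟩
  have hmem : sSup S ∈ S := hSc.csSup_mem hSne hSb
  set xs := sSup S with hxs
  rcases eq_or_lt_of_le hmem.1.2 with heq | hlt
  · rw [heq] at hmem
    exact hmem.2.2
  exfalso
  -- one more step is always possible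
  have hstep : ∀ z, xs < z → z ≤ x1 → z ≤ xs + ℓ → f z = 0 → False := by
    intro z hz1 hz2 hz3 hz4
    have h2 := dirichlet hf hf' hz1.le hℓ (by linarith) hmem.2.1 hz4
    have h3 : z ∈ S := by
      refine ⟨⟨hmem.1.1.trans hz1.le, hz2⟩, hz4, ?_⟩
      rw [← integral_add_adjacent_intervals (hi2 x0 xs) (hi2 xs z),
        ← integral_add_adjacent_intervals (hi1 x0 xs) (hi1 xs z), mul_add]
      exact add_le_add hmem.2.2 h2
    have := le_csSup hSb h3
    linarith
  rcases le_or_gt x1 (xs + ℓ) with hle | hgt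
  · exact hstep x1 hlt le_rfl hle h1
  · -- no zero in (xs, xs + ℓ]
    have hno : ∀ z, xs < z → z ≤ xs + ℓ → f z ≠ 0 := fun z hz1 hz2 hz3 =>
      hstep z hz1 (hz2.trans hgt.le) hz2 hz3
    have hne : f (xs + ℓ) ≠ 0 := hno _ (by linarith) le_rfl
    have hev : ∀ᶠ y in 𝓝 (xs + ℓ), f y ≠ 0 := hfc.continuousAt.eventually_ne hne
    obtain ⟨δ, hδ, hball⟩ := Metric.eventually_nhds_iff.1 hev
    obtain ⟨y, hy, hy0⟩ := hz (xs + δ / 2)
    rcases le_or_gt y (xs + ℓ) with h4 | h4
    · exact hno y (by linarith [hy.1]) h4 hy0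
    · refine hball ?_ hy0
      rw [Real.dist_eq, abs_of_pos (by linarith)]
      linarith [hy.2]

/-- Version on a full period. -/
theorem poincare_periodic {f f' : ℝ → ℝ} (hf : ∀ x, HasDerivAt f (f' x) x) (hf' : Continuous f')
    (hper : Function.Periodic f (2 * π)) (hper' : Function.Periodic f' (2 * π))
    {ℓ : ℝ} (hℓ : 0 < ℓ) (hz : ∀ x, ∃ y ∈ Icc x (x + ℓ), f y = 0) (a : ℝ) :
    (π / ℓ) ^ 2 * ∫ x in a..(a + 2 * π), f x ^ 2 ≤ ∫ x in a..(a + 2 * π), f' x ^ 2 := by
  obtain ⟨x0, -, h0⟩ := hz 0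
  have hπ := Real.pi_pos
  have h1 : f (x0 + 2 * π) = 0 := by rw [hper x0]; exact h0
  have h2 := poincare_zeros hf hf' hℓ hz (x0 := x0) (x1 := x0 + 2 * π) (by linarith) h0 h1
  have p1 : Function.Periodic (fun x => f x ^ 2) (2 * π) := fun x => by simp [hper x]
  have p2 : Function.Periodic (fun x => f' x ^ 2) (2 * π) := fun x => by simp [hper' x]
  rw [p1.intervalIntegral_add_eq a x0, p2.intervalIntegral_add_eq a x0]
  exact h2

/-- Two-phase Wirtinger inequality (Friedland-Hayman in dimension two). -/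
theorem two_phase {f f' g g' : ℝ → ℝ} (hf : ∀ x, HasDerivAt f (f' x) x) (hf' : Continuous f')
    (hg : ∀ x, HasDerivAt g (g' x) x) (hg' : Continuous g')
    (pf : Function.Periodic f (2 * π)) (pf' : Function.Periodic f' (2 * π))
    (pg : Function.Periodic g (2 * π)) (pg' : Function.Periodic g' (2 * π))
    (f0 : ∀ x, 0 ≤ f x) (g0 : ∀ x, 0 ≤ g x) (hfg : ∀ x, f x * g x = 0)
    (hfn : ∃ x, 0 < f x) (hgn : ∃ x, 0 < g x) (a : ℝ) :
    ∃ κ₁ κ₂ : ℝ, 0 < κ₁ ∧ 0 < κ₂ ∧ 2 ≤ κ₁ + κ₂ ∧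
      κ₁ ^ 2 * ∫ x in a..(a + 2 * π), f x ^ 2 ≤ ∫ x in a..(a + 2 * π), f' x ^ 2 ∧
      κ₂ ^ 2 * ∫ x in a..(a + 2 * π), g x ^ 2 ≤ ∫ x in a..(a + 2 * π), g' x ^ 2 := by
  have hπ := Real.pi_pos
  have hfc : Continuous f := continuous_iff_continuousAt.2 fun x => (hf x).continuousAt
  have hgc : Continuous g := continuous_iff_continuousAt.2 fun x => (hg x).continuousAt
  -- general fact about integer translates
  have hint : ∀ (F : ℝ → ℝ), Function.Periodic F (2 * π) → ∀ (k : ℤ) (x : ℝ),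
      F (x + k * (2 * π)) = F x := fun F hF k x => hF.int_mul k x
  set Λ : Set ℝ := {l | ∃ x, 0 < l ∧ ∀ y ∈ Ioo x (x + l), 0 < f y} with hΛ
  -- nonempty
  have hne : Λ.Nonempty := by
    obtain ⟨x, hx⟩ := hfn
    have hev : ∀ᶠ y in 𝓝 x, 0 < f y := hfc.continuousAt.eventually (lt_mem_nhds hx)
    obtain ⟨δ, hδ, hball⟩ := Metric.eventually_nhds_iff.1 hev
    refine ⟨δ, x, hδ, fun y hy => hball ?_⟩
    rw [Real.dist_eq, abs_of_pos (by linarith [hy.1])]
    linarith [hy.2]
  -- the interval where g > 0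
  obtain ⟨x2, hx2⟩ := hgn
  have hev2 : ∀ᶠ y in 𝓝 x2, 0 < g y := hgc.continuousAt.eventually (lt_mem_nhds hx2)
  obtain ⟨d, hd, hball2⟩ := Metric.eventually_nhds_iff.1 hev2
  have hfz : ∀ y, dist y x2 < d → f y = 0 := by
    intro y hy
    have := hfg y
    rcases mul_eq_zero.1 this with h | h
    · exact h
    · exact absurd h (hball2 hy).ne'
  set d' : ℝ := min (d / 2) π with hd'
  have hd'pos : 0 < d' := by positivity
  have hd'd : d' < d := lt_of_le_of_lt (min_le_left _ _) (by linarith)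
  have hd'π : d' ≤ π := min_le_right _ _
  have hub : ∀ l ∈ Λ, l ≤ 2 * π - d' := by
    rintro l ⟨x, hl, hpos⟩
    by_contra hcon
    push Not at hcon
    -- integer k with x < x2 + d' + 2πk ≤ x + 2π
    obtain ⟨k, hk1, hk2⟩ : ∃ k : ℤ, x < x2 + d' + k * (2 * π) ∧
        x2 + d' + k * (2 * π) ≤ x + 2 * π := by
      refine ⟨⌊(x - (x2 + d')) / (2 * π)⌋ + 1, ?_, ?_⟩
      · have h1 := Int.lt_floor_add_one ((x - (x2 + d')) / (2 * π))
        rw [div_lt_iff₀ (by positivity)] at h1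
        push_cast
        linarith
      · have h1 := Int.floor_le ((x - (x2 + d')) / (2 * π))
        rw [le_div_iff₀ (by positivity)] at h1
        push_cast
        linarith
    have hzero : ∀ s, 0 ≤ s → s ≤ d' → f (x2 + s + k * (2 * π)) = 0 := by
      intro s hs1 hs2
      rw [hint f pf k]
      apply hfz
      rw [Real.dist_eq]
      have : x2 + s - x2 = s := by ring
      rw [this, abs_of_nonneg hs1]
      linarith
    rcases lt_or_ge (x2 + d' + k * (2 * π)) (x + l) with h3 | h3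
    · have := hpos _ ⟨hk1, h3⟩
      rw [hzero d' hd'pos.le le_rfl] at this
      exact lt_irrefl _ this
    · -- then x2 + 2πk ∈ (x, x + l)
      have h4 : x2 + 0 + k * (2 * π) ∈ Ioo x (x + l) := by
        constructor
        · linarith
        · linarith
      have := hpos _ h4
      rw [hzero 0 le_rfl hd'pos.le] at this
      exact lt_irrefl _ this
  have hbdd : BddAbove Λ := ⟨2 * π - d', hub⟩
  set ℓ₁ : ℝ := sSup Λ with hℓ₁
  have hℓ₁pos : 0 < ℓ₁ := by
    obtain ⟨l, hl⟩ := hne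
    have h1 := le_csSup hbdd hl
    obtain ⟨x, hx, -⟩ := hl
    linarith
  have hℓ₁lt : ℓ₁ < 2 * π := by
    have := csSup_le hne hub
    linarith
  set ℓ₂ : ℝ := 2 * π - ℓ₁ with hℓ₂
  have hℓ₂pos : 0 < ℓ₂ := by rw [hℓ₂]; linarith
  refine ⟨π / ℓ₁, π / ℓ₂, by positivity, by positivity, ?_, ?_, ?_⟩
  · have h1 : π / ℓ₁ + π / ℓ₂ = 2 * π ^ 2 / (ℓ₁ * ℓ₂) := by
      rw [div_add_div _ _ hℓ₁pos.ne' hℓ₂pos.ne', hℓ₂]
      congr 1
      ring
    rw [h1, le_div_iff₀ (by positivity), hℓ₂]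
    nlinarith [sq_nonneg (π - ℓ₁)]
  · apply poincare_periodic hf hf' pf pf' hℓ₁pos
    intro x
    by_contra hcon
    push Not at hcon
    have hpos : ∀ y ∈ Icc x (x + ℓ₁), 0 < f y := fun y hy =>
      lt_of_le_of_ne (f0 y) (Ne.symm (hcon y hy))
    have hev1 : ∀ᶠ y in 𝓝 x, 0 < f y :=
      hfc.continuousAt.eventually (lt_mem_nhds (hpos x ⟨le_rfl, by linarith⟩))
    have hev2 : ∀ᶠ y in 𝓝 (x + ℓ₁), 0 < f y :=
      hfc.continuousAt.eventually (lt_mem_nhds (hpos (x + ℓ₁) ⟨by linarith, le_rfl⟩))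
    obtain ⟨δ₁, hδ₁, hb1⟩ := Metric.eventually_nhds_iff.1 hev1
    obtain ⟨δ₂, hδ₂, hb2⟩ := Metric.eventually_nhds_iff.1 hev2
    have hmem : ℓ₁ + δ₁ + δ₂ ∈ Λ := by
      refine ⟨x - δ₁, by positivity, fun y hy => ?_⟩
      rcases lt_or_ge y x with h1 | h1
      · apply hb1
        rw [Real.dist_eq, abs_of_neg (by linarith)]
        linarith [hy.1]
      · rcases le_or_gt y (x + ℓ₁) with h2 | h2
        · exact hpos y ⟨h1, h2⟩
        · apply hb2
          rw [Real.dist_eq, abs_of_pos (by linarith)]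
          linarith [hy.2]
    have := le_csSup hbdd hmem
    linarith
  · -- limit argument
    have hkey : ∀ η : ℝ, 0 < η → (π / (ℓ₂ + η)) ^ 2 * ∫ x in a..(a + 2 * π), g x ^ 2
        ≤ ∫ x in a..(a + 2 * π), g' x ^ 2 := by
      intro η hη
      apply poincare_periodic hg hg' pg pg' (by positivity)
      intro x
      obtain ⟨l, ⟨x3, hl, hpos⟩, hl2⟩ := exists_lt_of_lt_csSup hne
        (show ℓ₁ - min η (ℓ₁ / 2) < sSup Λ by
          have : 0 < min η (ℓ₁ / 2) := by positivity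
          linarith)
      have hl3 : ℓ₁ - η < l := by
        have : min η (ℓ₁ / 2) ≤ η := min_le_left _ _
        linarith
      -- midpoint-closed set of zeros of g : (x3, x3 + l) + 2πℤ, closed up
      have hgz : ∀ y ∈ Icc x3 (x3 + l), g y = 0 := by
        have hcl : IsClosed {y | g y = 0} := isClosed_eq hgc continuous_const
        have hsub : Ioo x3 (x3 + l) ⊆ {y | g y = 0} := by
          intro y hy
          have h1 := hpos y hy
          rcases mul_eq_zero.1 (hfg y) with h | h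
          · exact absurd h h1.ne'
          · exact h
        have := closure_minimal hsub hcl
        rw [closure_Ioo (by linarith)] at this
        exact fun y hy => this hy
      -- integer k with x3 + l + 2πk < x ≤ x3 + l + 2π(k+1)
      obtain ⟨k, hk1, hk2⟩ : ∃ k : ℤ, x3 + l + k * (2 * π) < x ∧
          x ≤ x3 + l + (k + 1) * (2 * π) := by
        refine ⟨⌈(x - (x3 + l)) / (2 * π)⌉ - 1, ?_, ?_⟩
        · have h1 := Int.ceil_lt_add_one ((x - (x3 + l)) / (2 * π))
          have h2 : ((⌈(x - (x3 + l)) / (2 * π)⌉ : ℝ) - 1) < (x - (x3 + l)) / (2 * π) := by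
            linarith
          rw [lt_div_iff₀ (by positivity)] at h2
          push_cast
          linarith
        · have h1 := Int.le_ceil ((x - (x3 + l)) / (2 * π))
          rw [div_le_iff₀ (by positivity)] at h1
          push_cast
          linarith
      rcases le_or_gt (x3 + (k + 1) * (2 * π)) x with h4 | h4
      · refine ⟨x, ⟨le_rfl, by linarith⟩, ?_⟩
        have h5 := hint g pg (k + 1) (x - (k + 1) * (2 * π))
        push_cast at h5
        rw [sub_add_cancel] at h5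
        rw [h5]
        exact hgz _ ⟨by linarith, by linarith⟩
      · refine ⟨x3 + (k + 1) * (2 * π), ⟨h4.le, ?_⟩, ?_⟩
        · rw [hℓ₂]
          nlinarith
        · have h5 := hint g pg (k + 1) x3
          push_cast at h5
          rw [h5]
          exact hgz _ ⟨le_rfl, by linarith⟩
    have hlim : Tendsto (fun η : ℝ => (π / (ℓ₂ + η)) ^ 2 * ∫ x in a..(a + 2 * π), g x ^ 2)
        (𝓝[>] 0) (𝓝 ((π / (ℓ₂ + 0)) ^ 2 * ∫ x in a..(a + 2 * π), g x ^ 2)) := by
      apply Tendsto.mono_left _ nhdsWithin_le_nhds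
      apply Tendsto.mul_const
      apply Tendsto.pow
      apply Tendsto.div tendsto_const_nhds _ (by simpa using hℓ₂pos.ne')
      exact tendsto_const_nhds.add tendsto_id
    rw [add_zero] at hlim
    refine le_of_tendsto hlim ?_
    filter_upwards [self_mem_nhdsWithin] with η hη
    exact hkey η hη

end Pool.Agent.H83
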