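import Mathlib
import Pool.Agent.H83.Cut
import Pool.Agent.H83.Wirtinger

set_option autoImplicit false

open Filter Set MeasureTheory intervalIntegral Complex
open scoped Topology Real

namespace Pool.Agent.H83

/-- Derivative of `log ‖γ‖` along a curve avoiding `0`. -/
theorem hasDerivAt_log_norm {γ : ℝ → ℂ} {γ' : ℂ} {x : ℝ} (h : HasDerivAt γ γ' x) (h0 : γ x ≠ 0) :
    HasDerivAt (fun x => Real.log ‖γ x‖) (γ' / γ x).re x := by
  have h1 : HasDerivAt (fun x => ‖γ x‖ ^ 2) (2 * inner ℝ (γ x) γ') x := h.norm_sq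
  have hpos : 0 < ‖γ x‖ := norm_pos_iff.2 h0
  have h2 := (h1.log (by positivity)).const_mul (1 / 2)
  have h3 : (fun x => 1 / 2 * Real.log (‖γ x‖ ^ 2)) = fun x => Real.log ‖γ x‖ := by
    funext y
    rw [Real.log_pow]; push_cast; ring
  rw [h3] at h2
  refine h2.congr_deriv ?_
  have h4 : (inner ℝ (γ x) γ' : ℝ) = (γ' * (starRingEnd ℂ) (γ x)).re := by
    rw [Complex.inner]
  have h5 : (γ' / γ x).re = (γ' * (starRingEnd ℂ) (γ x)).re / ‖γ x‖ ^ 2 := by
    rw [← Complex.normSq_eq_norm_sq, Complex.div_re]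
    simp only [Complex.mul_re, Complex.conj_re, Complex.conj_im]
    ring
  rw [h4, h5]
  field_simp

/-- Chain rule for `ψ (log ‖γ‖) * ρ` where `ψ` vanishes on the negative axis. -/
theorem hasDerivAt_cut_mul {ψ ψ' : ℝ → ℝ} (hψ : ∀ x, HasDerivAt ψ (ψ' x) x)
    (hψ0 : ∀ x ≤ 0, ψ x = 0) (hψ0' : ψ' 0 = 0)
    {γ : ℝ → ℂ} {γ' : ℂ} {ρ : ℝ → ℝ} {ρ' : ℝ} {x : ℝ} (h : HasDerivAt γ γ' x)
    (hρ : γ x ≠ 0 → HasDerivAt ρ ρ' x) :
    HasDerivAt (fun x => ψ (Real.log ‖γ x‖) * ρ x)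
      (ψ' (Real.log ‖γ x‖) * (γ' / γ x).re * ρ x + ψ (Real.log ‖γ x‖) * ρ') x := by
  by_cases h0 : γ x = 0
  · have hev : (fun x => ψ (Real.log ‖γ x‖) * ρ x) =ᶠ[𝓝 x] fun _ => 0 := by
      have hc : ContinuousAt (fun y => ‖γ y‖) x := h.continuousAt.norm
      have h1 : ∀ᶠ y in 𝓝 x, ‖γ y‖ < 1 := hc.eventually (gt_mem_nhds (by simp [h0]))
      filter_upwards [h1] with y hy
      have h2 : Real.log ‖γ y‖ ≤ 0 := Real.log_nonpos (norm_nonneg _) hy.le
      rw [hψ0 _ h2, zero_mul]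
    have h3 : ψ' (Real.log ‖γ x‖) * (γ' / γ x).re * ρ x + ψ (Real.log ‖γ x‖) * ρ' = 0 := by
      rw [h0, norm_zero, Real.log_zero, hψ0', hψ0 0 le_rfl]
      ring
    rw [h3]
    exact (hasDerivAt_const x (0 : ℝ)).congr_of_eventuallyEq hev
  · have h1 := (hψ (Real.log ‖γ x‖)).comp x (hasDerivAt_log_norm h h0)
    have h2 := h1.mul (hρ h0)
    exact h2

theorem hasDerivAt_cut {ψ ψ' : ℝ → ℝ} (hψ : ∀ x, HasDerivAt ψ (ψ' x) x)
    (hψ0 : ∀ x ≤ 0, ψ x = 0) (hψ0' : ψ' 0 = 0)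
    {γ : ℝ → ℂ} {γ' : ℂ} {x : ℝ} (h : HasDerivAt γ γ' x) :
    HasDerivAt (fun x => ψ (Real.log ‖γ x‖)) (ψ' (Real.log ‖γ x‖) * (γ' / γ x).re) x := by
  have := hasDerivAt_cut_mul hψ hψ0 hψ0' (ρ := fun _ => 1) (ρ' := 0) h
    (fun _ => hasDerivAt_const _ _)
  simpa using this

/-- Continuity of `ψ (log ‖g‖) * ρ`. -/
theorem continuous_cut_mul {X : Type*} [TopologicalSpace X] {ψ : ℝ → ℝ} (hψ : Continuous ψ)
    (hψ0 : ∀ x ≤ 0, ψ x = 0) {g : X → ℂ} (hg : Continuous g) {ρ : X → ℝ}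
    (hρ : ∀ x, g x ≠ 0 → ContinuousAt ρ x) :
    Continuous (fun x => ψ (Real.log ‖g x‖) * ρ x) := by
  rw [continuous_iff_continuousAt]
  intro x
  by_cases h0 : g x = 0
  · have hev : (fun x => ψ (Real.log ‖g x‖) * ρ x) =ᶠ[𝓝 x] fun _ => 0 := by
      have hc : ContinuousAt (fun y => ‖g y‖) x := hg.continuousAt.norm
      have h1 : ∀ᶠ y in 𝓝 x, ‖g y‖ < 1 := hc.eventually (gt_mem_nhds (by simp [h0]))
      filter_upwards [h1] with y hy
      have h2 : Real.log ‖g y‖ ≤ 0 := Real.log_nonpos (norm_nonneg _) hy.le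
      rw [hψ0 _ h2, zero_mul]
    exact (continuousAt_const (y := (0 : ℝ))).congr hev.symm
  · have h1 : ContinuousAt (fun x => Real.log ‖g x‖) x :=
      hg.continuousAt.norm.log (norm_ne_zero_iff.2 h0)
    exact (hψ.continuousAt.comp h1).mul (hρ x h0)

theorem continuous_cut {X : Type*} [TopologicalSpace X] {ψ : ℝ → ℝ} (hψ : Continuous ψ)
    (hψ0 : ∀ x ≤ 0, ψ x = 0) {g : X → ℂ} (hg : Continuous g) :
    Continuous (fun x => ψ (Real.log ‖g x‖)) := by
  have := continuous_cut_mul hψ hψ0 hg (ρ := fun _ => 1) (fun _ _ => continuousAt_const)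
  simpa using this

/-- The point `t + iθ`. -/
noncomputable def pt (t θ : ℝ) : ℂ := (t : ℂ) + (θ : ℂ) * I

theorem continuous_pt : Continuous (Function.uncurry pt) := by
  unfold pt Function.uncurry
  fun_prop

section mean

variable (g : ℂ → ℂ)

/-- log-derivative -/
noncomputable def ld (s : ℂ) : ℂ := deriv g s / g s

/-- derivative of the log-derivative -/
noncomputable def ld' (s : ℂ) : ℂ := deriv (ld g) s

/-- The circle mean of `F(log|g|)^2`. -/
noncomputable def mm (t : ℝ) : ℝ := ∫ θ in (-π)..π, Fc (Real.log ‖g (pt t θ)‖) ^ 2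

/-- First derivative of the circle mean. -/
noncomputable def mm1 (t : ℝ) : ℝ :=
  ∫ θ in (-π)..π, Pd (Real.log ‖g (pt t θ)‖) * (ld g (pt t θ)).re

/-- Second derivative of the circle mean. -/
noncomputable def mm2 (t : ℝ) : ℝ :=
  ∫ θ in (-π)..π, Pdd (Real.log ‖g (pt t θ)‖) * ‖ld g (pt t θ)‖ ^ 2

variable {g}

theorem differentiableAt_ld (hg : Differentiable ℂ g) {s : ℂ} (h0 : g s ≠ 0) :
    DifferentiableAt ℂ (ld g) s := by
  have h1 : Differentiable ℂ (deriv g) := by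
    rw [← differentiableOn_univ]
    exact hg.differentiableOn.deriv isOpen_univ
  exact (h1 s).div (hg s) h0

theorem differentiableAt_ld' (hg : Differentiable ℂ g) {s : ℂ} (h0 : g s ≠ 0) :
    ContinuousAt (ld' g) s := by
  have hopen : IsOpen {s | g s ≠ 0} := isOpen_ne_fun hg.continuous continuous_const
  have h1 : DifferentiableOn ℂ (ld g) {s | g s ≠ 0} := fun z hz =>
    (differentiableAt_ld hg hz).differentiableWithinAt
  have h2 : DifferentiableOn ℂ (deriv (ld g)) {s | g s ≠ 0} := h1.deriv hopen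
  exact (h2.differentiableAt (hopen.mem_nhds h0)).continuousAt

theorem hasDerivAt_pt_left (t θ : ℝ) : HasDerivAt (fun t : ℝ => pt t θ) 1 t := by
  unfold pt
  have : HasDerivAt (fun t : ℝ => (t : ℂ)) 1 t := Complex.ofRealCLM.hasDerivAt
  exact this.add_const _

theorem hasDerivAt_pt_right (t θ : ℝ) : HasDerivAt (fun θ : ℝ => pt t θ) I θ := by
  unfold pt
  have : HasDerivAt (fun t : ℝ => (t : ℂ)) 1 θ := Complex.ofRealCLM.hasDerivAt
  simpa using (this.mul_const I).const_add (t : ℂ)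

theorem comp_left_at {f : ℂ → ℂ} {f' : ℂ} {t θ : ℝ} (hf : HasDerivAt f f' (pt t θ)) :
    HasDerivAt (fun t : ℝ => f (pt t θ)) f' t := by
  have h : HasDerivAt (fun t : ℝ => f (pt t θ)) ((1 : ℂ) • f') t :=
    HasDerivAt.scomp t hf (hasDerivAt_pt_left t θ)
  exact h.congr_deriv (one_smul _ _)

theorem comp_right_at {f : ℂ → ℂ} {f' : ℂ} {t θ : ℝ} (hf : HasDerivAt f f' (pt t θ)) :
    HasDerivAt (fun θ : ℝ => f (pt t θ)) (I * f') θ := by
  have h : HasDerivAt (fun θ : ℝ => f (pt t θ)) (I • f') θ :=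
    HasDerivAt.scomp θ hf (hasDerivAt_pt_right t θ)
  exact h.congr_deriv (smul_eq_mul _ _)

theorem comp_left (hg : Differentiable ℂ g) (t θ : ℝ) :
    HasDerivAt (fun t : ℝ => g (pt t θ)) (deriv g (pt t θ)) t :=
  comp_left_at (hg (pt t θ)).hasDerivAt

theorem comp_right (hg : Differentiable ℂ g) (t θ : ℝ) :
    HasDerivAt (fun θ : ℝ => g (pt t θ)) (I * deriv g (pt t θ)) θ :=
  comp_right_at (hg (pt t θ)).hasDerivAt

theorem hasDerivAt_mm (hg : Differentiable ℂ g) (t : ℝ) : HasDerivAt (mm g) (mm1 g t) t := by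
  unfold mm mm1
  have hgc := hg.continuous
  have hgpt : Continuous (fun p : ℝ × ℝ => g (pt p.1 p.2)) := hgc.comp continuous_pt
  refine hasDerivAt_integral_param (K := fun t θ => Fc (Real.log ‖g (pt t θ)‖) ^ 2)
    (K' := fun t θ => Pd (Real.log ‖g (pt t θ)‖) * (ld g (pt t θ)).re) ?_ ?_ ?_ _ _ _
  · have h1 : Continuous (fun p : ℝ × ℝ => Fc (Real.log ‖g (pt p.1 p.2)‖)) :=
      continuous_cut continuous_Fc (fun x hx => Fc_of_nonpos hx) hgpt
    exact h1.pow 2
  · refine continuous_cut_mul continuous_Pd (fun x hx => Pd_of_nonpos hx) hgpt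
      (ρ := fun p : ℝ × ℝ => (ld g (pt p.1 p.2)).re) ?_
    intro p hp
    have h1 : ContinuousAt (ld g) (pt p.1 p.2) := (differentiableAt_ld hg hp).continuousAt
    exact Complex.continuous_re.continuousAt.comp (h1.comp (f := fun p : ℝ × ℝ => pt p.1 p.2)
      continuous_pt.continuousAt)
  · intro t θ
    have h1 := hasDerivAt_cut (ψ := Fc) (ψ' := Fd) hasDerivAt_Fc (fun x hx => Fc_of_nonpos hx)
      (Fd_of_nonpos le_rfl) (comp_left hg t θ)
    have h2 := h1.pow 2
    refine h2.congr_deriv ?_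
    rw [Pd, ld]
    push_cast
    ring

theorem ld_periodic (hper : ∀ s, g (s + 2 * π * I) = g s) (s : ℂ) :
    ld g (s + 2 * π * I) = ld g s := by
  have h5 : (fun s => g (s + 2 * π * I)) = g := funext hper
  have h6 : deriv (fun s => g (s + 2 * π * I)) s = deriv g (s + 2 * π * I) := by
    rw [deriv_comp_add_const]
  unfold ld
  rw [← h6, h5, hper]

theorem pt_pi (t : ℝ) : pt t π = pt t (-π) + 2 * π * I := by
  unfold pt; push_cast; ring

theorem hasDerivAt_mm1 (hg : Differentiable ℂ g) (hper : ∀ s, g (s + 2 * π * I) = g s) (t : ℝ) :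
    HasDerivAt (mm1 g) (mm2 g t) t := by
  have hgc := hg.continuous
  have hgpt : Continuous (fun p : ℝ × ℝ => g (pt p.1 p.2)) := hgc.comp continuous_pt
  have hld : ∀ p : ℝ × ℝ, g (pt p.1 p.2) ≠ 0 → ContinuousAt (fun p : ℝ × ℝ => ld g (pt p.1 p.2)) p :=
    fun p hp => ((differentiableAt_ld hg hp).continuousAt).comp
      (f := fun p : ℝ × ℝ => pt p.1 p.2) continuous_pt.continuousAt
  have hld' : ∀ p : ℝ × ℝ, g (pt p.1 p.2) ≠ 0 → ContinuousAt (fun p : ℝ × ℝ => ld' g (pt p.1 p.2)) p :=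
    fun p hp => (differentiableAt_ld' hg hp).comp
      (f := fun p : ℝ × ℝ => pt p.1 p.2) continuous_pt.continuousAt
  -- second derivative in t
  set K' : ℝ → ℝ → ℝ := fun t θ => Pdd (Real.log ‖g (pt t θ)‖) * ((ld g (pt t θ)).re) ^ 2 +
    Pd (Real.log ‖g (pt t θ)‖) * (ld' g (pt t θ)).re with hK'
  set J : ℝ → ℝ → ℝ := fun t θ => Pdd (Real.log ‖g (pt t θ)‖) * ((ld g (pt t θ)).im) ^ 2 -
    Pd (Real.log ‖g (pt t θ)‖) * (ld' g (pt t θ)).re with hJ
  have hc1 : Continuous (fun p : ℝ × ℝ => Pdd (Real.log ‖g (pt p.1 p.2)‖) *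
      ((ld g (pt p.1 p.2)).re) ^ 2) :=
    continuous_cut_mul continuous_Pdd (fun x hx => Pdd_of_nonpos hx) hgpt
      (ρ := fun p : ℝ × ℝ => ((ld g (pt p.1 p.2)).re) ^ 2)
      (fun p hp => (Complex.continuous_re.continuousAt.comp (hld p hp)).pow 2)
  have hc2 : Continuous (fun p : ℝ × ℝ => Pdd (Real.log ‖g (pt p.1 p.2)‖) *
      ((ld g (pt p.1 p.2)).im) ^ 2) :=
    continuous_cut_mul continuous_Pdd (fun x hx => Pdd_of_nonpos hx) hgpt
      (ρ := fun p : ℝ × ℝ => ((ld g (pt p.1 p.2)).im) ^ 2)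
      (fun p hp => (Complex.continuous_im.continuousAt.comp (hld p hp)).pow 2)
  have hc3 : Continuous (fun p : ℝ × ℝ => Pd (Real.log ‖g (pt p.1 p.2)‖) *
      (ld' g (pt p.1 p.2)).re) :=
    continuous_cut_mul continuous_Pd (fun x hx => Pd_of_nonpos hx) hgpt
      (ρ := fun p : ℝ × ℝ => (ld' g (pt p.1 p.2)).re)
      (fun p hp => (Complex.continuous_re.continuousAt.comp (hld' p hp)))
  have hmain : HasDerivAt (mm1 g) (∫ θ in (-π)..π, K' t θ) t := by
    unfold mm1
    refine hasDerivAt_integral_param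
      (K := fun t θ => Pd (Real.log ‖g (pt t θ)‖) * (ld g (pt t θ)).re) (K' := K') ?_ ?_ ?_ _ _ _
    · exact continuous_cut_mul continuous_Pd (fun x hx => Pd_of_nonpos hx) hgpt
        (ρ := fun p : ℝ × ℝ => (ld g (pt p.1 p.2)).re)
        (fun p hp => Complex.continuous_re.continuousAt.comp (hld p hp))
    · exact hc1.add hc3
    · intro t θ
      have h1 := hasDerivAt_cut_mul (ψ := Pd) (ψ' := Pdd) hasDerivAt_Pd
        (fun x hx => Pd_of_nonpos hx) (Pdd_of_nonpos le_rfl) (comp_left hg t θ)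
        (ρ := fun t => (ld g (pt t θ)).re) (ρ' := (ld' g (pt t θ)).re) (by
          intro h0
          have h2 : HasDerivAt (fun t : ℝ => ld g (pt t θ)) (ld' g (pt t θ)) t :=
            comp_left_at (differentiableAt_ld hg h0).hasDerivAt
          exact Complex.reCLM.hasFDerivAt.comp_hasDerivAt t h2)
      refine h1.congr_deriv ?_
      simp only [hK', ld]
      ring
  have hJc : Continuous (J t) := by
    have := (hc2.sub hc3).comp (Continuous.prodMk_right t)
    exact this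
  have hKc : Continuous (K' t) := by
    have := (hc1.add hc3).comp (Continuous.prodMk_right t)
    exact this
  -- the angular part integrates to zero
  have hzero : ∫ θ in (-π)..π, J t θ = 0 := by
    have hd : ∀ θ ∈ uIcc (-π) π, HasDerivAt
        (fun θ => -(Pd (Real.log ‖g (pt t θ)‖) * (ld g (pt t θ)).im)) (J t θ) θ := by
      intro θ _
      have h1 := hasDerivAt_cut_mul (ψ := Pd) (ψ' := Pdd) hasDerivAt_Pd
        (fun x hx => Pd_of_nonpos hx) (Pdd_of_nonpos le_rfl) (comp_right hg t θ)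
        (ρ := fun θ => (ld g (pt t θ)).im) (ρ' := (ld' g (pt t θ)).re) (by
          intro h0
          have h2 : HasDerivAt (fun θ : ℝ => ld g (pt t θ)) (I * ld' g (pt t θ)) θ :=
            comp_right_at (differentiableAt_ld hg h0).hasDerivAt
          have h3 : HasDerivAt (fun θ : ℝ => (ld g (pt t θ)).im) (I * ld' g (pt t θ)).im θ :=
            Complex.imCLM.hasFDerivAt.comp_hasDerivAt θ h2
          exact h3.congr_deriv (by simp))
      refine h1.neg.congr_deriv ?_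
      have h4 : (I * deriv g (pt t θ) / g (pt t θ)).re = -(ld g (pt t θ)).im := by
        rw [ld, mul_div_assoc]
        simp
      rw [h4]
      simp only [hJ]
      ring
    have hint := integral_eq_sub_of_hasDerivAt hd (hJc.intervalIntegrable _ _)
    have hg1 : g (pt t π) = g (pt t (-π)) := by rw [pt_pi, hper]
    have hg2 : ld g (pt t π) = ld g (pt t (-π)) := by rw [pt_pi, ld_periodic hper]
    rw [hint, hg1, hg2]
    ring
  have hfin : mm2 g t = ∫ θ in (-π)..π, K' t θ := by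
    have h7 : ∫ θ in (-π)..π, K' t θ = ∫ θ in (-π)..π, (K' t θ + J t θ) := by
      rw [integral_add (hKc.intervalIntegrable _ _) (hJc.intervalIntegrable _ _), hzero, add_zero]
    rw [h7, mm2]
    apply integral_congr
    intro θ _
    simp only [hK', hJ]
    rw [← Complex.normSq_eq_norm_sq, Complex.normSq_apply]
    ring
  rw [hfin]
  exact hmain

/-- The key Carleman-type inequality. -/
theorem mm2_ge (hg : Differentiable ℂ g) {t κ : ℝ} (hκ : 0 < κ)
    (hw : κ ^ 2 * ∫ θ in (-π)..π, Fc (Real.log ‖g (pt t θ)‖) ^ 2 ≤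
      ∫ θ in (-π)..π, (Fd (Real.log ‖g (pt t θ)‖) * (ld g (pt t θ)).im) ^ 2) :
    2 * κ * mm1 g t ≤ mm2 g t := by
  have hgc := hg.continuous
  have hgpt : Continuous (fun θ : ℝ => g (pt t θ)) :=
    hgc.comp (continuous_pt.comp (Continuous.prodMk_right t))
  have hld : ∀ θ : ℝ, g (pt t θ) ≠ 0 → ContinuousAt (fun θ : ℝ => ld g (pt t θ)) θ :=
    fun p hp => ((differentiableAt_ld hg hp).continuousAt).comp
      (f := fun θ : ℝ => pt t θ) (continuous_pt.comp (Continuous.prodMk_right t)).continuousAt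
  have c0 : Continuous (fun θ : ℝ => Fc (Real.log ‖g (pt t θ)‖)) :=
    continuous_cut continuous_Fc (fun x hx => Fc_of_nonpos hx) hgpt
  have c1 : Continuous (fun θ : ℝ => Fd (Real.log ‖g (pt t θ)‖) * (ld g (pt t θ)).re) :=
    continuous_cut_mul continuous_Fd (fun x hx => Fd_of_nonpos hx) hgpt
      (ρ := fun θ => (ld g (pt t θ)).re)
      (fun p hp => (Complex.continuous_re.continuousAt.comp (hld p hp)))
  have c2 : Continuous (fun θ : ℝ => Fd (Real.log ‖g (pt t θ)‖) * (ld g (pt t θ)).im) :=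
    continuous_cut_mul continuous_Fd (fun x hx => Fd_of_nonpos hx) hgpt
      (ρ := fun θ => (ld g (pt t θ)).im)
      (fun p hp => (Complex.continuous_im.continuousAt.comp (hld p hp)))
  have c3 : Continuous (fun θ : ℝ => Pdd (Real.log ‖g (pt t θ)‖) * ‖ld g (pt t θ)‖ ^ 2) :=
    continuous_cut_mul continuous_Pdd (fun x hx => Pdd_of_nonpos hx) hgpt
      (ρ := fun θ => ‖ld g (pt t θ)‖ ^ 2)
      (fun p hp => ((hld p hp).norm).pow 2)
  have hππ : -π ≤ π := by linarith [Real.pi_pos]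
  set a := fun θ : ℝ => Fc (Real.log ‖g (pt t θ)‖) with ha
  set b := fun θ : ℝ => Fd (Real.log ‖g (pt t θ)‖) * (ld g (pt t θ)).re with hb
  set c := fun θ : ℝ => Fd (Real.log ‖g (pt t θ)‖) * (ld g (pt t θ)).im with hc
  have i1 : IntervalIntegrable (fun θ => a θ ^ 2) volume (-π) π := (c0.pow 2).intervalIntegrable _ _
  have i2 : IntervalIntegrable (fun θ => b θ ^ 2) volume (-π) π := (c1.pow 2).intervalIntegrable _ _
  have i3 : IntervalIntegrable (fun θ => c θ ^ 2) volume (-π) π := (c2.pow 2).intervalIntegrable _ _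
  have i4 : IntervalIntegrable (fun θ => a θ * b θ) volume (-π) π :=
    (c0.mul c1).intervalIntegrable _ _
  have hm1 : mm1 g t = 2 * ∫ θ in (-π)..π, a θ * b θ := by
    rw [mm1, ← intervalIntegral.integral_const_mul]
    apply integral_congr
    intro θ _
    simp only [Pd, ha, hb]
    ring
  have hm2 : 2 * ((∫ θ in (-π)..π, b θ ^ 2) + ∫ θ in (-π)..π, c θ ^ 2) ≤ mm2 g t := by
    rw [mm2, ← integral_add i2 i3, ← intervalIntegral.integral_const_mul]
    apply integral_mono_on hππ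
    · exact ((i2.add i3).const_mul 2)
    · exact c3.intervalIntegrable _ _
    · intro θ _
      simp only [hb, hc]
      have h1 := Pdd_ge (Real.log ‖g (pt t θ)‖)
      have h2 : ‖ld g (pt t θ)‖ ^ 2 = (ld g (pt t θ)).re ^ 2 + (ld g (pt t θ)).im ^ 2 := by
        rw [← Complex.normSq_eq_norm_sq, Complex.normSq_apply]; ring
      have h3 : 0 ≤ ‖ld g (pt t θ)‖ ^ 2 := by positivity
      have h4 := mul_le_mul_of_nonneg_right h1 h3
      rw [h2] at h4 ⊢
      linarith
  have hsq : 0 ≤ ∫ θ in (-π)..π, (b θ - κ * a θ) ^ 2 :=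
    integral_nonneg hππ fun θ _ => sq_nonneg _
  have hexp : ∫ θ in (-π)..π, (b θ - κ * a θ) ^ 2 = (∫ θ in (-π)..π, b θ ^ 2)
      + κ ^ 2 * (∫ θ in (-π)..π, a θ ^ 2) - 2 * κ * ∫ θ in (-π)..π, a θ * b θ := by
    rw [← intervalIntegral.integral_const_mul, ← intervalIntegral.integral_const_mul,
      ← integral_add i2 (i1.const_mul _), ← integral_sub ((i2.add (i1.const_mul _)))
        (i4.const_mul _)]
    apply integral_congr
    intro θ _
    ring
  rw [hexp] at hsq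
  rw [hm1]
  have hw' : κ ^ 2 * (∫ θ in (-π)..π, a θ ^ 2) ≤ ∫ θ in (-π)..π, c θ ^ 2 := hw
  nlinarith

end mean

end Pool.Agent.H83
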