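import Mathlib
import Pool.Agent.H83.Circle

set_option autoImplicit false

open Filter Set MeasureTheory intervalIntegral Complex
open scoped Topology Real

namespace Pool.Agent.H83

/-- Pull-back by the exponential. -/
noncomputable def ge (f : ℂ → ℂ) (s : ℂ) : ℂ := f (Complex.exp s)

theorem differentiable_ge {f : ℂ → ℂ} (hf : Differentiable ℂ f) : Differentiable ℂ (ge f) :=
  hf.comp Complex.differentiable_exp

theorem ge_periodic (f : ℂ → ℂ) (s : ℂ) : ge f (s + 2 * π * I) = ge f s := by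
  unfold ge
  rw [Complex.exp_periodic]

theorem norm_exp_pt (t θ : ℝ) : ‖Complex.exp (pt t θ)‖ = Real.exp t := by
  rw [Complex.norm_exp]
  simp [pt]

theorem mm_nonneg (g : ℂ → ℂ) (t : ℝ) : 0 ≤ mm g t :=
  integral_nonneg (by linarith [Real.pi_pos]) fun _ _ => sq_nonneg _

theorem mm2_nonneg (g : ℂ → ℂ) (t : ℝ) : 0 ≤ mm2 g t :=
  integral_nonneg (by linarith [Real.pi_pos]) fun _ _ => mul_nonneg (Pdd_nonneg _) (sq_nonneg _)

theorem continuous_integrand_mm {g : ℂ → ℂ} (hg : Differentiable ℂ g) :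
    Continuous (fun p : ℝ × ℝ => Fc (Real.log ‖g (pt p.1 p.2)‖)) := by
  have hgpt : Continuous (fun p : ℝ × ℝ => g (pt p.1 p.2)) := hg.continuous.comp continuous_pt
  exact continuous_cut continuous_Fc (fun x hx => Fc_of_nonpos hx) hgpt

theorem continuous_integrand_mm2 {g : ℂ → ℂ} (hg : Differentiable ℂ g) :
    Continuous (fun p : ℝ × ℝ => Pdd (Real.log ‖g (pt p.1 p.2)‖) * ‖ld g (pt p.1 p.2)‖ ^ 2) := by
  have hgpt : Continuous (fun p : ℝ × ℝ => g (pt p.1 p.2)) := hg.continuous.comp continuous_pt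
  have hld : ∀ p : ℝ × ℝ, g (pt p.1 p.2) ≠ 0 → ContinuousAt (fun p : ℝ × ℝ => ld g (pt p.1 p.2)) p :=
    fun p hp => ((differentiableAt_ld hg hp).continuousAt).comp
      (f := fun p : ℝ × ℝ => pt p.1 p.2) continuous_pt.continuousAt
  exact continuous_cut_mul continuous_Pdd (fun x hx => Pdd_of_nonpos hx) hgpt
      (ρ := fun p : ℝ × ℝ => ‖ld g (pt p.1 p.2)‖ ^ 2)
      (fun p hp => ((hld p hp).norm).pow 2)

theorem continuous_mm2 {g : ℂ → ℂ} (hg : Differentiable ℂ g) : Continuous (mm2 g) := by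
  have h := continuous_integrand_mm2 hg
  exact intervalIntegral.continuous_parametric_intervalIntegral_of_continuous'
    (f := fun t θ => Pdd (Real.log ‖g (pt t θ)‖) * ‖ld g (pt t θ)‖ ^ 2) h _ _

section

variable {f : ℂ → ℂ}

theorem exists_small (hf : Differentiable ℂ f) (h0 : ‖f 0‖ < 1) :
    ∃ t0 : ℝ, ∀ t ≤ t0, mm (ge f) t = 0 ∧ mm1 (ge f) t = 0 := by
  have hev : ∀ᶠ z in 𝓝 (0 : ℂ), ‖f z‖ < 1 :=
    hf.continuous.norm.continuousAt.eventually (gt_mem_nhds h0)
  obtain ⟨δ, hδ, hδf⟩ := Metric.eventually_nhds_iff.1 hev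
  refine ⟨Real.log (δ / 2), fun t ht => ?_⟩
  have h1 : ∀ θ, Real.log ‖ge f (pt t θ)‖ ≤ 0 := by
    intro θ
    apply Real.log_nonpos (norm_nonneg _)
    have h2 : dist (Complex.exp (pt t θ)) 0 < δ := by
      rw [dist_zero_right, norm_exp_pt]
      have h3 : Real.exp t ≤ δ / 2 := by
        rw [← Real.le_log_iff_exp_le (by positivity)]
        exact ht
      linarith
    exact (hδf h2).le
  constructor
  · unfold mm
    simp only [Fc_of_nonpos (h1 _)]
    simp
  · unfold mm1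
    simp only [Pd_of_nonpos (h1 _)]
    simp

theorem monotone_mm1 (hf : Differentiable ℂ f) : Monotone (mm1 (ge f)) := by
  have hd := fun t => hasDerivAt_mm1 (differentiable_ge hf) (ge_periodic f) t
  apply monotone_of_deriv_nonneg (fun t => (hd t).differentiableAt)
  intro t
  rw [(hd t).deriv]
  exact mm2_nonneg _ _

theorem mm1_nonneg (hf : Differentiable ℂ f) (h0 : ‖f 0‖ < 1) (t : ℝ) : 0 ≤ mm1 (ge f) t := by
  obtain ⟨t0, ht0⟩ := exists_small hf h0
  have h1 := (ht0 (min t t0) (min_le_right _ _)).2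
  have h2 := monotone_mm1 hf (min_le_left t t0)
  linarith

theorem monotone_mm (hf : Differentiable ℂ f) (h0 : ‖f 0‖ < 1) : Monotone (mm (ge f)) := by
  have hd := fun t => hasDerivAt_mm (differentiable_ge hf) t
  apply monotone_of_deriv_nonneg (fun t => (hd t).differentiableAt)
  intro t
  rw [(hd t).deriv]
  exact mm1_nonneg hf h0 t

theorem mm_pos_of {g : ℂ → ℂ} (hg : Differentiable ℂ g) {t θ : ℝ} (hθ : θ ∈ Icc (-π) π)
    (h : 1 < ‖g (pt t θ)‖) : 0 < mm g t := by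
  unfold mm
  apply intervalIntegral.integral_pos (by linarith [Real.pi_pos])
  · have := (continuous_integrand_mm hg).comp (Continuous.prodMk_right t)
    exact (this.pow 2).continuousOn
  · intro x _
    exact sq_nonneg _
  · exact ⟨θ, hθ, pow_pos (Fc_pos (Real.log_pos h)) 2⟩

theorem exists_mm1_pos (hf : Differentiable ℂ f) (h0 : ‖f 0‖ < 1) (h1 : ∃ z, 1 < ‖f z‖) :
    ∃ t0 : ℝ, ∀ t ≥ t0, 0 < mm1 (ge f) t ∧ 0 < mm (ge f) t := by
  obtain ⟨z, hz⟩ := h1
  have hz0 : z ≠ 0 := by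
    rintro rfl
    linarith
  set t := Real.log ‖z‖ with ht
  have hpt : Complex.exp (pt t (Complex.arg z)) = z := by
    have h2 : Complex.exp (Complex.log z) = z := Complex.exp_log hz0
    have h3 : pt t (Complex.arg z) = Complex.log z := by
      rw [pt, Complex.log]
    rw [h3, h2]
  have h2 : 1 < ‖ge f (pt t (Complex.arg z))‖ := by
    unfold ge
    rw [hpt]
    exact hz
  have h3 : 0 < mm (ge f) t := mm_pos_of (differentiable_ge hf)
    ⟨(Complex.neg_pi_lt_arg z).le, Complex.arg_le_pi z⟩ h2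
  have h4 : 0 < mm1 (ge f) t := by
    obtain ⟨t0, ht0⟩ := exists_small hf h0
    have h5 : min (t - 1) t0 < t := lt_of_le_of_lt (min_le_left _ _) (by linarith)
    have h6 := (ht0 (min (t - 1) t0) (min_le_right _ _)).1
    have hd := fun t => hasDerivAt_mm (differentiable_ge hf) t
    obtain ⟨c, hc, hc'⟩ := exists_hasDerivAt_eq_slope (mm (ge f)) (mm1 (ge f)) h5
      (fun x _ => (hd x).continuousAt.continuousWithinAt) (fun x _ => hd x)
    have h7 : 0 < mm1 (ge f) c := by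
      rw [hc', h6, sub_zero]
      exact div_pos h3 (by linarith)
    exact lt_of_lt_of_le h7 (monotone_mm1 hf hc.2.le)
  exact ⟨t, fun s hs => ⟨lt_of_lt_of_le h4 (monotone_mm1 hf hs),
    lt_of_lt_of_le h3 (monotone_mm hf h0 hs)⟩⟩

theorem mm1_le (hf : Differentiable ℂ f) {A B : ℝ} (hA : 1 ≤ A) (hB : 0 ≤ B)
    (hAB : ∀ z, ‖f z‖ ≤ A * Real.exp (B * ‖z‖)) :
    ∃ C : ℝ, 0 < C ∧ ∀ t ≥ 0, mm1 (ge f) t ≤ C * Real.exp (2 * t) := by
  have hlA : 0 ≤ Real.log A := Real.log_nonneg hA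
  have hππ := Real.pi_pos
  have hmm : ∀ t ≥ 0, mm (ge f) t ≤ 2 * π * (Real.log A + B) ^ 2 * Real.exp (2 * t) := by
    intro t ht
    have h1 : ∀ θ, Fc (Real.log ‖ge f (pt t θ)‖) ^ 2 ≤ ((Real.log A + B) * Real.exp t) ^ 2 := by
      intro θ
      apply pow_le_pow_left₀ (Fc_nonneg _)
      refine (Fc_le _).trans ?_
      have h2 : 0 ≤ (Real.log A + B) * Real.exp t := by positivity
      refine max_le ?_ h2
      by_cases h3 : ge f (pt t θ) = 0
      · rw [h3, norm_zero, Real.log_zero]; exact h2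
      · have h4 : Real.log ‖ge f (pt t θ)‖ ≤ Real.log (A * Real.exp (B * Real.exp t)) := by
          apply Real.log_le_log (norm_pos_iff.2 h3)
          have := hAB (Complex.exp (pt t θ))
          rw [norm_exp_pt] at this
          exact this
        rw [Real.log_mul (by linarith) (Real.exp_pos _).ne', Real.log_exp] at h4
        have h5 : 1 ≤ Real.exp t := Real.one_le_exp ht
        nlinarith
    have h2 : mm (ge f) t ≤ ∫ _ in (-π)..π, ((Real.log A + B) * Real.exp t) ^ 2 := by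
      unfold mm
      apply integral_mono_on (by linarith)
      · have := (continuous_integrand_mm (differentiable_ge hf)).comp (Continuous.prodMk_right t)
        exact (this.pow 2).intervalIntegrable _ _
      · exact intervalIntegrable_const
      · intro x _
        exact h1 x
    rw [intervalIntegral.integral_const, smul_eq_mul] at h2
    have h3 : Real.exp (2 * t) = Real.exp t ^ 2 := by
      rw [← Real.exp_nat_mul]; norm_num
    rw [h3]
    linarith
  refine ⟨2 * π * (Real.log A + B) ^ 2 * Real.exp 2 + 1, by positivity, fun t ht => ?_⟩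
  have hd := fun t => hasDerivAt_mm (differentiable_ge hf) t
  obtain ⟨c, hc, hc'⟩ := exists_hasDerivAt_eq_slope (mm (ge f)) (mm1 (ge f))
    (show t < t + 1 by linarith)
    (fun x _ => (hd x).continuousAt.continuousWithinAt) (fun x _ => hd x)
  have h1 : mm1 (ge f) t ≤ mm1 (ge f) c := monotone_mm1 hf hc.1.le
  have h2 : mm1 (ge f) c = mm (ge f) (t + 1) - mm (ge f) t := by
    rw [hc']; simp
  have h3 := hmm (t + 1) (by linarith)
  have h4 := mm_nonneg (ge f) t
  have h5 : Real.exp (2 * (t + 1)) = Real.exp 2 * Real.exp (2 * t) := by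
    rw [← Real.exp_add]; congr 1; ring
  rw [h5] at h3
  have h6 := Real.exp_pos (2 * t)
  nlinarith

end

theorem periodic_comp_pt {α : Type*} {g : ℂ → α} (hper : ∀ s, g (s + 2 * π * I) = g s) (t : ℝ) :
    Function.Periodic (fun θ => g (pt t θ)) (2 * π) := by
  intro θ
  have : pt t (θ + 2 * π) = pt t θ + 2 * π * I := by
    unfold pt; push_cast; ring
  simp only [this, hper]

/-- The two-phase inequality for the circle means. -/
theorem two_phase_mm {g1 g2 : ℂ → ℂ} (hg1 : Differentiable ℂ g1) (hg2 : Differentiable ℂ g2)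
    (hp1 : ∀ s, g1 (s + 2 * π * I) = g1 s) (hp2 : ∀ s, g2 (s + 2 * π * I) = g2 s) {t : ℝ}
    (hsep : ∀ θ, ‖g1 (pt t θ)‖ ≤ 1 ∨ ‖g2 (pt t θ)‖ ≤ 1) (h1 : 0 < mm g1 t) (h2 : 0 < mm g2 t) :
    ∃ κ₁ κ₂ : ℝ, 0 < κ₁ ∧ 0 < κ₂ ∧ 2 ≤ κ₁ + κ₂ ∧ 2 * κ₁ * mm1 g1 t ≤ mm2 g1 t ∧
      2 * κ₂ * mm1 g2 t ≤ mm2 g2 t := by
  have key : ∀ g : ℂ → ℂ, Differentiable ℂ g → (∀ s, g (s + 2 * π * I) = g s) → 0 < mm g t →
      (∀ θ, HasDerivAt (fun θ => Fc (Real.log ‖g (pt t θ)‖))
        (-(Fd (Real.log ‖g (pt t θ)‖) * (ld g (pt t θ)).im)) θ) ∧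
      Continuous (fun θ => -(Fd (Real.log ‖g (pt t θ)‖) * (ld g (pt t θ)).im)) ∧
      Function.Periodic (fun θ => Fc (Real.log ‖g (pt t θ)‖)) (2 * π) ∧
      Function.Periodic (fun θ => -(Fd (Real.log ‖g (pt t θ)‖) * (ld g (pt t θ)).im)) (2 * π) ∧
      (∃ θ, 0 < Fc (Real.log ‖g (pt t θ)‖)) := by
    intro g hg hp hm
    refine ⟨?_, ?_, ?_, ?_, ?_⟩
    · intro θ
      have h1 := hasDerivAt_cut (ψ := Fc) (ψ' := Fd) hasDerivAt_Fc
        (fun x hx => Fc_of_nonpos hx) (Fd_of_nonpos le_rfl) (comp_right hg t θ)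
      refine h1.congr_deriv ?_
      have h4 : (I * deriv g (pt t θ) / g (pt t θ)).re = -(ld g (pt t θ)).im := by
        rw [ld, mul_div_assoc]
        simp
      rw [h4]
      ring
    · have hgpt : Continuous (fun θ : ℝ => g (pt t θ)) :=
        hg.continuous.comp (continuous_pt.comp (Continuous.prodMk_right t))
      have hld : ∀ θ : ℝ, g (pt t θ) ≠ 0 → ContinuousAt (fun θ : ℝ => ld g (pt t θ)) θ :=
        fun p hp => ((differentiableAt_ld hg hp).continuousAt).comp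
          (f := fun θ : ℝ => pt t θ) (continuous_pt.comp (Continuous.prodMk_right t)).continuousAt
      exact (continuous_cut_mul continuous_Fd (fun x hx => Fd_of_nonpos hx) hgpt
        (ρ := fun θ => (ld g (pt t θ)).im)
        (fun p hp => (Complex.continuous_im.continuousAt.comp (hld p hp)))).neg
    · exact periodic_comp_pt (g := fun s => Fc (Real.log ‖g s‖)) (fun s => by rw [hp]) t
    · exact periodic_comp_pt (g := fun s => -(Fd (Real.log ‖g s‖) * (ld g s).im))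
        (fun s => by rw [hp, ld_periodic hp]) t
    · by_contra hcon
      push Not at hcon
      have h5 : mm g t = 0 := by
        unfold mm
        have h6 : ∀ θ, Fc (Real.log ‖g (pt t θ)‖) = 0 :=
          fun θ => le_antisymm (hcon θ) (Fc_nonneg _)
        simp only [h6]
        simp
      linarith
  obtain ⟨a1, a2, a3, a4, a5⟩ := key g1 hg1 hp1 h1
  obtain ⟨b1, b2, b3, b4, b5⟩ := key g2 hg2 hp2 h2
  obtain ⟨κ₁, κ₂, hk1, hk2, hk, hw1, hw2⟩ := two_phase a1 a2 b1 b2 a3 a4 b3 b4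
    (fun _ => Fc_nonneg _) (fun _ => Fc_nonneg _) (by
      intro θ
      rcases hsep θ with h | h
      · rw [Fc_of_nonpos (Real.log_nonpos (norm_nonneg _) h), zero_mul]
      · rw [Fc_of_nonpos (Real.log_nonpos (norm_nonneg _) h), mul_zero]) a5 b5 (-π)
  have hπ : -π + 2 * π = π := by ring
  rw [hπ] at hw1 hw2
  refine ⟨κ₁, κ₂, hk1, hk2, hk, mm2_ge hg1 hk1 ?_, mm2_ge hg2 hk2 ?_⟩
  · refine hw1.trans (le_of_eq ?_)
    apply integral_congr
    intro θ _
    simp only [neg_sq]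
  · refine hw2.trans (le_of_eq ?_)
    apply integral_congr
    intro θ _
    simp only [neg_sq]

/-- The monotonicity formula in integrated form. -/
theorem acf_main {f1 f2 : ℂ → ℂ} (hf1 : Differentiable ℂ f1) (hf2 : Differentiable ℂ f2)
    {A1 B1 A2 B2 : ℝ} (hA1 : 1 ≤ A1) (hB1 : 0 ≤ B1) (hA2 : 1 ≤ A2) (hB2 : 0 ≤ B2)
    (hAB1 : ∀ z, ‖f1 z‖ ≤ A1 * Real.exp (B1 * ‖z‖))
    (hAB2 : ∀ z, ‖f2 z‖ ≤ A2 * Real.exp (B2 * ‖z‖))
    (h10 : ‖f1 0‖ < 1) (h20 : ‖f2 0‖ < 1) (h11 : ∃ z, 1 < ‖f1 z‖) (h21 : ∃ z, 1 < ‖f2 z‖)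
    {R0 : ℝ} (hsep : ∀ z, R0 < ‖z‖ → ‖f1 z‖ ≤ 1 ∨ ‖f2 z‖ ≤ 1) :
    ∃ T0 C M : ℝ, 0 < C ∧ (∀ t ≥ T0, 0 < mm1 (ge f1) t ∧ mm1 (ge f1) t ≤ C * Real.exp (2 * t)) ∧
      ∀ T ≥ T0, ∀ h : ℝ → ℝ, IntegrableOn h (Ioc T0 T) →
        (∀ t ∈ Ioc T0 T, h t ≤ 0 ∨ h t ≤ mm2 (ge f1) t / mm1 (ge f1) t - 4) →
        ∫ t in Ioc T0 T, h t ≤ M := by
  obtain ⟨t1, ht1⟩ := exists_mm1_pos hf1 h10 h11
  obtain ⟨t2, ht2⟩ := exists_mm1_pos hf2 h20 h21
  obtain ⟨C1, hC1, hC1'⟩ := mm1_le hf1 hA1 hB1 hAB1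
  obtain ⟨C2, hC2, hC2'⟩ := mm1_le hf2 hA2 hB2 hAB2
  set T0 := max (max t1 t2) (max 0 (Real.log (max R0 1) + 1)) with hT0
  have hT1 : t1 ≤ T0 := (le_max_left _ _).trans (le_max_left _ _)
  have hT2 : t2 ≤ T0 := (le_max_right _ _).trans (le_max_left _ _)
  have hT3 : 0 ≤ T0 := (le_max_left _ _).trans (le_max_right _ _)
  have hT4 : Real.log (max R0 1) + 1 ≤ T0 := (le_max_right _ _).trans (le_max_right _ _)
  have hR : ∀ t ≥ T0, R0 < Real.exp t := by
    intro t ht
    have h1 : 0 < max R0 1 := lt_of_lt_of_le one_pos (le_max_right _ _)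
    have h2 : max R0 1 < Real.exp t := by
      rw [← Real.log_lt_iff_lt_exp h1]
      linarith
    exact lt_of_le_of_lt (le_max_left _ _) h2
  have hg1 := differentiable_ge hf1
  have hg2 := differentiable_ge hf2
  set Ψ : ℝ → ℝ := fun t => Real.log (mm1 (ge f1) t) + Real.log (mm1 (ge f2) t) - 4 * t with hΨ
  set Ψ' : ℝ → ℝ := fun t => mm2 (ge f1) t / mm1 (ge f1) t + mm2 (ge f2) t / mm1 (ge f2) t - 4
    with hΨ'
  have hd : ∀ t ≥ T0, HasDerivAt Ψ (Ψ' t) t := by
    intro t ht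
    have a1 := (hasDerivAt_mm1 hg1 (ge_periodic f1) t).log (ht1 t (hT1.trans ht)).1.ne'
    have a2 := (hasDerivAt_mm1 hg2 (ge_periodic f2) t).log (ht2 t (hT2.trans ht)).1.ne'
    have a3 := (a1.add a2).sub ((hasDerivAt_id t).const_mul 4)
    exact a3.congr_deriv (by simp [hΨ'])
  have hc : ContinuousOn Ψ' (Ici T0) := by
    have b1 : Continuous (mm1 (ge f1)) := continuous_iff_continuousAt.2 fun t =>
      (hasDerivAt_mm1 hg1 (ge_periodic f1) t).continuousAt
    have b2 : Continuous (mm1 (ge f2)) := continuous_iff_continuousAt.2 fun t =>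
      (hasDerivAt_mm1 hg2 (ge_periodic f2) t).continuousAt
    exact (((continuous_mm2 hg1).continuousOn.div b1.continuousOn
        (fun t ht => (ht1 t (hT1.trans ht)).1.ne')).add
      ((continuous_mm2 hg2).continuousOn.div b2.continuousOn
        (fun t ht => (ht2 t (hT2.trans ht)).1.ne'))).sub continuousOn_const
  have hlow : ∀ t ≥ T0, 0 ≤ Ψ' t ∧ mm2 (ge f1) t / mm1 (ge f1) t - 4 ≤ Ψ' t := by
    intro t ht
    have m1 := ht1 t (hT1.trans ht)
    have m2 := ht2 t (hT2.trans ht)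
    obtain ⟨κ₁, κ₂, hk1, hk2, hk, hw1, hw2⟩ := two_phase_mm hg1 hg2 (ge_periodic f1)
      (ge_periodic f2) (t := t) (by
        intro θ
        apply hsep
        rw [norm_exp_pt]
        exact hR t ht) m1.2 m2.2
    have e1 : 2 * κ₁ ≤ mm2 (ge f1) t / mm1 (ge f1) t := by
      rw [le_div_iff₀ m1.1]; exact hw1
    have e2 : 2 * κ₂ ≤ mm2 (ge f2) t / mm1 (ge f2) t := by
      rw [le_div_iff₀ m2.1]; exact hw2
    simp only [hΨ']
    constructor <;> linarith
  refine ⟨T0, C1, Real.log C1 + Real.log C2 - Ψ T0, hC1, ?_, ?_⟩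
  · intro t ht
    exact ⟨(ht1 t (hT1.trans ht)).1, hC1' t (hT3.trans ht)⟩
  · intro T hT h hint hh
    have hii : IntervalIntegrable Ψ' volume T0 T := by
      apply ContinuousOn.intervalIntegrable
      rw [uIcc_of_le hT]
      exact hc.mono Icc_subset_Ici_self
    have h1 : ∫ t in T0..T, Ψ' t = Ψ T - Ψ T0 := by
      apply integral_eq_sub_of_hasDerivAt
      · intro t ht
        rw [uIcc_of_le hT] at ht
        exact hd t ht.1
      · exact hii
    have h2 : ∫ t in Ioc T0 T, h t ≤ ∫ t in Ioc T0 T, Ψ' t := by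
      apply setIntegral_mono_on hint hii.1 measurableSet_Ioc
      intro t ht
      have h3 := hlow t ht.1.le
      rcases hh t ht with h4 | h4
      · exact h4.trans h3.1
      · exact h4.trans h3.2
    rw [integral_of_le hT] at h1
    rw [h1] at h2
    have h5 : Ψ T ≤ Real.log C1 + Real.log C2 := by
      have m1 := ht1 T (hT1.trans hT)
      have m2 := ht2 T (hT2.trans hT)
      have l1 := Real.log_le_log m1.1 (hC1' T (hT3.trans hT))
      have l2 := Real.log_le_log m2.1 (hC2' T (hT3.trans hT))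
      rw [Real.log_mul hC1.ne' (Real.exp_pos _).ne', Real.log_exp] at l1
      rw [Real.log_mul hC2.ne' (Real.exp_pos _).ne', Real.log_exp] at l2
      simp only [hΨ]
      linarith
    linarith

end Pool.Agent.H83
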