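import Mathlib

set_option autoImplicit false

open Complex Filter Set Bornology Asymptotics

namespace Pool.Agent.H83

/-- Exponential growth is eventually beaten by a larger exponential. -/
theorem eventually_mul_exp_le {C a b : ℝ} (hab : a < b) :
    ∀ᶠ r : ℝ in atTop, C * Real.exp (a * r) ≤ Real.exp (b * r) := by
  have h1 : Tendsto (fun r : ℝ => Real.exp ((b - a) * r)) atTop atTop :=
    Real.tendsto_exp_atTop.comp (tendsto_id.const_mul_atTop (sub_pos.mpr hab))
  filter_upwards [h1.eventually_ge_atTop C] with r hr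
  have h2 : Real.exp (b * r) = Real.exp ((b - a) * r) * Real.exp (a * r) := by
    rw [← Real.exp_add]; ring_nf
  rw [h2]
  exact mul_le_mul_of_nonneg_right hr (Real.exp_pos _).le

/-- Phragmen-Lindelof bound in the right half-plane. -/
theorem pl_right {f : ℂ → ℂ} (hf : Differentiable ℂ f) {A B C s : ℝ} (hB : 0 ≤ B)
    (hAB : ∀ z, ‖f z‖ ≤ A * Real.exp (B * ‖z‖))
    (hs : ∀ x : ℝ, 0 ≤ x → ‖f x‖ ≤ C * Real.exp (s * x)) {z : ℂ} (hz : 0 ≤ z.re) :
    ‖f z‖ ≤ max A C * Real.exp (s * z.re + B * |z.im|) := by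
  have hA0 : 0 ≤ A := by
    have := (norm_nonneg _).trans (hAB 0)
    simpa using this
  have hgen : ∀ (σ : ℝ) (w : ℂ), ‖f w * Complex.exp ((-(s : ℂ) + σ * I) * w)‖
      = ‖f w‖ * Real.exp (-(s * w.re) - σ * w.im) := by
    intro σ w
    rw [norm_mul, Complex.norm_exp]
    congr 2
    simp
  have hO : ∀ (σ : ℝ) (l : Filter ℂ), (fun w => f w * Complex.exp ((-(s : ℂ) + σ * I) * w))
      =O[l] fun z => Real.exp ((B + |s| + |σ|) * ‖z‖ ^ (1 : ℝ)) := by
    intro σ l
    refine IsBigO.of_bound A (Eventually.of_forall fun w => ?_)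
    rw [hgen, Real.rpow_one, Real.norm_eq_abs, Real.abs_exp]
    have h1 : -(s * w.re) ≤ |s| * ‖w‖ := by
      calc -(s * w.re) ≤ |s * w.re| := neg_le_abs _
        _ = |s| * |w.re| := abs_mul _ _
        _ ≤ |s| * ‖w‖ := by gcongr; exact Complex.abs_re_le_norm w
    have h2 : -(σ * w.im) ≤ |σ| * ‖w‖ := by
      calc -(σ * w.im) ≤ |σ * w.im| := neg_le_abs _
        _ = |σ| * |w.im| := abs_mul _ _
        _ ≤ |σ| * ‖w‖ := by gcongr; exact Complex.abs_im_le_norm w
    calc ‖f w‖ * Real.exp (-(s * w.re) - σ * w.im)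
        ≤ (A * Real.exp (B * ‖w‖)) * Real.exp (|s| * ‖w‖ + |σ| * ‖w‖) := by
          gcongr
          · exact hAB w
          · linarith
      _ = A * Real.exp ((B + |s| + |σ|) * ‖w‖) := by
          rw [mul_assoc, ← Real.exp_add]; ring_nf
  have hd : ∀ σ : ℝ, Differentiable ℂ (fun w => f w * Complex.exp ((-(s : ℂ) + σ * I) * w)) := by
    intro σ
    exact hf.mul ((differentiable_id.const_mul _).cexp)
  have hre : ∀ (σ x : ℝ), 0 ≤ x →
      ‖f x * Complex.exp ((-(s : ℂ) + σ * I) * x)‖ ≤ max A C := by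
    intro σ x hx
    rw [hgen]
    have h := hs x hx
    simp only [Complex.ofReal_re, Complex.ofReal_im, mul_zero, sub_zero]
    calc ‖f x‖ * Real.exp (-(s * x)) ≤ (C * Real.exp (s * x)) * Real.exp (-(s * x)) := by
          gcongr
      _ = C := by rw [mul_assoc, ← Real.exp_add]; simp
      _ ≤ max A C := le_max_right _ _
  rcases le_total 0 z.im with hi | hi
  · have key : ‖f z * Complex.exp ((-(s : ℂ) + B * I) * z)‖ ≤ max A C := by
      refine PhragmenLindelof.quadrant_I (f := fun w => f w * Complex.exp ((-(s : ℂ) + B * I) * w))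
        (hd B).diffContOnCl ⟨1, by norm_num, _, hO B _⟩ (hre B) ?_ hz hi
      intro x hx
      rw [hgen]
      have h := hAB (x * I)
      have hn : ‖(x : ℂ) * I‖ = x := by
        rw [norm_mul, Complex.norm_I, mul_one, Complex.norm_real, Real.norm_eq_abs, abs_of_nonneg hx]
      rw [hn] at h
      have e1 : ((x : ℂ) * I).re = 0 := by simp
      have e2 : ((x : ℂ) * I).im = x := by simp
      rw [e1, e2]
      calc ‖f (x * I)‖ * Real.exp (-(s * 0) - B * x)
          ≤ (A * Real.exp (B * x)) * Real.exp (-(s * 0) - B * x) := by gcongr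
        _ = A := by rw [mul_assoc, ← Real.exp_add]; simp
        _ ≤ max A C := le_max_left _ _
    rw [hgen] at key
    rw [abs_of_nonneg hi]
    calc ‖f z‖ = (‖f z‖ * Real.exp (-(s * z.re) - B * z.im)) * Real.exp (s * z.re + B * z.im) := by
          rw [mul_assoc, ← Real.exp_add]
          have : -(s * z.re) - B * z.im + (s * z.re + B * z.im) = 0 := by ring
          rw [this]; simp
      _ ≤ max A C * Real.exp (s * z.re + B * z.im) := by gcongr
  · have key : ‖f z * Complex.exp ((-(s : ℂ) + ((-B : ℝ) : ℂ) * I) * z)‖ ≤ max A C := by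
      refine PhragmenLindelof.quadrant_IV
        (f := fun w => f w * Complex.exp ((-(s : ℂ) + ((-B : ℝ) : ℂ) * I) * w))
        (hd (-B)).diffContOnCl ⟨1, by norm_num, _, hO (-B) _⟩ (hre (-B)) ?_ hz hi
      intro x hx
      rw [hgen]
      have h := hAB (x * I)
      have hn : ‖(x : ℂ) * I‖ = -x := by
        rw [norm_mul, Complex.norm_I, mul_one, Complex.norm_real, Real.norm_eq_abs, abs_of_nonpos hx]
      rw [hn] at h
      have e1 : ((x : ℂ) * I).re = 0 := by simp
      have e2 : ((x : ℂ) * I).im = x := by simp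
      rw [e1, e2]
      calc ‖f (x * I)‖ * Real.exp (-(s * 0) - (-B) * x)
          ≤ (A * Real.exp (B * (-x))) * Real.exp (-(s * 0) - (-B) * x) := by gcongr
        _ = A := by rw [mul_assoc, ← Real.exp_add]; ring_nf; simp
        _ ≤ max A C := le_max_left _ _
    rw [hgen] at key
    rw [abs_of_nonpos hi]
    calc ‖f z‖ = (‖f z‖ * Real.exp (-(s * z.re) - (-B) * z.im)) *
          Real.exp (s * z.re + B * (-z.im)) := by
          rw [mul_assoc, ← Real.exp_add]
          have : -(s * z.re) - (-B) * z.im + (s * z.re + B * (-z.im)) = 0 := by ring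
          rw [this]; simp
      _ ≤ max A C * Real.exp (s * z.re + B * (-z.im)) := by gcongr

/-- Phragmen-Lindelof bound in a rotated half-plane. -/
theorem pl_dir {f : ℂ → ℂ} (hf : Differentiable ℂ f) {A B C s : ℝ} (hB : 0 ≤ B)
    (hAB : ∀ z, ‖f z‖ ≤ A * Real.exp (B * ‖z‖)) {e : ℂ} (he : ‖e‖ = 1)
    (hs : ∀ x : ℝ, 0 ≤ x → ‖f (x * e)‖ ≤ C * Real.exp (s * x)) {ζ : ℂ} (hζ : 0 ≤ ζ.re) :
    ‖f (ζ * e)‖ ≤ max A C * Real.exp (s * ζ.re + B * |ζ.im|) := by
  have h := pl_right (f := fun z => f (z * e)) (hf.comp (differentiable_id.mul_const e)) hB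
    (A := A) (C := C) (s := s) (fun z => by
      have := hAB (z * e)
      rwa [norm_mul, he, mul_one] at this) hs hζ
  exact h

/-- From an eventual exponential bound to a global one on a ray. -/
theorem exists_global {f : ℂ → ℂ} {A B s : ℝ} (hA : 0 ≤ A) (hB : 0 ≤ B)
    (hAB : ∀ z, ‖f z‖ ≤ A * Real.exp (B * ‖z‖)) {e : ℂ} (he : ‖e‖ = 1)
    (hs : ∀ᶠ r : ℝ in atTop, ‖f (r * e)‖ ≤ Real.exp (s * r)) :
    ∃ C : ℝ, ∀ x : ℝ, 0 ≤ x → ‖f (x * e)‖ ≤ C * Real.exp (s * x) := by
  obtain ⟨X, hX⟩ := eventually_atTop.1 hs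
  refine ⟨max 1 (A * Real.exp (B * |X|) * Real.exp (|s| * |X|)), fun x hx => ?_⟩
  rcases le_total X x with h | h
  · calc ‖f (x * e)‖ ≤ Real.exp (s * x) := hX x h
      _ = 1 * Real.exp (s * x) := (one_mul _).symm
      _ ≤ _ := by gcongr; exact le_max_left _ _
  · have hx' : x ≤ |X| := h.trans (le_abs_self X)
    have hn : ‖(x : ℂ) * e‖ = x := by
      rw [norm_mul, he, mul_one, Complex.norm_real, Real.norm_eq_abs, abs_of_nonneg hx]
    have h1 : ‖f (x * e)‖ ≤ A * Real.exp (B * |X|) := by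
      calc ‖f (x * e)‖ ≤ A * Real.exp (B * ‖(x : ℂ) * e‖) := hAB _
        _ ≤ A * Real.exp (B * |X|) := by rw [hn]; gcongr
    have h2 : 1 ≤ Real.exp (|s| * |X|) * Real.exp (s * x) := by
      rw [← Real.exp_add]
      apply Real.one_le_exp
      have : -(s * x) ≤ |s| * |X| := by
        calc -(s * x) ≤ |s * x| := neg_le_abs _
          _ = |s| * |x| := abs_mul _ _
          _ = |s| * x := by rw [abs_of_nonneg hx]
          _ ≤ |s| * |X| := by gcongr
      linarith
    calc ‖f (x * e)‖ ≤ A * Real.exp (B * |X|) := h1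
      _ ≤ A * Real.exp (B * |X|) * (Real.exp (|s| * |X|) * Real.exp (s * x)) :=
          le_mul_of_one_le_right (by positivity) h2
      _ = (A * Real.exp (B * |X|) * Real.exp (|s| * |X|)) * Real.exp (s * x) := by ring
      _ ≤ _ := by gcongr; exact le_max_right _ _

/-- Rotation data: if `e, e0` are unit vectors then `e0 = ζ * e` with `‖ζ‖ = 1`, `‖ζ - 1‖ = ‖e0 - e‖`. -/
theorem exists_rot {e e0 : ℂ} (he : ‖e‖ = 1) (he0 : ‖e0‖ = 1) :
    ∃ ζ : ℂ, e0 = ζ * e ∧ ‖ζ‖ = 1 ∧ ‖ζ - 1‖ = ‖e0 - e‖ := by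
  have hne : e ≠ 0 := by
    intro h; rw [h] at he; simp at he
  refine ⟨e0 / e, by field_simp, by rw [norm_div, he, he0, div_one], ?_⟩
  have : e0 / e - 1 = (e0 - e) / e := by field_simp
  rw [this, norm_div, he, div_one]

/-- Uniform positivity of the indicator. -/
theorem uniform_pos {L : ℂ → ℂ} (hL : Differentiable ℂ L) {A B : ℝ} (hA : 0 ≤ A) (hB : 0 ≤ B)
    (hAB : ∀ z, ‖L z‖ ≤ A * Real.exp (B * ‖z‖))
    (hpos : ∀ φ : ℝ, ∃ c : ℝ, 0 < c ∧ ∀ R : ℝ, ∃ r : ℝ, R < r ∧
      Real.exp (c * r) < ‖L ((r : ℂ) * Complex.exp ((φ : ℂ) * Complex.I))‖) :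
    ∃ c : ℝ, 0 < c ∧ ∀ e : ℂ, ‖e‖ = 1 → ∀ R : ℝ, ∃ r : ℝ, R < r ∧
      Real.exp (c * r) < ‖L ((r : ℂ) * e)‖ := by
  have hcomp : IsCompact (Metric.sphere (0 : ℂ) 1) := isCompact_sphere _ _
  have main : ∃ c : ℝ, 0 < c ∧ ∀ e ∈ Metric.sphere (0 : ℂ) 1, ‖e‖ = 1 → ∀ R : ℝ, ∃ r : ℝ, R < r ∧
      Real.exp (c * r) < ‖L ((r : ℂ) * e)‖ := by
    refine hcomp.induction_on
      (p := fun U => ∃ c : ℝ, 0 < c ∧ ∀ e ∈ U, ‖e‖ = 1 → ∀ R : ℝ, ∃ r : ℝ, R < r ∧
        Real.exp (c * r) < ‖L ((r : ℂ) * e)‖) ?_ ?_ ?_ ?_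
    · exact ⟨1, one_pos, by simp⟩
    · rintro s t hst ⟨c, hc, h⟩
      exact ⟨c, hc, fun e he => h e (hst he)⟩
    · rintro s t ⟨c, hc, h⟩ ⟨c', hc', h'⟩
      refine ⟨min c c', lt_min hc hc', ?_⟩
      rintro e (he | he) hn R
      · obtain ⟨r, hr, hr'⟩ := h e he hn (max R 0)
        refine ⟨r, (le_max_left _ _).trans_lt hr, lt_of_le_of_lt ?_ hr'⟩
        have : 0 < r := (le_max_right _ _).trans_lt hr
        gcongr
        exact min_le_left _ _
      · obtain ⟨r, hr, hr'⟩ := h' e he hn (max R 0)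
        refine ⟨r, (le_max_left _ _).trans_lt hr, lt_of_le_of_lt ?_ hr'⟩
        have : 0 < r := (le_max_right _ _).trans_lt hr
        gcongr
        exact min_le_right _ _
    · intro e0 he0
      have hn0 : ‖e0‖ = 1 := by simpa using he0
      obtain ⟨c0, hc0, hbig⟩ := hpos (Complex.arg e0)
      have harg : Complex.exp ((Complex.arg e0 : ℂ) * Complex.I) = e0 := by
        have := Complex.norm_mul_exp_arg_mul_I e0
        rw [hn0] at this
        simpa using this
      rw [harg] at hbig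
      -- the neighbourhood
      set δ : ℝ := min 1 (c0 / (4 * (B + 1))) with hδ
      have hδpos : 0 < δ := by positivity
      have hBδ : B * δ ≤ c0 / 4 := by
        calc B * δ ≤ (B + 1) * (c0 / (4 * (B + 1))) := by
              gcongr
              · linarith
              · exact min_le_right _ _
          _ = c0 / 4 := by field_simp
      refine ⟨Metric.ball e0 δ, mem_nhdsWithin_of_mem_nhds (Metric.ball_mem_nhds _ hδpos),
        c0 / 2, by positivity, ?_⟩
      intro e he hn R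
      by_contra hcon
      push Not at hcon
      have hev : ∀ᶠ r : ℝ in atTop, ‖L (r * e)‖ ≤ Real.exp ((c0 / 2) * r) :=
        (eventually_gt_atTop R).mono fun r hr => hcon r hr
      obtain ⟨C, hC⟩ := exists_global hA hB hAB hn hev
      obtain ⟨ζ, hζe, hζn, hζ1⟩ := exists_rot hn hn0
      have hζδ : ‖ζ - 1‖ ≤ δ := by
        rw [hζ1, ← dist_eq_norm, dist_comm]
        exact (Metric.mem_ball.1 he).le
      have hζre : 0 ≤ ζ.re := by
        have h1 : |(ζ - 1).re| ≤ δ := (Complex.abs_re_le_norm _).trans hζδ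
        have h2 : (ζ - 1).re = ζ.re - 1 := by simp
        rw [h2] at h1
        have h3 := (abs_le.1 h1).1
        have h4 : δ ≤ 1 := min_le_left _ _
        linarith
      have hζre1 : ζ.re ≤ 1 := (Complex.re_le_norm ζ).trans hζn.le
      have hζim : |ζ.im| ≤ δ := by
        have h1 : |(ζ - 1).im| ≤ δ := (Complex.abs_im_le_norm _).trans hζδ
        simpa using h1
      set M : ℝ := max A C with hM
      have hup : ∀ r : ℝ, 0 ≤ r → ‖L (r * e0)‖ ≤ M * Real.exp ((3 * c0 / 4) * r) := by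
        intro r hr
        have h1 : (r : ℂ) * e0 = ((r : ℂ) * ζ) * e := by rw [hζe]; ring
        have hre : ((r : ℂ) * ζ).re = r * ζ.re := by simp
        have him : ((r : ℂ) * ζ).im = r * ζ.im := by simp
        have h2 := pl_dir hL hB hAB hn hC (ζ := (r : ℂ) * ζ) (by rw [hre]; positivity)
        rw [h1]
        refine h2.trans ?_
        have hM0 : 0 ≤ M := le_max_of_le_left hA
        rw [hre, him]
        gcongr M * Real.exp ?_
        rw [abs_mul, abs_of_nonneg hr]
        have h3 : c0 / 2 * (r * ζ.re) ≤ c0 / 2 * r := by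
          have : r * ζ.re ≤ r * 1 := by gcongr
          nlinarith
        have h4 : B * (r * |ζ.im|) ≤ (c0 / 4) * r := by
          calc B * (r * |ζ.im|) = (B * |ζ.im|) * r := by ring
            _ ≤ (B * δ) * r := by gcongr
            _ ≤ (c0 / 4) * r := by gcongr
        linarith
      have hev2 := eventually_mul_exp_le (C := M) (a := 3 * c0 / 4) (b := c0) (by linarith)
      obtain ⟨R1, hR1⟩ := eventually_atTop.1 (hev2.and (eventually_ge_atTop (0 : ℝ)))
      obtain ⟨r, hr, hr'⟩ := hbig R1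
      have h5 := hR1 r hr.le
      exact absurd hr' (not_lt.2 ((hup r h5.2).trans h5.1))
  obtain ⟨c, hc, h⟩ := main
  exact ⟨c, hc, fun e he => h e (by simpa using he) he⟩

/-- Uniform upper bound near points of a direction in terms of any admissible exponent. -/
theorem uniform_upper {L : ℂ → ℂ} (hL : Differentiable ℂ L) {A B : ℝ} (hA : 0 ≤ A) (hB : 0 ≤ B)
    (hAB : ∀ z, ‖L z‖ ≤ A * Real.exp (B * ‖z‖)) {ε : ℝ} (hε : 0 < ε) :
    ∃ R : ℝ, ∀ e : ℂ, ‖e‖ = 1 → ∀ s : ℝ, 0 ≤ s →
      (∀ᶠ r : ℝ in atTop, ‖L ((r : ℂ) * e)‖ ≤ Real.exp (s * r)) →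
      ∀ r : ℝ, R < r → ∀ z : ℂ, ‖z - r * e‖ ≤ 1 → ‖L z‖ ≤ Real.exp ((s + ε) * r) := by
  have hcomp : IsCompact (Metric.sphere (0 : ℂ) 1) := isCompact_sphere _ _
  have main : ∃ R : ℝ, ∀ e ∈ Metric.sphere (0 : ℂ) 1, ‖e‖ = 1 → ∀ s : ℝ, 0 ≤ s →
      (∀ᶠ r : ℝ in atTop, ‖L ((r : ℂ) * e)‖ ≤ Real.exp (s * r)) →
      ∀ r : ℝ, R < r → ∀ z : ℂ, ‖z - r * e‖ ≤ 1 → ‖L z‖ ≤ Real.exp ((s + ε) * r) := by
    refine hcomp.induction_on
      (p := fun U => ∃ R : ℝ, ∀ e ∈ U, ‖e‖ = 1 → ∀ s : ℝ, 0 ≤ s →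
      (∀ᶠ r : ℝ in atTop, ‖L ((r : ℂ) * e)‖ ≤ Real.exp (s * r)) →
      ∀ r : ℝ, R < r → ∀ z : ℂ, ‖z - r * e‖ ≤ 1 → ‖L z‖ ≤ Real.exp ((s + ε) * r)) ?_ ?_ ?_ ?_
    · exact ⟨0, by simp⟩
    · rintro s t hst ⟨R, h⟩
      exact ⟨R, fun e he => h e (hst he)⟩
    · rintro s t ⟨R, h⟩ ⟨R', h'⟩
      refine ⟨max R R', ?_⟩
      rintro e (he | he) hn σ hσ hadm r hr z hz
      · exact h e he hn σ hσ hadm r ((le_max_left _ _).trans_lt hr) z hz
      · exact h' e he hn σ hσ hadm r ((le_max_right _ _).trans_lt hr) z hz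
    · intro e0 he0
      have hn0 : ‖e0‖ = 1 := by simpa using he0
      set S0 : Set ℝ := {s | 0 ≤ s ∧ ∀ᶠ r : ℝ in atTop, ‖L ((r : ℂ) * e0)‖ ≤ Real.exp (s * r)}
        with hS0
      have hne : S0.Nonempty := by
        refine ⟨B + 1, by positivity, ?_⟩
        filter_upwards [eventually_mul_exp_le (C := A) (a := B) (b := B + 1) (by linarith),
          eventually_ge_atTop (0 : ℝ)] with r hr hr0
        refine (hAB _).trans ?_
        rw [norm_mul, hn0, mul_one, Complex.norm_real, Real.norm_eq_abs, abs_of_nonneg hr0]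
        exact hr
      have hbdd : BddBelow S0 := ⟨0, fun s hs => hs.1⟩
      obtain ⟨s0, hs0, hs0lt⟩ := exists_lt_of_csInf_lt hne
        (show sInf S0 < sInf S0 + ε / 4 by linarith)
      obtain ⟨C0, hC0⟩ := exists_global hA hB hAB hn0 hs0.2
      set δ : ℝ := min (1 / 2) (ε / (8 * (B + 1))) with hδ
      have hδpos : 0 < δ := by positivity
      have hBδ : B * δ ≤ ε / 8 := by
        calc B * δ ≤ (B + 1) * (ε / (8 * (B + 1))) := by
              gcongr
              · linarith
              · exact min_le_right _ _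
          _ = ε / 8 := by field_simp
      set C2 : ℝ := max A C0 * Real.exp (s0 + B) with hC2
      obtain ⟨R1, hR1⟩ := eventually_atTop.1
        (eventually_mul_exp_le (C := C2) (a := 0) (b := ε / 4) (by linarith))
      refine ⟨Metric.ball e0 δ, mem_nhdsWithin_of_mem_nhds (Metric.ball_mem_nhds _ hδpos),
        max R1 2, ?_⟩
      intro e he hn s hs hadm r hr z hz
      have hrR1 : R1 ≤ r := (le_max_left _ _).trans hr.le
      have hr2 : 2 ≤ r := (le_max_right _ _).trans hr.le
      have hdist : ‖e - e0‖ ≤ δ := by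
        rw [← dist_eq_norm]; exact (Metric.mem_ball.1 he).le
      -- lower bound for s
      have hslow : s0 < s + B * δ + ε / 2 := by
        obtain ⟨C, hC⟩ := exists_global hA hB hAB hn hadm
        obtain ⟨ζ, hζe, hζn, hζ1⟩ := exists_rot hn hn0
        have hζδ : ‖ζ - 1‖ ≤ δ := by
          rw [hζ1, ← norm_neg]; simpa using hdist
        have hζre : 0 ≤ ζ.re := by
          have h1 : |(ζ - 1).re| ≤ δ := (Complex.abs_re_le_norm _).trans hζδ
          have h2 : (ζ - 1).re = ζ.re - 1 := by simp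
          rw [h2] at h1
          have h3 := (abs_le.1 h1).1
          have h4 : δ ≤ 1 / 2 := min_le_left _ _
          linarith
        have hζre1 : ζ.re ≤ 1 := (Complex.re_le_norm ζ).trans hζn.le
        have hζim : |ζ.im| ≤ δ := by
          have h1 : |(ζ - 1).im| ≤ δ := (Complex.abs_im_le_norm _).trans hζδ
          simpa using h1
        have hmem : s + B * δ + ε / 4 ∈ S0 := by
          refine ⟨by positivity, ?_⟩
          filter_upwards [eventually_mul_exp_le (C := max A C) (a := s + B * δ)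
            (b := s + B * δ + ε / 4) (by linarith), eventually_ge_atTop (0 : ℝ)] with x hx hx0
          have h1 : (x : ℂ) * e0 = ((x : ℂ) * ζ) * e := by rw [hζe]; ring
          have hre : ((x : ℂ) * ζ).re = x * ζ.re := by simp
          have him : ((x : ℂ) * ζ).im = x * ζ.im := by simp
          have h2 := pl_dir hL hB hAB hn hC (ζ := (x : ℂ) * ζ) (by rw [hre]; positivity)
          rw [h1]
          refine h2.trans (le_trans ?_ hx)
          have hM0 : 0 ≤ max A C := le_max_of_le_left hA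
          rw [hre, him]
          gcongr max A C * Real.exp ?_
          rw [abs_mul, abs_of_nonneg hx0]
          have h3 : s * (x * ζ.re) ≤ s * x := by
            have : x * ζ.re ≤ x * 1 := by gcongr
            nlinarith
          have h4 : B * (x * |ζ.im|) ≤ (B * δ) * x := by
            calc B * (x * |ζ.im|) = (B * |ζ.im|) * x := by ring
              _ ≤ (B * δ) * x := by gcongr
          linarith
        have := csInf_le hbdd hmem
        linarith
      -- upper bound for L z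
      have hne0 : e0 ≠ 0 := by
        intro h; rw [h] at hn0; simp at hn0
      set ζ : ℂ := z / e0 with hζ
      have hz' : z = ζ * e0 := by rw [hζ]; field_simp
      have hζr : ‖ζ - r‖ ≤ 1 + r * δ := by
        have h1 : ζ - r = (z - r * e0) / e0 := by rw [hζ]; field_simp
        rw [h1, norm_div, hn0, div_one]
        have h2 : z - r * e0 = (z - r * e) + r * (e - e0) := by ring
        rw [h2]
        refine (norm_add_le _ _).trans ?_
        have h3 : ‖(r : ℂ) * (e - e0)‖ ≤ r * δ := by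
          rw [norm_mul, Complex.norm_real, Real.norm_eq_abs, abs_of_nonneg (by linarith)]
          gcongr
        linarith
      have hδ2 : δ ≤ 1 / 2 := min_le_left _ _
      have hζre : 0 ≤ ζ.re := by
        have h1 : |(ζ - r).re| ≤ 1 + r * δ := (Complex.abs_re_le_norm _).trans hζr
        have h2 : (ζ - r).re = ζ.re - r := by simp
        rw [h2] at h1
        have h3 := (abs_le.1 h1).1
        nlinarith
      have hζre1 : ζ.re ≤ r + 1 := by
        refine (Complex.re_le_norm ζ).trans ?_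
        have h1 : ‖ζ‖ = ‖z‖ := by rw [hζ, norm_div, hn0, div_one]
        have h2 : z = (z - r * e) + r * e := by ring
        rw [h1, h2]
        refine (norm_add_le _ _).trans ?_
        rw [norm_mul, hn, mul_one, Complex.norm_real, Real.norm_eq_abs, abs_of_nonneg (by linarith)]
        linarith
      have hζim : |ζ.im| ≤ 1 + r * δ := by
        have h1 : |(ζ - r).im| ≤ 1 + r * δ := (Complex.abs_im_le_norm _).trans hζr
        simpa using h1
      have h2 := pl_dir hL hB hAB hn0 hC0 hζre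
      rw [hz']
      refine h2.trans ?_
      have hM0 : 0 ≤ max A C0 := le_max_of_le_left hA
      have hs00 : 0 ≤ s0 := hs0.1
      have h3 : s0 * ζ.re + B * |ζ.im| ≤ (s0 + B) + (s + 3 * ε / 4) * r := by
        have h4 : s0 * ζ.re ≤ s0 * (r + 1) := by gcongr
        have h5 : B * |ζ.im| ≤ B * (1 + r * δ) := by gcongr
        have h6 : s0 * r ≤ (s + B * δ + ε / 2) * r := by gcongr
        have h7 : (B * δ) * r ≤ (ε / 8) * r := by gcongr
        nlinarith
      calc max A C0 * Real.exp (s0 * ζ.re + B * |ζ.im|)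
          ≤ max A C0 * Real.exp ((s0 + B) + (s + 3 * ε / 4) * r) := by gcongr
        _ = C2 * Real.exp (0 * r) * Real.exp ((s + 3 * ε / 4) * r) := by
            rw [Real.exp_add, hC2]; simp; ring
        _ ≤ Real.exp ((ε / 4) * r) * Real.exp ((s + 3 * ε / 4) * r) := by
            gcongr
            exact hR1 r hrR1
        _ = Real.exp ((s + ε) * r) := by rw [← Real.exp_add]; ring_nf
  obtain ⟨R, h⟩ := main
  exact ⟨R, fun e he => h e (by simpa using he) he⟩

end Pool.Agent.H83
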