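import Mathlib
import Pool.Agent.H83.ACF

set_option autoImplicit false

open Filter Set MeasureTheory intervalIntegral Complex
open scoped Topology Real

namespace Pool.Agent.H83

/-- Left end of the logarithmic window attached to the zero `w`. -/
noncomputable def dl (f : ℂ → ℂ) (w : ℂ) : ℝ := 4 * Real.exp 1 / (3 * ‖deriv f w‖ * ‖w‖)

/-- Right end of the logarithmic window attached to the zero `w`. -/
noncomputable def dr (ρ : ℝ) (w : ℂ) : ℝ := ρ / (4 * ‖w‖)

/-- Local structure of `f` near the simple zero `w`. -/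
structure LocZ (f : ℂ → ℂ) (w : ℂ) (ρ : ℝ) : Prop where
  low : ∀ z, ‖z - w‖ ≤ ρ → 3 / 4 * ‖deriv f w‖ * ‖z - w‖ ≤ ‖f z‖
  up : ∀ z, ‖z - w‖ ≤ ρ → ‖f z‖ ≤ 5 / 4 * ‖deriv f w‖ * ‖z - w‖
  der : ∀ z, ‖z - w‖ ≤ ρ → 1 / 2 * ‖deriv f w‖ ≤ ‖deriv f z‖
  nz : deriv f w ≠ 0
  one : 1 ≤ ‖w‖
  dlt : dl f w < dr ρ w
  dle : dr ρ w ≤ 1 / 2

/-- One-sided arc attached to `w`. -/
noncomputable def arcW (w : ℂ) (d : ℝ) : Set ℝ :=
  if 0 < arg w then Ioo (arg w - d) (arg w) else Ioo (arg w) (arg w + d)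

theorem measurableSet_arcW (w : ℂ) (d : ℝ) : MeasurableSet (arcW w d) := by
  unfold arcW
  split_ifs <;> exact measurableSet_Ioo

theorem volume_arcW (w : ℂ) {d : ℝ} (hd : 0 ≤ d) : (volume.real (arcW w d)) = d := by
  unfold arcW
  split_ifs
  · rw [Real.volume_real_Ioo_of_le (by linarith)]; ring
  · rw [Real.volume_real_Ioo_of_le (by linarith)]; ring

theorem arcW_subset (w : ℂ) {d : ℝ} (hd : d ≤ 1) : arcW w d ⊆ Ioc (-π) π := by
  have h3 := Real.pi_gt_three
  unfold arcW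
  split_ifs with h
  · intro x hx
    exact ⟨by have := hx.1; linarith, by have := hx.2; have := Complex.arg_le_pi w; linarith⟩
  · intro x hx
    push Not at h
    exact ⟨by have := hx.1; have := Complex.neg_pi_lt_arg w; linarith, by have := hx.2; linarith⟩

theorem abs_sub_of_mem_arcW {w : ℂ} {d θ : ℝ} (h : θ ∈ arcW w d) : |θ - arg w| ≤ d := by
  unfold arcW at h
  split_ifs at h
  · rw [abs_le]; constructor <;> linarith [h.1, h.2]
  · rw [abs_le]; constructor <;> linarith [h.1, h.2]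

/-- Geometry of the window. -/
theorem window_geom {w : ℂ} (hw : w ≠ 0) {t θ : ℝ} (hd0 : 0 ≤ t - Real.log ‖w‖)
    (hd1 : t - Real.log ‖w‖ ≤ 1 / 2) (hθ : |θ - arg w| ≤ t - Real.log ‖w‖) :
    ‖w‖ * (t - Real.log ‖w‖) ≤ ‖Complex.exp (pt t θ) - w‖ ∧
      ‖Complex.exp (pt t θ) - w‖ ≤ 4 * ‖w‖ * (t - Real.log ‖w‖) := by
  set d := t - Real.log ‖w‖ with hd
  have hwpos : 0 < ‖w‖ := norm_pos_iff.2 hw
  set u : ℂ := (d : ℂ) + ((θ - arg w : ℝ) : ℂ) * I with hu
  have hz : Complex.exp (pt t θ) = w * Complex.exp u := by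
    have h1 : pt t θ = Complex.log w + u := by
      rw [pt, hu, Complex.log, hd]
      push_cast
      ring
    rw [h1, Complex.exp_add, Complex.exp_log hw]
  constructor
  · have h1 : ‖Complex.exp (pt t θ)‖ - ‖w‖ ≤ ‖Complex.exp (pt t θ) - w‖ := norm_sub_norm_le _ _
    have h2 : ‖Complex.exp (pt t θ)‖ = ‖w‖ * Real.exp d := by
      rw [norm_exp_pt, hd, Real.exp_sub, Real.exp_log hwpos]
      field_simp
    rw [h2] at h1
    have h3 : d + 1 ≤ Real.exp d := Real.add_one_le_exp d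
    nlinarith
  · have h1 : Complex.exp (pt t θ) - w = w * (Complex.exp u - 1) := by rw [hz]; ring
    have h2 : ‖u‖ ≤ 2 * d := by
      rw [hu]
      refine (norm_add_le _ _).trans ?_
      rw [norm_mul, Complex.norm_I, mul_one, Complex.norm_real, Complex.norm_real,
        Real.norm_eq_abs, Real.norm_eq_abs, abs_of_nonneg hd0]
      linarith
    have h3 : ‖Complex.exp u - 1‖ ≤ 2 * ‖u‖ := Complex.norm_exp_sub_one_le (by linarith)
    rw [h1, norm_mul]
    nlinarith

theorem ld_ge {f : ℂ → ℂ} (hf : Differentiable ℂ f) (s : ℂ) :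
    ld (ge f) s = Complex.exp s * deriv f (Complex.exp s) / f (Complex.exp s) := by
  have h1 : HasDerivAt (ge f) (deriv f (Complex.exp s) * Complex.exp s) s :=
    (hf (Complex.exp s)).hasDerivAt.comp s (Complex.hasDerivAt_exp s)
  rw [ld, h1.deriv, ge, mul_comm]

/-- The contribution of a zero on its window. -/
theorem window_bound {f : ℂ → ℂ} (hf : Differentiable ℂ f) {w : ℂ} {ρ : ℝ} (hw : LocZ f w ρ)
    {t θ : ℝ} (hd1 : dl f w ≤ t - Real.log ‖w‖) (hd2 : t - Real.log ‖w‖ ≤ dr ρ w)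
    (hθ : |θ - arg w| ≤ t - Real.log ‖w‖) :
    1 / (100 * (t - Real.log ‖w‖) ^ 2) ≤
      Pdd (Real.log ‖ge f (pt t θ)‖) * ‖ld (ge f) (pt t θ)‖ ^ 2 ∧
      ‖Complex.exp (pt t θ) - w‖ ≤ ρ := by
  set d := t - Real.log ‖w‖ with hd
  have hwpos : 0 < ‖w‖ := lt_of_lt_of_le one_pos hw.one
  have hw0 : w ≠ 0 := norm_pos_iff.1 hwpos
  have hDpos : 0 < ‖deriv f w‖ := norm_pos_iff.2 hw.nz
  have hdlpos : 0 < dl f w := by unfold dl; positivity
  have hdpos : 0 < d := lt_of_lt_of_le hdlpos hd1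
  obtain ⟨g1, g2⟩ := window_geom hw0 (t := t) (θ := θ) hdpos.le (hd2.trans hw.dle) hθ
  set z := Complex.exp (pt t θ) with hz
  have hρ : ‖z - w‖ ≤ ρ := by
    refine g2.trans ?_
    have : d ≤ ρ / (4 * ‖w‖) := hd2
    rw [le_div_iff₀ (by positivity)] at this
    linarith
  refine ⟨?_, hρ⟩
  have hlow := hw.low z hρ
  have hup := hw.up z hρ
  have hder := hw.der z hρ
  have hge : ge f (pt t θ) = f z := rfl
  -- log ≥ 1
  have h1 : Real.exp 1 ≤ ‖f z‖ := by
    refine le_trans ?_ hlow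
    have h2 : 4 * Real.exp 1 / (3 * ‖deriv f w‖ * ‖w‖) ≤ d := hd1
    rw [div_le_iff₀ (by positivity)] at h2
    have h3 : 3 / 4 * ‖deriv f w‖ * (‖w‖ * d) ≤ 3 / 4 * ‖deriv f w‖ * ‖z - w‖ :=
      mul_le_mul_of_nonneg_left g1 (by positivity)
    nlinarith
  have hfz : 0 < ‖f z‖ := lt_of_lt_of_le (Real.exp_pos 1) h1
  have h2 : 1 ≤ Real.log ‖ge f (pt t θ)‖ := by
    rw [hge, Real.le_log_iff_exp_le hfz]
    exact h1
  have h3 := one_le_Pdd h2
  have hzn : ‖w‖ ≤ ‖z‖ := by
    have h2' : ‖z‖ = ‖w‖ * Real.exp d := by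
      rw [hz, norm_exp_pt, hd, Real.exp_sub, Real.exp_log hwpos]
      field_simp
    rw [h2']
    have := Real.one_le_exp hdpos.le
    nlinarith
  have h4 : 1 / (10 * d) ≤ ‖ld (ge f) (pt t θ)‖ := by
    rw [ld_ge hf, norm_div, norm_mul, ← hz, le_div_iff₀ hfz]
    calc 1 / (10 * d) * ‖f z‖ ≤ 1 / (10 * d) * (5 / 4 * ‖deriv f w‖ * (4 * ‖w‖ * d)) := by
          apply mul_le_mul_of_nonneg_left _ (by positivity)
          refine hup.trans ?_
          exact mul_le_mul_of_nonneg_left g2 (by positivity)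
      _ = ‖w‖ * (1 / 2 * ‖deriv f w‖) := by field_simp; ring
      _ ≤ ‖z‖ * ‖deriv f z‖ := mul_le_mul hzn hder (by positivity) (by positivity)
  have h5 : 1 / (100 * d ^ 2) ≤ ‖ld (ge f) (pt t θ)‖ ^ 2 := by
    have h6 : 1 / (100 * d ^ 2) = (1 / (10 * d)) ^ 2 := by field_simp; ring
    rw [h6]
    exact pow_le_pow_left₀ (by positivity) h4 2
  nlinarith [sq_nonneg ‖ld (ge f) (pt t θ)‖]

/-- Lower bound for the second derivative of the circle mean by the zeros. -/
theorem zero_term {f : ℂ → ℂ} (hf : Differentiable ℂ f) {J : Finset ℂ} {ρ : ℂ → ℝ}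
    (hJ : ∀ w ∈ J, LocZ f w (ρ w))
    (hdisj : ∀ w ∈ J, ∀ w' ∈ J, w ≠ w' → ∀ z, ‖z - w‖ ≤ ρ w → ‖z - w'‖ ≤ ρ w' → False)
    {t : ℝ} (ht1 : ∀ w ∈ J, dl f w ≤ t - Real.log ‖w‖)
    (ht2 : ∀ w ∈ J, t - Real.log ‖w‖ ≤ dr (ρ w) w) :
    ∑ w ∈ J, 1 / (100 * (t - Real.log ‖w‖)) ≤ mm2 (ge f) t := by
  have hdpos : ∀ w ∈ J, 0 < t - Real.log ‖w‖ := by
    intro w hw
    have hwpos : 0 < ‖w‖ := lt_of_lt_of_le one_pos (hJ w hw).one
    have hDpos : 0 < ‖deriv f w‖ := norm_pos_iff.2 (hJ w hw).nz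
    have hdlpos : 0 < dl f w := by unfold dl; positivity
    exact lt_of_lt_of_le hdlpos (ht1 w hw)
  set F : ℝ → ℝ := fun θ => Pdd (Real.log ‖ge f (pt t θ)‖) * ‖ld (ge f) (pt t θ)‖ ^ 2 with hF
  have hFc : Continuous F := by
    have := (continuous_integrand_mm2 (differentiable_ge hf)).comp (Continuous.prodMk_right t)
    exact this
  have hF0 : ∀ θ, 0 ≤ F θ := fun θ => mul_nonneg (Pdd_nonneg _) (sq_nonneg _)
  have hFI : IntegrableOn F (Ioc (-π) π) := hFc.integrableOn_Ioc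
  have hsub : ∀ w ∈ J, arcW w (t - Real.log ‖w‖) ⊆ Ioc (-π) π := fun w hw =>
    arcW_subset w (((ht2 w hw).trans (hJ w hw).dle).trans (by norm_num))
  have h1 : mm2 (ge f) t = ∫ θ in Ioc (-π) π, F θ := by
    rw [mm2, integral_of_le (by linarith [Real.pi_pos])]
  have h2 : ∫ θ in ⋃ w ∈ J, arcW w (t - Real.log ‖w‖), F θ ≤ ∫ θ in Ioc (-π) π, F θ := by
    apply setIntegral_mono_set hFI
    · exact Eventually.of_forall fun θ => hF0 θ
    · exact (iUnion₂_subset hsub).eventuallyLE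
  have h3 : ∫ θ in ⋃ w ∈ J, arcW w (t - Real.log ‖w‖), F θ =
      ∑ w ∈ J, ∫ θ in arcW w (t - Real.log ‖w‖), F θ := by
    apply integral_biUnion_finset
    · intro w _
      exact measurableSet_arcW _ _
    · intro w hw w' hw' hne
      apply Set.disjoint_left.2
      intro θ h1 h2
      exact hdisj w hw w' hw' hne (Complex.exp (pt t θ))
        (window_bound hf (hJ w hw) (ht1 w hw) (ht2 w hw) (abs_sub_of_mem_arcW h1)).2
        (window_bound hf (hJ w' hw') (ht1 w' hw') (ht2 w' hw') (abs_sub_of_mem_arcW h2)).2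
    · intro w hw
      exact hFI.mono_set (hsub w hw)
  rw [h1]
  refine le_trans ?_ h2
  rw [h3]
  apply Finset.sum_le_sum
  intro w hw
  have hd := hdpos w hw
  have h4 : ∫ _ in arcW w (t - Real.log ‖w‖), 1 / (100 * (t - Real.log ‖w‖) ^ 2) =
      1 / (100 * (t - Real.log ‖w‖)) := by
    rw [setIntegral_const, smul_eq_mul, volume_arcW w hd.le]
    field_simp
  rw [← h4]
  apply setIntegral_mono_on
  · apply (integrableOn_const (by
      exact ((measure_mono (hsub w hw)).trans_lt (by simp)).ne))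
  · exact hFI.mono_set (hsub w hw)
  · exact measurableSet_arcW _ _
  · intro θ hθ
    exact (window_bound hf (hJ w hw) (ht1 w hw) (ht2 w hw) (abs_sub_of_mem_arcW hθ)).1

theorem integral_window {a tw d1 d2 : ℝ} (h1 : 0 < d1) (h2 : d1 ≤ d2) :
    ∫ t in Ioc (tw + d1) (tw + d2), (a * (1 / (t - tw)) - 4) =
      a * Real.log (d2 / d1) - 4 * (d2 - d1) := by
  rw [← integral_of_le (by linarith)]
  have hd : ∀ t ∈ uIcc (tw + d1) (tw + d2),
      HasDerivAt (fun t => a * Real.log (t - tw) - 4 * t) (a * (1 / (t - tw)) - 4) t := by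
    intro t ht
    rw [uIcc_of_le (by linarith)] at ht
    have h3 : 0 < t - tw := by linarith [ht.1]
    have h4 := ((((hasDerivAt_id t).sub_const tw).log h3.ne').const_mul a).sub
      ((hasDerivAt_id t).const_mul 4)
    exact h4.congr_deriv (by simp)
  rw [integral_eq_sub_of_hasDerivAt hd]
  · rw [Real.log_div (by linarith) (by linarith)]
    ring_nf
  · apply ContinuousOn.intervalIntegrable
    rw [uIcc_of_le (by linarith)]
    intro t ht
    have h3 : t - tw ≠ 0 := by
      have := ht.1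
      intro h
      linarith
    exact ((continuousAt_const.mul (continuousAt_const.div
      (continuousAt_id.sub continuousAt_const) h3)).sub continuousAt_const).continuousWithinAt

/-- Summed estimate over finitely many large zeros. -/
theorem zero_sum {f : ℂ → ℂ} (hf : Differentiable ℂ f) {T0 C M : ℝ} (hC : 0 < C)
    (hmm : ∀ t ≥ T0, 0 < mm1 (ge f) t ∧ mm1 (ge f) t ≤ C * Real.exp (2 * t))
    (hM : ∀ T ≥ T0, ∀ h : ℝ → ℝ, IntegrableOn h (Ioc T0 T) →
        (∀ t ∈ Ioc T0 T, h t ≤ 0 ∨ h t ≤ mm2 (ge f) t / mm1 (ge f) t - 4) →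
        ∫ t in Ioc T0 T, h t ≤ M)
    {J : Finset ℂ} {ρ : ℂ → ℝ}
    (hJ : ∀ w ∈ J, LocZ f w (ρ w))
    (hdisj : ∀ w ∈ J, ∀ w' ∈ J, w ≠ w' → ∀ z, ‖z - w‖ ≤ ρ w → ‖z - w'‖ ≤ ρ w' → False)
    (hbig : ∀ w ∈ J, T0 ≤ Real.log ‖w‖) :
    ∑ w ∈ J, (1 / (100 * C * Real.exp 2 * ‖w‖ ^ 2) * Real.log (dr (ρ w) w / dl f w)
      - 4 * (dr (ρ w) w - dl f w)) ≤ M := by
  have hdl : ∀ w ∈ J, 0 < dl f w := by
    intro w hw
    have hwpos : 0 < ‖w‖ := lt_of_lt_of_le one_pos (hJ w hw).one
    have hDpos : 0 < ‖deriv f w‖ := norm_pos_iff.2 (hJ w hw).nz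
    unfold dl; positivity
  obtain ⟨T, hT⟩ := (insert T0 (J.image (fun w => Real.log ‖w‖ + dr (ρ w) w))).exists_le
  have hT0 : T0 ≤ T := hT T0 (Finset.mem_insert_self _ _)
  have hTw : ∀ w ∈ J, Real.log ‖w‖ + dr (ρ w) w ≤ T := fun w hw =>
    hT _ (Finset.mem_insert_of_mem (Finset.mem_image_of_mem _ hw))
  set a : ℂ → ℝ := fun w => 1 / (100 * C * Real.exp 2 * ‖w‖ ^ 2) with ha
  set W : ℂ → Set ℝ := fun w => Ioc (Real.log ‖w‖ + dl f w) (Real.log ‖w‖ + dr (ρ w) w) with hW
  set q : ℂ → ℝ → ℝ := fun w t => a w * (1 / (t - Real.log ‖w‖)) - 4 with hq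
  have hWsub : ∀ w ∈ J, W w ⊆ Ioc T0 T := by
    intro w hw t ht
    have h1 := hdl w hw
    have h2 := hTw w hw
    have h3 := hbig w hw
    exact ⟨by linarith [ht.1], by linarith [ht.2]⟩
  have hqint : ∀ w ∈ J, IntegrableOn (q w) (W w) := by
    intro w hw
    have h1 : ContinuousOn (q w) (Icc (Real.log ‖w‖ + dl f w) (Real.log ‖w‖ + dr (ρ w) w)) := by
      intro t ht
      have h3 : t - Real.log ‖w‖ ≠ 0 := by
        have := ht.1
        have := hdl w hw
        intro h
        linarith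
      exact ((continuousAt_const.mul (continuousAt_const.div
        (continuousAt_id.sub continuousAt_const) h3)).sub continuousAt_const).continuousWithinAt
    exact (h1.integrableOn_Icc).mono_set Ioc_subset_Icc_self
  have hind : ∀ w ∈ J, IntegrableOn ((W w).indicator (q w)) (Ioc T0 T) := by
    intro w hw
    have h1 : Integrable ((W w).indicator (q w)) :=
      (hqint w hw).integrable_indicator measurableSet_Ioc
    exact h1.integrableOn
  have key := hM T hT0 (fun t => ∑ w ∈ J, (W w).indicator (q w) t) (by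
    exact integrable_finset_sum _ hind) (by
    intro t ht
    by_cases hex : ∃ w ∈ J, t ∈ W w
    · right
      obtain ⟨w0, hw0, hw0t⟩ := hex
      classical
      set J' := J.filter (fun w => t ∈ W w) with hJ'
      have hsum : ∑ w ∈ J, (W w).indicator (q w) t = ∑ w ∈ J', q w t := by
        rw [hJ', Finset.sum_filter]
        apply Finset.sum_congr rfl
        intro w _
        rw [Set.indicator_apply]
      have hz := zero_term hf (J := J') (ρ := ρ) (t := t)
        (fun w hw => hJ w (Finset.mem_filter.1 hw).1)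
        (fun w hw w' hw' => hdisj w (Finset.mem_filter.1 hw).1 w' (Finset.mem_filter.1 hw').1)
        (fun w hw => by have := (Finset.mem_filter.1 hw).2.1; linarith)
        (fun w hw => by have := (Finset.mem_filter.1 hw).2.2; linarith)
      obtain ⟨hm0, hm1⟩ := hmm t ht.1.le
      have hcard : (1 : ℝ) ≤ J'.card := by
        have : 0 < J'.card := Finset.card_pos.2 ⟨w0, Finset.mem_filter.2 ⟨hw0, hw0t⟩⟩
        exact_mod_cast this
      have hterm : ∀ w ∈ J', a w * (1 / (t - Real.log ‖w‖)) ≤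
          (1 / (100 * (t - Real.log ‖w‖))) / mm1 (ge f) t := by
        intro w hw
        have hwJ := (Finset.mem_filter.1 hw).1
        have hwt := (Finset.mem_filter.1 hw).2
        have hwpos : 0 < ‖w‖ := lt_of_lt_of_le one_pos (hJ w hwJ).one
        have h1 : 0 < t - Real.log ‖w‖ := by
          have := hwt.1
          have := hdl w hwJ
          linarith
        have h2 : t - Real.log ‖w‖ ≤ 1 := by
          have := hwt.2
          have := (hJ w hwJ).dle
          linarith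
        have h3 : mm1 (ge f) t ≤ C * Real.exp 2 * ‖w‖ ^ 2 := by
          refine hm1.trans ?_
          rw [mul_assoc]
          apply mul_le_mul_of_nonneg_left _ hC.le
          have h4 : ‖w‖ ^ 2 = Real.exp (2 * Real.log ‖w‖) := by
            rw [two_mul, Real.exp_add, Real.exp_log hwpos, sq]
          rw [h4, ← Real.exp_add]
          exact Real.exp_le_exp.2 (by linarith)
        have h5 : a w = 1 / (100 * (C * Real.exp 2 * ‖w‖ ^ 2)) := by
          simp only [ha]; ring_nf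
        rw [h5, div_mul_div_comm, one_mul, div_div]
        apply one_div_le_one_div_of_le (by positivity)
        have h6 : 0 ≤ 100 * (t - Real.log ‖w‖) := by positivity
        nlinarith [mul_le_mul_of_nonneg_left h3 h6]
      show ∑ w ∈ J, (W w).indicator (q w) t ≤ _
      rw [hsum]
      have h7 : ∑ w ∈ J', q w t = ∑ w ∈ J', a w * (1 / (t - Real.log ‖w‖)) - 4 * J'.card := by
        simp only [hq]
        rw [Finset.sum_sub_distrib, Finset.sum_const, nsmul_eq_mul]
        ring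
      rw [h7]
      have h8 := Finset.sum_le_sum hterm
      rw [← Finset.sum_div] at h8
      have h9 := div_le_div_of_nonneg_right hz hm0.le
      linarith
    · left
      push Not at hex
      have : ∑ w ∈ J, (W w).indicator (q w) t = 0 := by
        apply Finset.sum_eq_zero
        intro w hw
        rw [Set.indicator_of_notMem (hex w hw)]
      exact this.le)
  have hfin : ∫ t in Ioc T0 T, ∑ w ∈ J, (W w).indicator (q w) t =
      ∑ w ∈ J, (a w * Real.log (dr (ρ w) w / dl f w) - 4 * (dr (ρ w) w - dl f w)) := by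
    rw [integral_finset_sum _ hind]
    apply Finset.sum_congr rfl
    intro w hw
    rw [setIntegral_indicator measurableSet_Ioc, inter_eq_self_of_subset_right (hWsub w hw)]
    exact integral_window (hdl w hw) (hJ w hw).dlt.le
  rw [hfin] at key
  exact key

end Pool.Agent.H83
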