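import Mathlib

set_option autoImplicit false

open Complex Filter Set Bornology Asymptotics Metric
open scoped Topology

namespace Pool.Agent.H83

/-- Maximum principle on a disc. -/
theorem norm_le_of_sphere {f : ℂ → ℂ} (hf : Differentiable ℂ f) {c : ℂ} {R C : ℝ} (hR : 0 < R)
    (h : ∀ z, ‖z - c‖ = R → ‖f z‖ ≤ C) {z : ℂ} (hz : ‖z - c‖ ≤ R) : ‖f z‖ ≤ C := by
  refine Complex.norm_le_of_forall_mem_frontier_norm_le (U := ball c R) isBounded_ball
    hf.diffContOnCl ?_ ?_
  · intro w hw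
    rw [frontier_ball c hR.ne', mem_sphere, dist_eq_norm] at hw
    exact h w hw
  · rw [closure_ball c hR.ne', mem_closedBall, dist_eq_norm]
    exact hz

theorem differentiable_dslope {f : ℂ → ℂ} (hf : Differentiable ℂ f) (w : ℂ) :
    Differentiable ℂ (dslope f w) := by
  rw [← differentiableOn_univ]
  exact (Complex.differentiableOn_dslope (by simp)).2 hf.differentiableOn

theorem eq_mul_dslope {f : ℂ → ℂ} {w : ℂ} (hw : f w = 0) (z : ℂ) :
    f z = (z - w) * dslope f w z := by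
  have := sub_smul_dslope f w z
  rw [smul_eq_mul, hw, sub_zero] at this
  exact this.symm

/-- Dividing out finitely many simple zeros. -/
theorem exists_factor {L : ℂ → ℂ} (hL : Differentiable ℂ L) (hs : ∀ z, L z = 0 → deriv L z ≠ 0)
    (T : Finset ℂ) (hT : ∀ w ∈ T, L w = 0) :
    ∃ G : ℂ → ℂ, Differentiable ℂ G ∧ (∀ z, L z = (∏ w ∈ T, (z - w)) * G z) ∧
      (∀ z, G z = 0 ↔ (L z = 0 ∧ z ∉ T)) ∧ (∀ z, G z = 0 → deriv G z ≠ 0) := by
  classical
  induction T using Finset.induction_on with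
  | empty => exact ⟨L, hL, by simp, by simp, hs⟩
  | insert w T hw ih =>
    obtain ⟨G, hG, hLG, hzero, hsimple⟩ := ih (fun v hv => hT v (Finset.mem_insert_of_mem hv))
    have hLw : L w = 0 := hT w (Finset.mem_insert_self _ _)
    have hGw : G w = 0 := (hzero w).2 ⟨hLw, hw⟩
    have hfac : ∀ z, G z = (z - w) * dslope G w z := eq_mul_dslope hGw
    have hdd := differentiable_dslope hG w
    have hww : dslope G w w ≠ 0 := by
      rw [dslope_same]; exact hsimple w hGw
    have hz1 : ∀ z, dslope G w z = 0 ↔ (L z = 0 ∧ z ∉ insert w T) := by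
      intro z
      constructor
      · intro h
        have hzw : z ≠ w := by
          rintro rfl; exact hww h
        have : G z = 0 := by rw [hfac z, h, mul_zero]
        have h2 := (hzero z).1 this
        refine ⟨h2.1, ?_⟩
        simp only [Finset.mem_insert, not_or]
        exact ⟨hzw, h2.2⟩
      · rintro ⟨h1, h2⟩
        simp only [Finset.mem_insert, not_or] at h2
        have : G z = 0 := (hzero z).2 ⟨h1, h2.2⟩
        rw [hfac z] at this
        rcases mul_eq_zero.1 this with h3 | h3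
        · exact absurd (sub_eq_zero.1 h3) h2.1
        · exact h3
    refine ⟨dslope G w, hdd, ?_, hz1, ?_⟩
    · intro z
      rw [hLG z, Finset.prod_insert hw, hfac z]
      ring
    · intro z hz
      have hzw : z ≠ w := by
        rintro rfl; exact hww hz
      have hGz : G z = 0 := by rw [hfac z, hz, mul_zero]
      have hne := hsimple z hGz
      have hder : deriv G z = dslope G w z + (z - w) * deriv (dslope G w) z := by
        have h1 : HasDerivAt (fun z => (z - w) * dslope G w z)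
            (1 * dslope G w z + (z - w) * deriv (dslope G w) z) z :=
          ((hasDerivAt_id z).sub_const w).mul (hdd z).hasDerivAt
        have h2 : (fun z => (z - w) * dslope G w z) = G := (funext hfac).symm
        rw [h2] at h1
        rw [h1.deriv, one_mul]
      intro h0
      rw [hder, hz, h0] at hne
      simp at hne

/-- Zeros in a disc are finite in number. -/
theorem zeros_finite {L : ℂ → ℂ} (hL : Differentiable ℂ L) (hs : ∀ z, L z = 0 → deriv L z ≠ 0)
    (R : ℝ) : {w : ℂ | L w = 0 ∧ ‖w‖ ≤ R}.Finite := by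
  by_contra hinf
  have hinf' : {w : ℂ | L w = 0 ∧ ‖w‖ ≤ R}.Infinite := hinf
  obtain ⟨x, hx, hacc⟩ := hinf'.exists_accPt_of_subset_isCompact (isCompact_closedBall (0 : ℂ) R)
    (fun w hw => by simpa using hw.2)
  rw [accPt_iff_frequently] at hacc
  have hLx : L x = 0 := by
    by_contra hne
    have : ∀ᶠ y in 𝓝 x, L y ≠ 0 := hL.continuous.continuousAt.eventually_ne hne
    obtain ⟨y, hy1, hy2⟩ := (hacc.and_eventually this).exists
    exact hy2 hy1.2.1
  have h1 : ∀ᶠ y in 𝓝[≠] x, L y ≠ L x := (hL x).hasDerivAt.eventually_ne (hs x hLx)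
  rw [eventually_nhdsWithin_iff] at h1
  obtain ⟨y, hy1, hy2⟩ := (hacc.and_eventually h1).exists
  exact hy2 hy1.1 (by rw [hLx]; exact hy1.2.1)

/-- Holomorphic logarithm on a disc. -/
theorem exists_log_ball {f : ℂ → ℂ} {R : ℝ} (hR : 0 < R) (hf : DifferentiableOn ℂ f (ball 0 R))
    (h0 : ∀ z ∈ ball (0 : ℂ) R, f z ≠ 0) :
    ∃ g : ℂ → ℂ, DifferentiableOn ℂ g (ball 0 R) ∧ g 0 = 0 ∧
      ∀ z ∈ ball (0 : ℂ) R, f z = f 0 * Complex.exp (g z) := by
  have hdf : DifferentiableOn ℂ (deriv f) (ball 0 R) := hf.deriv isOpen_ball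
  have hq : DifferentiableOn ℂ (fun z => deriv f z / f z) (ball 0 R) := hdf.div hf h0
  obtain ⟨g, hg0, hg⟩ := (hq.isExactOn_ball).with_val_at 0 0
  have hgd : DifferentiableOn ℂ g (ball 0 R) :=
    fun z hz => (hg z hz).differentiableAt.differentiableWithinAt
  refine ⟨g, hgd, hg0, ?_⟩
  have hder : ∀ z ∈ ball (0 : ℂ) R,
      HasDerivAt (fun z => f z * Complex.exp (-(g z))) 0 z := by
    intro z hz
    have h1 : HasDerivAt f (deriv f z) z :=
      (hf.differentiableAt (isOpen_ball.mem_nhds hz)).hasDerivAt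
    have h2 := h1.mul ((hg z hz).neg.cexp)
    have h3 : deriv f z * Complex.exp (-(g z)) +
        f z * (Complex.exp (-(g z)) * -(deriv f z / f z)) = 0 := by
      have h4 : f z * (deriv f z / f z) = deriv f z := mul_div_cancel₀ _ (h0 z hz)
      linear_combination (-Complex.exp (-(g z))) * h4
    exact h2.congr_deriv h3
  intro z hz
  have h0mem : (0 : ℂ) ∈ ball (0 : ℂ) R := by simpa using hR
  have hconst : f z * Complex.exp (-(g z)) = f 0 * Complex.exp (-(g 0)) := by
    have := (isOpen_ball (x := (0 : ℂ)) (ε := R)).is_const_of_deriv_eq_zero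
      (convex_ball (0 : ℂ) R).isPreconnected
      (fun w hw => ((hder w hw).differentiableAt.differentiableWithinAt))
      (fun w hw => (hder w hw).deriv) hz h0mem
    exact this
  rw [hg0] at hconst
  simp only [neg_zero, Complex.exp_zero, mul_one] at hconst
  rw [← hconst, mul_assoc, ← Complex.exp_add]
  simp

/-- A function with only simple zeros has a nonzero value. -/
theorem exists_ne_zero {L : ℂ → ℂ} (hs : ∀ z, L z = 0 → deriv L z ≠ 0) : ∃ z, L z ≠ 0 := by
  by_contra h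
  push Not at h
  have : L = fun _ => 0 := funext h
  have h1 := hs 0 (h 0)
  rw [this] at h1
  simp at h1

/-- Lower bound for a product of linear factors. -/
theorem prod_norm_ge {T : Finset ℂ} {r ρ : ℝ} (hT : ∀ w ∈ T, ‖w‖ ≤ r) {z : ℂ} (hρ : 0 ≤ ρ)
    (hz : r + ρ ≤ ‖z‖) : ρ ^ T.card ≤ ‖∏ w ∈ T, (z - w)‖ := by
  rw [norm_prod, ← Finset.prod_const]
  refine Finset.prod_le_prod (fun _ _ => hρ) (fun w hw => ?_)
  have h1 := hT w hw
  have h2 := norm_sub_norm_le z w
  linarith

theorem prod_norm_zero_le {T : Finset ℂ} {r : ℝ} (hT : ∀ w ∈ T, ‖w‖ ≤ r) :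
    ‖∏ w ∈ T, ((0 : ℂ) - w)‖ ≤ r ^ T.card := by
  rw [norm_prod, ← Finset.prod_const]
  refine Finset.prod_le_prod (fun _ _ => norm_nonneg _) (fun w hw => ?_)
  simpa using hT w hw

/-- Counting zeros (centre `0`). -/
theorem count_zero {L : ℂ → ℂ} (hL : Differentiable ℂ L) (hs : ∀ z, L z = 0 → deriv L z ≠ 0)
    {A B : ℝ} (hAB : ∀ z, ‖L z‖ ≤ A * Real.exp (B * ‖z‖)) (h0 : L 0 ≠ 0)
    {r : ℝ} (hr : 0 < r) (T : Finset ℂ) (hT : ∀ w ∈ T, L w = 0 ∧ ‖w‖ ≤ r) :
    (T.card : ℝ) * Real.log 3 ≤ Real.log (A / ‖L 0‖) + 4 * B * r := by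
  obtain ⟨G, hG, hLG, -, -⟩ := exists_factor hL hs T (fun w hw => (hT w hw).1)
  have hn0 : 0 < ‖L 0‖ := norm_pos_iff.2 h0
  have hA : 0 < A := by
    have := hAB 0
    simp only [norm_zero, mul_zero, Real.exp_zero, mul_one] at this
    linarith
  have hGb : ∀ z, ‖z - 0‖ = 4 * r → ‖G z‖ ≤ A * Real.exp (4 * B * r) / (3 * r) ^ T.card := by
    intro z hz
    rw [sub_zero] at hz
    have h1 : (3 * r) ^ T.card ≤ ‖∏ w ∈ T, (z - w)‖ :=
      prod_norm_ge (fun w hw => (hT w hw).2) (by positivity) (by rw [hz]; linarith)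
    rw [le_div_iff₀ (by positivity)]
    calc ‖G z‖ * (3 * r) ^ T.card ≤ ‖G z‖ * ‖∏ w ∈ T, (z - w)‖ := by gcongr
      _ = ‖L z‖ := by rw [hLG z, norm_mul, mul_comm]
      _ ≤ A * Real.exp (B * ‖z‖) := hAB z
      _ = A * Real.exp (4 * B * r) := by rw [hz]; ring_nf
  have hG0 := norm_le_of_sphere hG (c := 0) (R := 4 * r) (by positivity) hGb (z := 0)
    (by simp; positivity)
  have h2 : ‖L 0‖ ≤ r ^ T.card * ‖G 0‖ := by
    rw [hLG 0, norm_mul]
    gcongr
    exact prod_norm_zero_le (fun w hw => (hT w hw).2)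
  have h3 : ‖L 0‖ * 3 ^ T.card ≤ A * Real.exp (4 * B * r) := by
    calc ‖L 0‖ * 3 ^ T.card ≤ (r ^ T.card * ‖G 0‖) * 3 ^ T.card := by gcongr
      _ ≤ (r ^ T.card * (A * Real.exp (4 * B * r) / (3 * r) ^ T.card)) * 3 ^ T.card := by gcongr
      _ = A * Real.exp (4 * B * r) := by
          rw [mul_pow]; field_simp
  have h4 := Real.log_le_log (by positivity) h3
  rw [Real.log_mul (by positivity) (by positivity), Real.log_mul (by positivity) (by positivity),
    Real.log_pow, Real.log_exp] at h4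
  rw [Real.log_div hA.ne' hn0.ne']
  linarith

/-- Counting zeros: linear growth. -/
theorem count_linear {L : ℂ → ℂ} (hL : Differentiable ℂ L) (hs : ∀ z, L z = 0 → deriv L z ≠ 0)
    {A B : ℝ} (hB : 0 ≤ B) (hAB : ∀ z, ‖L z‖ ≤ A * Real.exp (B * ‖z‖)) :
    ∃ C : ℝ, 0 < C ∧ ∀ r : ℝ, 0 ≤ r → ∀ T : Finset ℂ, (∀ w ∈ T, L w = 0 ∧ ‖w‖ ≤ r) →
      (T.card : ℝ) ≤ C * (r + 1) := by
  classical
  obtain ⟨z₀, hz₀⟩ := exists_ne_zero hs
  set K : ℂ → ℂ := fun z => L (z + z₀) with hK
  have hKd : Differentiable ℂ K := hL.comp (differentiable_id.add_const z₀)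
  have hder : ∀ z, deriv K z = deriv L (z + z₀) := by
    intro z
    have h1 : HasDerivAt K (deriv L (z + z₀) * 1) z :=
      (hL (z + z₀)).hasDerivAt.comp z ((hasDerivAt_id z).add_const z₀)
    rw [h1.deriv, mul_one]
  have hKs : ∀ z, K z = 0 → deriv K z ≠ 0 := by
    intro z hz
    rw [hder]
    exact hs _ hz
  have hA : 0 ≤ A := by
    have := (norm_nonneg _).trans (hAB 0)
    simpa using this
  have hKb : ∀ z, ‖K z‖ ≤ (A * Real.exp (B * ‖z₀‖)) * Real.exp (B * ‖z‖) := by
    intro z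
    calc ‖K z‖ ≤ A * Real.exp (B * ‖z + z₀‖) := hAB _
      _ ≤ A * Real.exp (B * (‖z‖ + ‖z₀‖)) := by
          gcongr
          exact norm_add_le _ _
      _ = _ := by rw [mul_add, Real.exp_add]; ring
  have hK0 : K 0 ≠ 0 := by simpa [hK] using hz₀
  set D : ℝ := |Real.log (A * Real.exp (B * ‖z₀‖) / ‖K 0‖)| with hD
  have hlog3 : 0 < Real.log 3 := Real.log_pos (by norm_num)
  refine ⟨(D + 4 * B * (‖z₀‖ + 1) + 4 * B + 1) / Real.log 3, by positivity, ?_⟩
  intro r hr T hT
  have hinj : Function.Injective (fun w : ℂ => w - z₀) := sub_left_injective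
  have hcard := count_zero hKd hKs hKb hK0 (r := r + ‖z₀‖ + 1) (by positivity)
    (T.image (fun w => w - z₀)) (by
      intro v hv
      obtain ⟨w, hw, rfl⟩ := Finset.mem_image.1 hv
      refine ⟨by simpa [hK] using (hT w hw).1, ?_⟩
      have := norm_sub_le w z₀
      have := (hT w hw).2
      linarith)
  rw [Finset.card_image_of_injective _ hinj] at hcard
  have h5 : Real.log (A * Real.exp (B * ‖z₀‖) / ‖K 0‖) ≤ D := le_abs_self _
  have hD0 : 0 ≤ D := abs_nonneg _
  rw [div_mul_eq_mul_div, le_div_iff₀ hlog3]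
  have h6 : 0 ≤ ‖z₀‖ := norm_nonneg _
  nlinarith [mul_nonneg hB hr, mul_nonneg hB h6, mul_nonneg (mul_nonneg hB h6) hr,
    mul_nonneg hD0 hr]

end Pool.Agent.H83
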