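import Mathlib
import Pool.Agent.H83.Zeros

set_option autoImplicit false

open Complex Filter Set Bornology Asymptotics Metric
open scoped Topology

namespace Pool.Agent.H83

/-- Exponential sums over the zeros converge. -/
theorem summable_exp_neg {L : ℂ → ℂ} (hL : Differentiable ℂ L)
    (hs : ∀ z, L z = 0 → deriv L z ≠ 0)
    {A B : ℝ} (hB : 0 ≤ B) (hAB : ∀ z, ‖L z‖ ≤ A * Real.exp (B * ‖z‖)) {δ : ℝ} (hδ : 0 < δ) :
    Summable (fun w : {w : ℂ // L w = 0} => Real.exp (-δ * ‖(w : ℂ)‖)) := by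
  classical
  obtain ⟨C, hC, hcount⟩ := count_linear hL hs hB hAB
  -- the comparison series
  have hser : Summable (fun n : ℕ => C * ((n : ℝ) + 2) * Real.exp (-δ * n)) := by
    have hx : ‖Real.exp (-δ)‖ < 1 := by
      rw [Real.norm_eq_abs, Real.abs_exp]
      exact Real.exp_lt_one_iff.2 (by linarith)
    have h1 := summable_pow_mul_geometric_of_norm_lt_one (R := ℝ) 1 hx
    have h2 := summable_geometric_of_norm_lt_one hx
    have h3 := ((h1.add (h2.mul_left 2)).mul_left C)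
    refine h3.congr (fun n => ?_)
    have : Real.exp (-δ * n) = Real.exp (-δ) ^ n := by
      rw [← Real.exp_nat_mul]; ring_nf
    rw [this]; ring
  have hnn : ∀ n : ℕ, 0 ≤ C * ((n : ℝ) + 2) * Real.exp (-δ * n) := fun n => by positivity
  refine summable_of_sum_le (c := ∑' n : ℕ, C * ((n : ℝ) + 2) * Real.exp (-δ * n))
    (fun w => (Real.exp_pos _).le) (fun u => ?_)
  set N : {w : ℂ // L w = 0} → ℕ := fun w => ⌊‖(w : ℂ)‖⌋₊ with hN
  calc ∑ w ∈ u, Real.exp (-δ * ‖(w : ℂ)‖)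
      = ∑ n ∈ u.image N, ∑ w ∈ u with N w = n, Real.exp (-δ * ‖(w : ℂ)‖) := by
        rw [Finset.sum_fiberwise_of_maps_to (fun w hw => Finset.mem_image_of_mem N hw)]
    _ ≤ ∑ n ∈ u.image N, C * ((n : ℝ) + 2) * Real.exp (-δ * n) := by
        refine Finset.sum_le_sum (fun n _ => ?_)
        have hle : ∀ w ∈ u.filter (fun w => N w = n),
            Real.exp (-δ * ‖(w : ℂ)‖) ≤ Real.exp (-δ * n) := by
          intro w hw
          have h1 : N w = n := (Finset.mem_filter.1 hw).2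
          have h2 : (n : ℝ) ≤ ‖(w : ℂ)‖ := by
            rw [← h1]; exact Nat.floor_le (norm_nonneg _)
          apply Real.exp_le_exp.2
          nlinarith
        refine (Finset.sum_le_card_nsmul _ _ _ hle).trans ?_
        rw [nsmul_eq_mul]
        gcongr
        have hT := hcount ((n : ℝ) + 1) (by positivity)
          ((u.filter (fun w => N w = n)).map (Function.Embedding.subtype _)) (by
            intro v hv
            obtain ⟨w, hw, rfl⟩ := Finset.mem_map.1 hv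
            refine ⟨w.2, ?_⟩
            have h1 : N w = n := (Finset.mem_filter.1 hw).2
            rw [← h1]
            exact (Nat.lt_floor_add_one _).le)
        rw [Finset.card_map] at hT
        linarith
    _ ≤ ∑' n : ℕ, C * ((n : ℝ) + 2) * Real.exp (-δ * n) :=
        hser.sum_le_tsum _ (fun n _ => hnn n)

/-- Growth of an entire quotient, centre `0`. -/
theorem quotient_growth_zero {L G E : ℂ → ℂ} (hL : Differentiable ℂ L) (hE : Differentiable ℂ E)
    (hs : ∀ z, L z = 0 → deriv L z ≠ 0) (hGE : ∀ z, G z = L z * E z)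
    {A B : ℝ} (hB : 0 ≤ B) (hLb : ∀ z, ‖L z‖ ≤ A * Real.exp (B * ‖z‖))
    (hGb : ∀ z, ‖G z‖ ≤ A * Real.exp (B * ‖z‖)) (h0 : L 0 ≠ 0) (z : ℂ) :
    ‖E z‖ ≤ (A / ‖L 0‖) ^ 3 * Real.exp (12 * B * (‖z‖ + 1) + 3) := by
  classical
  have hn0 : 0 < ‖L 0‖ := norm_pos_iff.2 h0
  have hAL : ‖L 0‖ ≤ A := by
    have := hLb 0
    simpa using this
  have hA : 0 < A := hn0.trans_le hAL
  set r : ℝ := ‖z‖ + 1 with hr
  have hrpos : 0 < r := by positivity
  set R : ℝ := 2 * r with hR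
  have hRpos : 0 < R := by positivity
  have hfin := zeros_finite hL hs R
  set T : Finset ℂ := hfin.toFinset with hTdef
  have hTmem : ∀ w, w ∈ T ↔ (L w = 0 ∧ ‖w‖ ≤ R) := by
    intro w; rw [hTdef, Set.Finite.mem_toFinset]; rfl
  obtain ⟨F, hF, hLF, hFz, -⟩ := exists_factor hL hs T (fun w hw => ((hTmem w).1 hw).1)
  set Q : ℝ := A * Real.exp (2 * B * R) / R ^ T.card with hQ
  have hQpos : 0 < Q := by positivity
  have hprod : ∀ ζ : ℂ, ‖ζ - 0‖ = 2 * R → R ^ T.card ≤ ‖∏ w ∈ T, (ζ - w)‖ := by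
    intro ζ hζ
    rw [sub_zero] at hζ
    exact prod_norm_ge (fun w hw => ((hTmem w).1 hw).2) hRpos.le (by rw [hζ]; linarith)
  have hFb : ∀ ζ : ℂ, ‖ζ - 0‖ ≤ 2 * R → ‖F ζ‖ ≤ Q := by
    intro ζ hζ
    refine norm_le_of_sphere hF (c := 0) (R := 2 * R) (by positivity) ?_ hζ
    intro η hη
    rw [hQ, le_div_iff₀ (by positivity)]
    calc ‖F η‖ * R ^ T.card ≤ ‖F η‖ * ‖∏ w ∈ T, (η - w)‖ := by
          gcongr
          exact hprod η hη
      _ = ‖L η‖ := by rw [hLF η, norm_mul, mul_comm]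
      _ ≤ A * Real.exp (B * ‖η‖) := hLb η
      _ = A * Real.exp (2 * B * R) := by
          rw [sub_zero] at hη
          rw [hη]; ring_nf
  have hHb : ∀ ζ : ℂ, ‖ζ - 0‖ ≤ 2 * R → ‖F ζ * E ζ‖ ≤ Q := by
    intro ζ hζ
    refine norm_le_of_sphere (hF.mul hE) (c := 0) (R := 2 * R) (by positivity) ?_ hζ
    intro η hη
    rw [hQ, le_div_iff₀ (by positivity)]
    calc ‖(F * E) η‖ * R ^ T.card ≤ ‖F η * E η‖ * ‖∏ w ∈ T, (η - w)‖ := by
          simp only [Pi.mul_apply]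
          gcongr
          exact hprod η hη
      _ = ‖G η‖ := by rw [hGE η, hLF η, norm_mul, norm_mul, norm_mul]; ring
      _ ≤ A * Real.exp (B * ‖η‖) := hGb η
      _ = A * Real.exp (2 * B * R) := by
          rw [sub_zero] at hη
          rw [hη]; ring_nf
  have hF0 : ‖L 0‖ ≤ R ^ T.card * ‖F 0‖ := by
    rw [hLF 0, norm_mul]
    gcongr
    exact prod_norm_zero_le (fun w hw => ((hTmem w).1 hw).2)
  have hF0pos : 0 < ‖F 0‖ := by
    by_contra h
    have : ‖F 0‖ = 0 := le_antisymm (not_lt.1 h) (norm_nonneg _)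
    rw [this, mul_zero] at hF0
    linarith
  have hFne : ∀ ζ ∈ ball (0 : ℂ) R, F ζ ≠ 0 := by
    intro ζ hζ hz0
    have h1 := (hFz ζ).1 hz0
    have h2 : ‖ζ‖ < R := by simpa using hζ
    exact h1.2 ((hTmem ζ).2 ⟨h1.1, h2.le⟩)
  obtain ⟨g, hg, hg0, hgexp⟩ := exists_log_ball hRpos hF.differentiableOn hFne
  set M : ℝ := Real.log (A / ‖L 0‖) + 2 * B * R + 1 with hM
  have hlogA : 0 ≤ Real.log (A / ‖L 0‖) := Real.log_nonneg (by rwa [one_le_div hn0])
  have hMpos : 0 < M := by positivity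
  have hexpM : Real.exp M = (A / ‖L 0‖) * Real.exp (2 * B * R) * Real.exp 1 := by
    rw [hM, Real.exp_add, Real.exp_add, Real.exp_log (by positivity)]
  have hQM : Q / ‖F 0‖ ≤ Real.exp M := by
    rw [div_le_iff₀ hF0pos, hexpM, hQ, div_le_iff₀ (by positivity)]
    have h1 : 1 ≤ Real.exp 1 := Real.one_le_exp zero_le_one
    calc A * Real.exp (2 * B * R) = (A * Real.exp (2 * B * R)) * (‖L 0‖ / ‖L 0‖) := by
          rw [div_self hn0.ne', mul_one]
      _ ≤ (A * Real.exp (2 * B * R)) * ((R ^ T.card * ‖F 0‖) / ‖L 0‖) := by gcongr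
      _ ≤ (A * Real.exp (2 * B * R)) * ((R ^ T.card * ‖F 0‖) / ‖L 0‖) * Real.exp 1 :=
          le_mul_of_one_le_right (by positivity) h1
      _ = _ := by ring
  have hre : MapsTo g (ball 0 R) {z | z.re ≤ M} := by
    intro ζ hζ
    have h1 : ‖F ζ‖ ≤ Q := hFb ζ (by
      have : ‖ζ‖ < R := by simpa using hζ
      rw [sub_zero]; linarith)
    rw [hgexp ζ hζ, norm_mul, Complex.norm_exp] at h1
    have h2 : Real.exp (g ζ).re ≤ Real.exp M := by
      refine le_trans ?_ hQM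
      rw [le_div_iff₀ hF0pos, mul_comm]
      exact h1
    exact Real.exp_le_exp.1 h2
  have hzR : z ∈ ball (0 : ℂ) R := by
    simp only [mem_ball, dist_zero_right]
    rw [hR, hr]; linarith [norm_nonneg z]
  have hbc := Complex.borelCaratheodory_zero hMpos hg hre hRpos hzR hg0
  have hgz : ‖g z‖ ≤ 2 * M := by
    refine hbc.trans ?_
    rw [div_le_iff₀ (by rw [hR, hr]; linarith [norm_nonneg z])]
    have : ‖z‖ ≤ R - ‖z‖ := by rw [hR, hr]; linarith
    nlinarith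
  have hFz_low : ‖F 0‖ * Real.exp (-(2 * M)) ≤ ‖F z‖ := by
    rw [hgexp z hzR, norm_mul, Complex.norm_exp]
    gcongr
    have := Complex.abs_re_le_norm (g z)
    have := neg_abs_le (g z).re
    linarith
  have hHz := hHb z (by rw [sub_zero, hR, hr]; linarith [norm_nonneg z])
  rw [norm_mul] at hHz
  have hE1 : ‖E z‖ ≤ (Q / ‖F 0‖) * Real.exp (2 * M) := by
    have h1 : ‖F 0‖ * Real.exp (-(2 * M)) * ‖E z‖ ≤ Q := by
      refine le_trans ?_ hHz
      gcongr
    have h2 : Real.exp (-(2 * M)) * Real.exp (2 * M) = 1 := by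
      rw [← Real.exp_add]; simp
    rw [div_mul_eq_mul_div, le_div_iff₀ hF0pos]
    calc ‖E z‖ * ‖F 0‖ = (‖F 0‖ * Real.exp (-(2 * M)) * ‖E z‖) * Real.exp (2 * M) := by
          linear_combination (-(‖E z‖ * ‖F 0‖)) * h2
      _ ≤ Q * Real.exp (2 * M) := by gcongr
  have hE2 : ‖E z‖ ≤ Real.exp (3 * M) := by
    calc ‖E z‖ ≤ (Q / ‖F 0‖) * Real.exp (2 * M) := hE1
      _ ≤ Real.exp M * Real.exp (2 * M) := by gcongr
      _ = Real.exp (3 * M) := by rw [← Real.exp_add]; ring_nf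
  refine hE2.trans (le_of_eq ?_)
  have h5 : Real.exp (Real.log (A / ‖L 0‖) * 3) = (A / ‖L 0‖) ^ 3 := by
    rw [Real.exp_mul, Real.exp_log (by positivity)]
    norm_num
  rw [← h5, ← Real.exp_add, hM, hR]
  congr 1
  ring

/-- Growth of an entire quotient. -/
theorem quotient_growth {L G E : ℂ → ℂ} (hL : Differentiable ℂ L) (hE : Differentiable ℂ E)
    (hs : ∀ z, L z = 0 → deriv L z ≠ 0) (hGE : ∀ z, G z = L z * E z)
    {A B : ℝ} (hB : 0 ≤ B) (hLb : ∀ z, ‖L z‖ ≤ A * Real.exp (B * ‖z‖))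
    (hGb : ∀ z, ‖G z‖ ≤ A * Real.exp (B * ‖z‖)) :
    ∃ A' B' : ℝ, 0 < A' ∧ 0 ≤ B' ∧ ∀ z, ‖E z‖ ≤ A' * Real.exp (B' * ‖z‖) := by
  obtain ⟨z₀, hz₀⟩ := exists_ne_zero hs
  have hA : 0 < A := by
    have h1 := (norm_pos_iff.2 hz₀).trans_le (hLb z₀)
    exact pos_of_mul_pos_left h1 (Real.exp_pos _).le
  set K : ℂ → ℂ := fun z => L (z + z₀) with hK
  have hKd : Differentiable ℂ K := hL.comp (differentiable_id.add_const z₀)
  have hder : ∀ z, deriv K z = deriv L (z + z₀) := by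
    intro z
    have h1 : HasDerivAt K (deriv L (z + z₀) * 1) z :=
      (hL (z + z₀)).hasDerivAt.comp z ((hasDerivAt_id z).add_const z₀)
    rw [h1.deriv, mul_one]
  have hKs : ∀ z, K z = 0 → deriv K z ≠ 0 := by
    intro z hz
    rw [hder]
    exact hs _ hz
  have hshift : ∀ f : ℂ → ℂ, (∀ z, ‖f z‖ ≤ A * Real.exp (B * ‖z‖)) →
      ∀ z, ‖f (z + z₀)‖ ≤ (A * Real.exp (B * ‖z₀‖)) * Real.exp (B * ‖z‖) := by
    intro f hf z
    calc ‖f (z + z₀)‖ ≤ A * Real.exp (B * ‖z + z₀‖) := hf _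
      _ ≤ A * Real.exp (B * (‖z‖ + ‖z₀‖)) := by
          gcongr
          exact norm_add_le _ _
      _ = _ := by rw [mul_add, Real.exp_add]; ring
  have hK0 : K 0 ≠ 0 := by simpa [hK] using hz₀
  have hq := quotient_growth_zero hKd (E := fun z => E (z + z₀)) (G := fun z => G (z + z₀))
    (hE.comp (differentiable_id.add_const z₀)) hKs (fun z => hGE (z + z₀)) hB
    (hshift L hLb) (hshift G hGb) hK0
  refine ⟨(A * Real.exp (B * ‖z₀‖) / ‖K 0‖) ^ 3 * Real.exp (12 * B * (‖z₀‖ + 1) + 3), 12 * B,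
    by positivity, by positivity, fun z => ?_⟩
  have h1 := hq (z - z₀)
  simp only [sub_add_cancel] at h1
  refine h1.trans ?_
  have h2 : Real.exp (12 * B * (‖z₀‖ + 1) + 3) * Real.exp (12 * B * ‖z‖)
      = Real.exp (12 * B * (‖z₀‖ + 1) + 3 + 12 * B * ‖z‖) := by rw [← Real.exp_add]
  rw [mul_assoc _ (Real.exp (12 * B * (‖z₀‖ + 1) + 3)), h2]
  refine mul_le_mul_of_nonneg_left (Real.exp_le_exp.2 ?_) (by positivity)
  have := norm_sub_le z z₀
  nlinarith

end Pool.Agent.H83
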