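import Mathlib
import Pool.Agent.H83.PL
import Pool.Agent.H83.Zeros2
import Pool.Agent.H83.ZeroTerm

set_option autoImplicit false

open Filter Set MeasureTheory Complex Metric
open scoped Topology Real

namespace Pool.Agent.H83

/-- Standing hypotheses on the entire function `L`. -/
structure Hyp (L : ℂ → ℂ) (A B c : ℝ) : Prop where
  diff : Differentiable ℂ L
  simple : ∀ z, L z = 0 → deriv L z ≠ 0
  hA : 1 ≤ A
  hB : 0 ≤ B
  growth : ∀ z, ‖L z‖ ≤ A * Real.exp (B * ‖z‖)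
  hc : 0 < c
  pos : ∀ e : ℂ, ‖e‖ = 1 → ∀ R : ℝ, ∃ r : ℝ, R < r ∧ Real.exp (c * r) < ‖L ((r : ℂ) * e)‖
  cond : ∀ ε : ℝ, 0 < ε → ∃ τ : ℝ, ∀ w : ℂ, L w = 0 → τ < ‖w‖ →
          ∃ s : ℝ,
            (∀ᶠ r : ℝ in atTop,
              ‖L ((r : ℂ) * Complex.exp ((Complex.arg w : ℂ) * Complex.I))‖ ≤ Real.exp (s * r)) ∧
            Real.exp ((s - ε) * ‖w‖) < ‖deriv L w‖

theorem Hyp.near {L : ℂ → ℂ} {A B c : ℝ} (h : Hyp L A B c) {ε : ℝ} (hε : 0 < ε) :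
    ∃ R : ℝ, 1 ≤ R ∧ ∀ w : ℂ, L w = 0 → R < ‖w‖ → ∃ s : ℝ, c ≤ s ∧
      Real.exp ((s - ε) * ‖w‖) < ‖deriv L w‖ ∧
      ∀ z, ‖z - w‖ ≤ 1 → ‖L z‖ ≤ Real.exp ((s + ε) * ‖w‖) := by
  obtain ⟨R1, hR1⟩ := uniform_upper h.diff (zero_le_one.trans h.hA) h.hB h.growth hε
  obtain ⟨τ, hτ⟩ := h.cond ε hε
  refine ⟨max 1 (max R1 τ), le_max_left _ _, fun w hw hR => ?_⟩
  have hR1' : R1 < ‖w‖ := lt_of_le_of_lt ((le_max_left _ _).trans (le_max_right _ _)) hR
  have hτ' : τ < ‖w‖ := lt_of_le_of_lt ((le_max_right _ _).trans (le_max_right _ _)) hR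
  obtain ⟨s, hs1, hs2⟩ := hτ w hw hτ'
  set e : ℂ := Complex.exp ((Complex.arg w : ℂ) * Complex.I) with he
  have hen : ‖e‖ = 1 := Complex.norm_exp_ofReal_mul_I _
  have hwe : ((‖w‖ : ℝ) : ℂ) * e = w := Complex.norm_mul_exp_arg_mul_I w
  have hcs : c ≤ s := by
    obtain ⟨R2, hR2⟩ := (eventually_atTop.1 hs1)
    obtain ⟨r, hr1, hr2⟩ := h.pos e hen (max R2 1)
    have h1 := hR2 r ((le_max_left _ _).trans hr1.le)
    have h2 : 0 < r := lt_of_lt_of_le one_pos ((le_max_right _ _).trans hr1.le)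
    have h3 := Real.exp_lt_exp.1 (lt_of_lt_of_le hr2 h1)
    exact (lt_of_mul_lt_mul_right h3 h2.le).le
  refine ⟨s, hcs, hs2, fun z hz => ?_⟩
  apply hR1 e hen s (h.hc.le.trans hcs) hs1 ‖w‖ hR1' z
  rw [hwe]
  exact hz

theorem local_est {L : ℂ → ℂ} (hL : Differentiable ℂ L) {w : ℂ} (hw : L w = 0) {M : ℝ}
    (hM : ∀ z, ‖z - w‖ ≤ 1 → ‖L z‖ ≤ M) {z : ℂ} (hz : ‖z - w‖ ≤ 1 / 2) :
    ‖dslope L w z - deriv L w‖ ≤ 2 * M * ‖z - w‖ ∧
      ‖deriv L z - dslope L w z‖ ≤ 2 * M * ‖z - w‖ := by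
  set g := dslope L w with hg
  have hgd : Differentiable ℂ g := differentiable_dslope hL w
  have hLg : ∀ z, L z = (z - w) * g z := fun z => eq_mul_dslope hw z
  have hg1 : ∀ z, ‖z - w‖ ≤ 1 → ‖g z‖ ≤ M := by
    intro z hz
    apply norm_le_of_sphere hgd one_pos _ hz
    intro u hu
    have h1 := hM u hu.le
    rw [hLg, norm_mul, hu, one_mul] at h1
    exact h1
  have hg2 : ∀ z, ‖z - w‖ ≤ 1 / 2 → ‖deriv g z‖ ≤ 2 * M := by
    intro z hz
    have h1 := Complex.norm_deriv_le_of_forall_mem_sphere_norm_le (c := z) (R := 1 / 2) (C := M)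
      (f := g) (by norm_num) hgd.diffContOnCl (by
        intro u hu
        apply hg1
        have h2 : ‖u - z‖ = 1 / 2 := by rw [← dist_eq_norm]; exact hu
        calc ‖u - w‖ = ‖(u - z) + (z - w)‖ := by ring_nf
          _ ≤ ‖u - z‖ + ‖z - w‖ := norm_add_le _ _
          _ ≤ 1 := by rw [h2]; linarith)
    linarith
  have hM0 : 0 ≤ M := (norm_nonneg _).trans (hM w (by simp))
  constructor
  · have h1 : g w = deriv L w := dslope_same _ _
    rw [← h1]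
    apply Convex.norm_image_sub_le_of_norm_deriv_le (s := closedBall w (1 / 2))
      (fun x _ => hgd x)
    · intro x hx
      apply hg2
      rw [← dist_eq_norm]
      exact hx
    · exact convex_closedBall _ _
    · exact mem_closedBall_self (by norm_num)
    · rw [mem_closedBall, dist_eq_norm]; exact hz
  · have h1 : HasDerivAt L (1 * g z + (z - w) * deriv g z) z := by
      have h2 := ((hasDerivAt_id z).sub_const w).mul (hgd z).hasDerivAt
      refine h2.congr_of_eventuallyEq ?_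
      exact Eventually.of_forall fun u => hLg u
    rw [h1.deriv, one_mul, add_sub_cancel_left, norm_mul, mul_comm]
    exact mul_le_mul_of_nonneg_right (hg2 z hz) (norm_nonneg _)

/-- Local structure at large zeros. -/
theorem Hyp.locz {L : ℂ → ℂ} {A B c : ℝ} (h : Hyp L A B c) {ε : ℝ} (hε : 0 < ε) :
    ∃ R : ℝ, 1 ≤ R ∧ ∀ w : ℂ, L w = 0 → R < ‖w‖ →
      (∀ z, ‖z - w‖ ≤ Real.exp (-(3 * ε) * ‖w‖) →
        3 / 4 * ‖deriv L w‖ * ‖z - w‖ ≤ ‖L z‖ ∧ ‖L z‖ ≤ 5 / 4 * ‖deriv L w‖ * ‖z - w‖ ∧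
        1 / 2 * ‖deriv L w‖ ≤ ‖deriv L z‖) ∧
      Real.exp ((c - 4 * ε) * ‖w‖) ≤ ‖deriv L w‖ * Real.exp (-(3 * ε) * ‖w‖) ∧
      Real.exp ((c - ε) * ‖w‖) ≤ ‖deriv L w‖ := by
  obtain ⟨R0, hR0, hnear⟩ := h.near hε
  have hev : ∀ᶠ r : ℝ in atTop, 8 * Real.exp (-ε * r) ≤ Real.exp (0 * r) :=
    eventually_mul_exp_le (by linarith)
  obtain ⟨R1, hR1⟩ := eventually_atTop.1 hev
  refine ⟨max R0 R1, hR0.trans (le_max_left _ _), fun w hw hR => ?_⟩
  have hw0 : R0 < ‖w‖ := lt_of_le_of_lt (le_max_left _ _) hR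
  have hw1 : R1 ≤ ‖w‖ := (le_max_right _ _).trans hR.le
  obtain ⟨s, hcs, hd, hM⟩ := hnear w hw hw0
  have h8 : 8 * Real.exp (-ε * ‖w‖) ≤ 1 := by
    have := hR1 ‖w‖ hw1
    rwa [zero_mul, Real.exp_zero] at this
  have hwn : 0 ≤ ‖w‖ := norm_nonneg w
  set D := ‖deriv L w‖ with hD
  set M := Real.exp ((s + ε) * ‖w‖) with hMdef
  set ρ := Real.exp (-(3 * ε) * ‖w‖) with hρ
  have hρM : 8 * M * ρ ≤ D := by
    have h1 : M * ρ = Real.exp ((s - ε) * ‖w‖) * Real.exp (-ε * ‖w‖) := by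
      rw [hMdef, hρ, ← Real.exp_add, ← Real.exp_add]; congr 1; ring
    have h2 : 8 * M * ρ = Real.exp ((s - ε) * ‖w‖) * (8 * Real.exp (-ε * ‖w‖)) := by
      rw [mul_assoc, h1]; ring
    rw [h2]
    have h3 := Real.exp_pos ((s - ε) * ‖w‖)
    nlinarith
  have hρ2 : ρ ≤ 1 / 2 := by
    have h1 : ρ ≤ Real.exp (-ε * ‖w‖) := Real.exp_le_exp.2 (by nlinarith)
    linarith
  have hDpos : 0 < D := lt_trans (Real.exp_pos _) hd
  have hMpos : 0 < M := Real.exp_pos _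
  refine ⟨fun z hz => ?_, ?_, ?_⟩
  · obtain ⟨e1, e2⟩ := local_est h.diff hw hM (hz.trans hρ2)
    have e3 : 2 * M * ‖z - w‖ ≤ D / 4 := by
      have : 2 * M * ‖z - w‖ ≤ 2 * M * ρ := mul_le_mul_of_nonneg_left hz (by positivity)
      linarith
    have hLz : ‖L z‖ = ‖z - w‖ * ‖dslope L w z‖ := by
      rw [← norm_mul, ← eq_mul_dslope hw z]
    have e4 : 3 / 4 * D ≤ ‖dslope L w z‖ := by
      have h1 : D ≤ ‖dslope L w z - deriv L w‖ + ‖dslope L w z‖ := by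
        rw [hD]
        calc ‖deriv L w‖ = ‖dslope L w z - (dslope L w z - deriv L w)‖ := by ring_nf
          _ ≤ ‖dslope L w z‖ + ‖dslope L w z - deriv L w‖ := norm_sub_le _ _
          _ = _ := add_comm _ _
      linarith
    have e5 : ‖dslope L w z‖ ≤ 5 / 4 * D := by
      have h1 : ‖dslope L w z‖ ≤ ‖dslope L w z - deriv L w‖ + D := by
        rw [hD]
        calc ‖dslope L w z‖ = ‖(dslope L w z - deriv L w) + deriv L w‖ := by ring_nf
          _ ≤ _ := norm_add_le _ _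
      linarith
    have hn := norm_nonneg (z - w)
    refine ⟨?_, ?_, ?_⟩
    · rw [hLz]; nlinarith
    · rw [hLz]; nlinarith
    · have h1 : ‖dslope L w z‖ ≤ ‖deriv L z - dslope L w z‖ + ‖deriv L z‖ := by
        calc ‖dslope L w z‖ = ‖deriv L z - (deriv L z - dslope L w z)‖ := by ring_nf
          _ ≤ ‖deriv L z‖ + ‖deriv L z - dslope L w z‖ := norm_sub_le _ _
          _ = _ := add_comm _ _
      linarith
  · have h1 : Real.exp ((c - 4 * ε) * ‖w‖) = Real.exp ((c - ε) * ‖w‖) * ρ := by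
      rw [hρ, ← Real.exp_add]; congr 1; ring
    rw [h1]
    apply mul_le_mul_of_nonneg_right _ (Real.exp_pos _).le
    refine le_trans (Real.exp_le_exp.2 ?_) hd.le
    nlinarith
  · refine le_trans (Real.exp_le_exp.2 ?_) hd.le
    nlinarith

end Pool.Agent.H83
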