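import Mathlib
import Pool.Agent.H83.Local

set_option autoImplicit false

open Filter Set MeasureTheory Complex Metric
open scoped Topology Real

namespace Pool.Agent.H83

/-- Quotient of entire functions when the denominator has simple zeros. -/
theorem exists_quotient {L G : ℂ → ℂ} (hL : Differentiable ℂ L)
    (hs : ∀ z, L z = 0 → deriv L z ≠ 0)
    (hG : Differentiable ℂ G) (hG0 : ∀ z, L z = 0 → G z = 0) :
    ∃ E : ℂ → ℂ, Differentiable ℂ E ∧ ∀ z, G z = L z * E z := by
  classical
  refine ⟨fun z => if L z = 0 then dslope G z z / dslope L z z else G z / L z, ?_, ?_⟩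
  · intro z0
    by_cases h0 : L z0 = 0
    · have hl := differentiable_dslope hL z0
      have hg := differentiable_dslope hG z0
      have hne : dslope L z0 z0 ≠ 0 := by
        rw [dslope_same]; exact hs z0 h0
      have hev : ∀ᶠ z in 𝓝 z0, dslope L z0 z ≠ 0 :=
        hl.continuous.continuousAt.eventually_ne hne
      have h1 : (fun z => if L z = 0 then dslope G z z / dslope L z z else G z / L z)
          =ᶠ[𝓝 z0] fun z => dslope G z0 z / dslope L z0 z := by
        filter_upwards [hev] with z hz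
        by_cases hzz : z = z0
        · subst hzz
          rw [if_pos h0]
        · have hLz : L z = (z - z0) * dslope L z0 z := eq_mul_dslope h0 z
          have hGz : G z = (z - z0) * dslope G z0 z := eq_mul_dslope (hG0 z0 h0) z
          have hsub : z - z0 ≠ 0 := sub_ne_zero.2 hzz
          have hLz0 : L z ≠ 0 := by rw [hLz]; exact mul_ne_zero hsub hz
          rw [if_neg hLz0, hLz, hGz]
          field_simp
      exact ((hg z0).div (hl z0) hne).congr_of_eventuallyEq h1
    · have hev : ∀ᶠ z in 𝓝 z0, L z ≠ 0 := hL.continuous.continuousAt.eventually_ne h0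
      have h1 : (fun z => if L z = 0 then dslope G z z / dslope L z z else G z / L z)
          =ᶠ[𝓝 z0] fun z => G z / L z := by
        filter_upwards [hev] with z hz
        rw [if_neg hz]
      exact ((hG z0).div (hL z0) h0).congr_of_eventuallyEq h1
  · intro z
    by_cases h0 : L z = 0
    · simp [h0, hG0 z h0]
    · simp only [h0, if_false]
      field_simp

theorem dslope_bound {L : ℂ → ℂ} (hL : Differentiable ℂ L) {A B : ℝ} (hA : 0 ≤ A) (hB : 0 ≤ B)
    (hAB : ∀ z, ‖L z‖ ≤ A * Real.exp (B * ‖z‖)) {w : ℂ} (hw : L w = 0) (z : ℂ) :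
    ‖dslope L w z‖ ≤ A * Real.exp (B * (‖z‖ + 2)) := by
  have hLg : ∀ z, L z = (z - w) * dslope L w z := fun z => eq_mul_dslope hw z
  by_cases h1 : 1 ≤ ‖z - w‖
  · have h2 : ‖dslope L w z‖ ≤ ‖L z‖ := by
      rw [hLg z, norm_mul]
      nlinarith [norm_nonneg (dslope L w z)]
    refine h2.trans ((hAB z).trans ?_)
    apply mul_le_mul_of_nonneg_left _ hA
    exact Real.exp_le_exp.2 (by nlinarith)
  · push Not at h1
    apply norm_le_of_sphere (differentiable_dslope hL w) one_pos _ h1.le
    intro u hu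
    have h2 : ‖dslope L w u‖ = ‖L u‖ := by
      rw [hLg u, norm_mul, hu, one_mul]
    rw [h2]
    refine (hAB u).trans ?_
    apply mul_le_mul_of_nonneg_left _ hA
    apply Real.exp_le_exp.2
    apply mul_le_mul_of_nonneg_left _ hB
    calc ‖u‖ = ‖(u - w) - (z - w) + z‖ := by ring_nf
      _ ≤ ‖(u - w) - (z - w)‖ + ‖z‖ := norm_add_le _ _
      _ ≤ (‖u - w‖ + ‖z - w‖) + ‖z‖ := by gcongr; exact norm_sub_le _ _
      _ ≤ ‖z‖ + 2 := by rw [hu]; linarith

variable {L : ℂ → ℂ} {A B c : ℝ}

theorem Hyp.cofin (h : Hyp L A B c) (R : ℝ) :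
    ∀ᶠ w : {w : ℂ // L w = 0} in cofinite, R < ‖(w : ℂ)‖ := by
  have h1 := zeros_finite h.diff h.simple R
  rw [eventually_cofinite]
  have h2 : {w : {w : ℂ // L w = 0} | ¬ R < ‖(w : ℂ)‖} =
      (fun w : {w : ℂ // L w = 0} => (w : ℂ)) ⁻¹' {w : ℂ | L w = 0 ∧ ‖w‖ ≤ R} := by
    ext w
    simp only [mem_setOf_eq, not_lt, mem_preimage]
    exact ⟨fun h => ⟨w.2, h⟩, fun h => h.2⟩
  rw [h2]
  exact h1.preimage (Subtype.val_injective.injOn)

theorem Hyp.summable_inv (h : Hyp L A B c) {β : ℝ} (hβ : β < c) :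
    Summable (fun w : {w : ℂ // L w = 0} => Real.exp (β * ‖(w : ℂ)‖) / ‖deriv L w‖) := by
  have hε : 0 < (c - β) / 2 := by linarith
  obtain ⟨R, _, hRw⟩ := h.locz hε
  refine Summable.of_norm_bounded_eventually (summable_exp_neg h.diff h.simple h.hB h.growth hε) ?_
  filter_upwards [h.cofin R] with w hw
  have h1 := (hRw w w.2 hw).2.2
  have hD : 0 < ‖deriv L (w : ℂ)‖ := norm_pos_iff.2 (h.simple w w.2)
  rw [norm_div, Real.norm_eq_abs, abs_of_pos (Real.exp_pos _), norm_norm, div_le_iff₀ hD]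
  refine le_trans ?_ (mul_le_mul_of_nonneg_left h1 (Real.exp_pos _).le)
  rw [← Real.exp_add]
  apply Real.exp_le_exp.2
  apply le_of_eq
  ring

/-- The function `1 - ∑ L(z)/(L'(w)(z-w))`. -/
noncomputable def Gf (L : ℂ → ℂ) (z : ℂ) : ℂ :=
  1 - ∑' w : {w : ℂ // L w = 0}, dslope L w z / deriv L w

theorem Hyp.summable_inv0 (h : Hyp L A B c) :
    Summable (fun w : {w : ℂ // L w = 0} => 1 / ‖deriv L w‖) := by
  have := h.summable_inv (β := 0) h.hc
  simpa using this

theorem Hyp.term_bound (h : Hyp L A B c) (w : {w : ℂ // L w = 0}) (z : ℂ) :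
    ‖dslope L w z / deriv L w‖ ≤ A * Real.exp (B * (‖z‖ + 2)) * (1 / ‖deriv L w‖) := by
  rw [norm_div, mul_one_div]
  apply div_le_div_of_nonneg_right _ (norm_nonneg _)
  exact dslope_bound h.diff (zero_le_one.trans h.hA) h.hB h.growth w.2 z

theorem Hyp.Gf_diff (h : Hyp L A B c) : Differentiable ℂ (Gf L) := by
  have h1 : Differentiable ℂ (fun z => ∑' w : {w : ℂ // L w = 0}, dslope L w z / deriv L w) := by
    intro z0
    have hopen : IsOpen (ball (0 : ℂ) (‖z0‖ + 1)) := isOpen_ball
    have h2 : DifferentiableOn ℂ (fun z => ∑' w : {w : ℂ // L w = 0}, dslope L w z / deriv L w)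
        (ball (0 : ℂ) (‖z0‖ + 1)) := by
      apply differentiableOn_tsum_of_summable_norm
        (u := fun w : {w : ℂ // L w = 0} =>
          A * Real.exp (B * ((‖z0‖ + 1) + 2)) * (1 / ‖deriv L w‖))
      · exact h.summable_inv0.mul_left _
      · intro w
        exact ((differentiable_dslope h.diff w).div_const _).differentiableOn
      · exact hopen
      · intro w z hz
        refine (h.term_bound w z).trans ?_
        have hz' : ‖z‖ ≤ ‖z0‖ + 1 := by
          rw [mem_ball_zero_iff] at hz; exact hz.le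
        have hA := h.hA
        have hB := h.hB
        apply mul_le_mul_of_nonneg_right _ (by positivity)
        apply mul_le_mul_of_nonneg_left _ (by linarith)
        exact Real.exp_le_exp.2 (by nlinarith)
    exact h2.differentiableAt (hopen.mem_nhds (by rw [mem_ball_zero_iff]; linarith))
  exact h1.const_sub 1

theorem Hyp.Gf_growth (h : Hyp L A B c) : ∃ A' : ℝ, A ≤ A' ∧ ∀ z, ‖Gf L z‖ ≤
    A' * Real.exp (B * ‖z‖) := by
  set K := ∑' w : {w : ℂ // L w = 0}, (1 / ‖deriv L (w : ℂ)‖) with hK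
  have hK0 : 0 ≤ K := tsum_nonneg fun w => by positivity
  have hA := h.hA
  have hB := h.hB
  refine ⟨A + 1 + A * Real.exp (B * 2) * K, ?_, fun z => ?_⟩
  · have : 0 ≤ A * Real.exp (B * 2) * K := by positivity
    linarith
  · have h1 : ‖∑' w : {w : ℂ // L w = 0}, dslope L w z / deriv L w‖ ≤
        A * Real.exp (B * (‖z‖ + 2)) * K := by
      apply tsum_of_norm_bounded (h.summable_inv0.hasSum.mul_left _)
      intro w
      exact h.term_bound w z
    have h2 : ‖Gf L z‖ ≤ 1 + A * Real.exp (B * (‖z‖ + 2)) * K := by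
      unfold Gf
      refine (norm_sub_le _ _).trans ?_
      rw [norm_one]
      linarith
    refine h2.trans ?_
    have h3 : Real.exp (B * (‖z‖ + 2)) = Real.exp (B * 2) * Real.exp (B * ‖z‖) := by
      rw [← Real.exp_add]; congr 1; ring
    rw [h3]
    have h4 : 1 ≤ Real.exp (B * ‖z‖) := Real.one_le_exp (by positivity)
    have h5 := Real.exp_pos (B * 2)
    nlinarith

theorem Hyp.Gf_zero (h : Hyp L A B c) {w0 : ℂ} (hw0 : L w0 = 0) : Gf L w0 = 0 := by
  unfold Gf
  rw [tsum_eq_single (⟨w0, hw0⟩ : {w : ℂ // L w = 0})]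
  · simp only [dslope_same]
    rw [div_self (h.simple w0 hw0), sub_self]
  · intro w hw
    have hne : w0 ≠ w := by
      intro he
      exact hw (Subtype.ext he.symm)
    have h1 : dslope L (w : ℂ) w0 = 0 := by
      rw [dslope_of_ne _ hne, slope_def_field, hw0, w.2]
      simp
    rw [h1, zero_div]

/-- The entire remainder of the interpolation formula. -/
theorem Hyp.exists_E (h : Hyp L A B c) : ∃ E : ℂ → ℂ, Differentiable ℂ E ∧
    (∀ z, L z ≠ 0 → E z = 1 / L z - ∑' w : {w : ℂ // L w = 0}, 1 / (deriv L w * (z - w))) ∧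
    ∃ A' B' : ℝ, 0 < A' ∧ 0 ≤ B' ∧ ∀ z, ‖E z‖ ≤ A' * Real.exp (B' * ‖z‖) := by
  obtain ⟨E, hE, hGE⟩ := exists_quotient h.diff h.simple h.Gf_diff (fun z hz => h.Gf_zero hz)
  obtain ⟨A', hA', hG⟩ := h.Gf_growth
  refine ⟨E, hE, fun z hz => ?_, ?_⟩
  · have h1 : E z = Gf L z / L z := by
      rw [hGE z]; field_simp
    rw [h1, Gf, sub_div, ← tsum_div_const]
    congr 1
    apply tsum_congr
    intro w
    have hne : z ≠ w := by
      rintro rfl
      exact hz w.2
    have hsub : z - w ≠ 0 := sub_ne_zero.2 hne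
    have hD := h.simple w w.2
    rw [dslope_of_ne _ hne, slope_def_field, w.2, sub_zero]
    field_simp
  · apply quotient_growth h.diff hE h.simple hGE h.hB (A := A') _ hG
    intro z
    refine (h.growth z).trans ?_
    exact mul_le_mul_of_nonneg_right hA' (Real.exp_pos _).le

end Pool.Agent.H83
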