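import Mathlib
import Pool.Agent.H83.Zeros2

set_option autoImplicit false

open Complex Filter Set Bornology Asymptotics Metric
open scoped Topology

namespace Pool.Agent.H83

/-- Maximum principle on a disc, local version. -/
theorem norm_le_of_sphere' {f : ℂ → ℂ} {c : ℂ} {R C : ℝ} (hR : 0 < R)
    (hf : DifferentiableOn ℂ f (closedBall c R))
    (h : ∀ z, ‖z - c‖ = R → ‖f z‖ ≤ C) {z : ℂ} (hz : ‖z - c‖ ≤ R) : ‖f z‖ ≤ C := by
  refine Complex.norm_le_of_forall_mem_frontier_norm_le (U := ball c R) isBounded_ball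
    ?_ ?_ ?_
  · apply DifferentiableOn.diffContOnCl
    rw [closure_ball c hR.ne']
    exact hf
  · intro w hw
    rw [frontier_ball c hR.ne', mem_sphere, dist_eq_norm] at hw
    exact h w hw
  · rw [closure_ball c hR.ne', mem_closedBall, dist_eq_norm]
    exact hz

theorem one_le_prod_real {ι : Type*} (s : Finset ι) (f : ι → ℝ) (h : ∀ i ∈ s, 1 ≤ f i) :
    1 ≤ ∏ i ∈ s, f i :=
  Finset.prod_induction f (fun y => 1 ≤ y)
    (fun _ _ ha hb => one_le_mul_of_one_le_of_one_le ha hb) le_rfl h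

/-- Genus zero products have minimal type, uniformly over partial products. -/
theorem prod_one_add_le {L : ℂ → ℂ} (h0 : L 0 ≠ 0)
    (hsum : Summable (fun w : {w : ℂ // L w = 0} => 1 / ‖(w : ℂ)‖)) {ε : ℝ} (hε : 0 < ε) :
    ∃ C : ℝ, 0 < C ∧ ∀ T : Finset ℂ, (∀ w ∈ T, L w = 0) → ∀ x : ℝ, 0 ≤ x →
      ∏ w ∈ T, (1 + x / ‖w‖) ≤ C * Real.exp (ε * x) := by
  classical
  obtain ⟨T0, hT0⟩ := summable_iff_vanishing_norm.1 hsum (ε / 2) (by positivity)
  set T1 : Finset ℂ := T0.map (Function.Embedding.subtype _) with hT1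
  have hT1z : ∀ w ∈ T1, L w = 0 := by
    intro w hw
    obtain ⟨v, -, rfl⟩ := Finset.mem_map.1 hw
    exact v.2
  have hne : ∀ w, L w = 0 → 0 < ‖w‖ := by
    intro w hw
    rw [norm_pos_iff]
    rintro rfl
    exact h0 hw
  set η : ℝ := ε / (2 * (T1.card + 1)) with hη
  have hηpos : 0 < η := by positivity
  refine ⟨∏ w ∈ T1, (1 + 1 / (η * ‖w‖)), ?_, ?_⟩
  · exact Finset.prod_pos fun w _ => by positivity
  intro T hT x hx
  have hsplit : ∏ w ∈ T, (1 + x / ‖w‖)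
      = (∏ w ∈ T ∩ T1, (1 + x / ‖w‖)) * ∏ w ∈ T \ T1, (1 + x / ‖w‖) := by
    rw [Finset.prod_inter_mul_prod_sdiff]
  have h1 : ∏ w ∈ T ∩ T1, (1 + x / ‖w‖) ≤ ∏ w ∈ T1, (1 + x / ‖w‖) := by
    have h2 : ∏ w ∈ T1, (1 + x / ‖w‖)
        = (∏ w ∈ T1 ∩ T, (1 + x / ‖w‖)) * ∏ w ∈ T1 \ T, (1 + x / ‖w‖) := by
      rw [Finset.prod_inter_mul_prod_sdiff]
    rw [h2, Finset.inter_comm]
    refine le_mul_of_one_le_right (Finset.prod_nonneg fun w _ => by positivity) ?_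
    exact one_le_prod_real _ _ (fun w _ => by
      have : 0 ≤ x / ‖w‖ := by positivity
      linarith)
  have h3 : ∏ w ∈ T1, (1 + x / ‖w‖) ≤ (∏ w ∈ T1, (1 + 1 / (η * ‖w‖))) * Real.exp (ε / 2 * x) := by
    have h4 : ∏ w ∈ T1, (1 + x / ‖w‖) ≤ ∏ w ∈ T1, ((1 + 1 / (η * ‖w‖)) * Real.exp (η * x)) := by
      refine Finset.prod_le_prod (fun w _ => by positivity) (fun w hw => ?_)
      have hw0 := hne w (hT1z w hw)
      have h5 : 1 + η * x ≤ Real.exp (η * x) := by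
        have := Real.add_one_le_exp (η * x); linarith
      calc 1 + x / ‖w‖ ≤ (1 + 1 / (η * ‖w‖)) * (1 + η * x) := by
            have e : (1 + 1 / (η * ‖w‖)) * (1 + η * x)
                = 1 + x / ‖w‖ + (η * x + 1 / (η * ‖w‖)) := by field_simp; ring
            rw [e]
            have : 0 ≤ η * x + 1 / (η * ‖w‖) := by positivity
            linarith
        _ ≤ _ := by gcongr
    refine h4.trans ?_
    rw [Finset.prod_mul_distrib, Finset.prod_const, ← Real.exp_nat_mul]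
    refine mul_le_mul_of_nonneg_left (Real.exp_le_exp.2 ?_)
      (Finset.prod_nonneg fun w _ => by positivity)
    have h6 : (T1.card : ℝ) * η ≤ ε / 2 := by
      rw [hη, mul_div_assoc', div_le_div_iff₀ (by positivity) (by positivity)]
      nlinarith
    calc (T1.card : ℝ) * (η * x) = ((T1.card : ℝ) * η) * x := by ring
      _ ≤ ε / 2 * x := by gcongr
  have h7 : ∏ w ∈ T \ T1, (1 + x / ‖w‖) ≤ Real.exp (ε / 2 * x) := by
    have h8 : ∏ w ∈ T \ T1, (1 + x / ‖w‖) ≤ ∏ w ∈ T \ T1, Real.exp (x / ‖w‖) := by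
      refine Finset.prod_le_prod (fun w _ => by positivity) (fun w hw => ?_)
      have := Real.add_one_le_exp (x / ‖w‖); linarith
    refine h8.trans ?_
    rw [← Real.exp_sum]
    apply Real.exp_le_exp.2
    have h9 : ∑ w ∈ T \ T1, x / ‖w‖ = x * ∑ w ∈ T \ T1, 1 / ‖w‖ := by
      rw [Finset.mul_sum]
      exact Finset.sum_congr rfl fun w _ => by ring
    have h10 : ∑ w ∈ (T \ T1).subtype (fun w => L w = 0), 1 / ‖(w : ℂ)‖
        = ∑ w ∈ T \ T1, 1 / ‖w‖ :=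
      Finset.sum_subtype_of_mem (fun w : ℂ => 1 / ‖w‖)
        (fun w hw => hT w (Finset.mem_sdiff.1 hw).1)
    have hdisj : Disjoint ((T \ T1).subtype (fun w => L w = 0)) T0 := by
      rw [Finset.disjoint_left]
      intro w hw hw0
      have h11 := (Finset.mem_sdiff.1 (Finset.mem_subtype.1 hw)).2
      exact h11 (by rw [hT1]; exact Finset.mem_map_of_mem _ hw0)
    have h12 := hT0 _ hdisj
    rw [h10] at h12
    have h13 := (le_abs_self _).trans h12.le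
    rw [h9]
    calc x * ∑ w ∈ T \ T1, 1 / ‖w‖ ≤ x * (ε / 2) := by gcongr
      _ = ε / 2 * x := by ring
  calc ∏ w ∈ T, (1 + x / ‖w‖)
      = (∏ w ∈ T ∩ T1, (1 + x / ‖w‖)) * ∏ w ∈ T \ T1, (1 + x / ‖w‖) := hsplit
    _ ≤ ((∏ w ∈ T1, (1 + 1 / (η * ‖w‖))) * Real.exp (ε / 2 * x)) * Real.exp (ε / 2 * x) := by
        refine mul_le_mul (h1.trans h3) h7 (Finset.prod_nonneg fun w _ => by positivity) ?_
        exact mul_nonneg (Finset.prod_nonneg fun w _ => by positivity) (Real.exp_pos _).le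
    _ = _ := by
        rw [mul_assoc, ← Real.exp_add]
        ring_nf

/-- Local representation at scale `R`. -/
theorem local_rep {L : ℂ → ℂ} (hL : Differentiable ℂ L) (hs : ∀ z, L z = 0 → deriv L z ≠ 0)
    {A B : ℝ} (hB : 0 ≤ B) (hLb : ∀ z, ‖L z‖ ≤ A * Real.exp (B * ‖z‖)) (h0 : L 0 ≠ 0) :
    ∃ K : ℝ, 0 < K ∧ ∀ R : ℝ, 1 ≤ R → ∃ a : ℂ, ‖a‖ ≤ K ∧ ∃ T : Finset ℂ, (∀ w ∈ T, L w = 0) ∧
      ∀ z : ℂ, ‖z‖ ≤ R / 2 → ‖L z‖ ≤ ‖L 0‖ * (∏ w ∈ T, (1 + ‖z‖ / ‖w‖)) *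
        Real.exp ((a * z).re + K * ‖z‖ ^ 2 / R) := by
  classical
  have hn0 : 0 < ‖L 0‖ := norm_pos_iff.2 h0
  have hAL : ‖L 0‖ ≤ A := by
    have := hLb 0
    simpa using this
  have hA : 0 < A := hn0.trans_le hAL
  have hlogA : 0 ≤ Real.log (A / ‖L 0‖) := Real.log_nonneg (by rwa [one_le_div hn0])
  set m : ℝ := Real.log (A / ‖L 0‖) + 2 * B + 1 with hm
  have hmpos : 0 < m := by positivity
  refine ⟨16 * m, by positivity, ?_⟩
  intro R hR1
  have hRpos : 0 < R := by linarith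
  have hfin := zeros_finite hL hs R
  set T : Finset ℂ := hfin.toFinset with hTdef
  have hTmem : ∀ w, w ∈ T ↔ (L w = 0 ∧ ‖w‖ ≤ R) := by
    intro w; rw [hTdef, Set.Finite.mem_toFinset]; rfl
  obtain ⟨F, hF, hLF, hFz, -⟩ := exists_factor hL hs T (fun w hw => ((hTmem w).1 hw).1)
  set Q : ℝ := A * Real.exp (2 * B * R) / R ^ T.card with hQ
  have hQpos : 0 < Q := by positivity
  have hprod : ∀ ζ : ℂ, ‖ζ - 0‖ = 2 * R → R ^ T.card ≤ ‖∏ w ∈ T, (ζ - w)‖ := by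
    intro ζ hζ
    rw [sub_zero] at hζ
    exact prod_norm_ge (fun w hw => ((hTmem w).1 hw).2) hRpos.le (by rw [hζ]; linarith)
  have hFb : ∀ ζ : ℂ, ‖ζ - 0‖ ≤ 2 * R → ‖F ζ‖ ≤ Q := by
    intro ζ hζ
    refine norm_le_of_sphere hF (c := 0) (R := 2 * R) (by positivity) ?_ hζ
    intro η hη
    rw [hQ, le_div_iff₀ (by positivity)]
    calc ‖F η‖ * R ^ T.card ≤ ‖F η‖ * ‖∏ w ∈ T, (η - w)‖ := by
          gcongr
          exact hprod η hη
      _ = ‖L η‖ := by rw [hLF η, norm_mul, mul_comm]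
      _ ≤ A * Real.exp (B * ‖η‖) := hLb η
      _ = A * Real.exp (2 * B * R) := by
          rw [sub_zero] at hη
          rw [hη]; ring_nf
  have hF0 : ‖L 0‖ ≤ R ^ T.card * ‖F 0‖ := by
    rw [hLF 0, norm_mul]
    gcongr
    exact prod_norm_zero_le (fun w hw => ((hTmem w).1 hw).2)
  have hF0pos : 0 < ‖F 0‖ := by
    by_contra h
    have : ‖F 0‖ = 0 := le_antisymm (not_lt.1 h) (norm_nonneg _)
    rw [this, mul_zero] at hF0
    linarith
  have hFne : ∀ ζ ∈ ball (0 : ℂ) R, F ζ ≠ 0 := by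
    intro ζ hζ hz0
    have h1 := (hFz ζ).1 hz0
    have h2 : ‖ζ‖ < R := by simpa using hζ
    exact h1.2 ((hTmem ζ).2 ⟨h1.1, h2.le⟩)
  obtain ⟨g, hg, hg0, hgexp⟩ := exists_log_ball hRpos hF.differentiableOn hFne
  set M : ℝ := Real.log (A / ‖L 0‖) + 2 * B * R + 1 with hM
  have hMpos : 0 < M := by positivity
  have hMm : M ≤ m * R := by
    rw [hM, hm]; nlinarith
  have hexpM : Real.exp M = (A / ‖L 0‖) * Real.exp (2 * B * R) * Real.exp 1 := by
    rw [hM, Real.exp_add, Real.exp_add, Real.exp_log (by positivity)]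
  have hQM : Q / ‖F 0‖ ≤ Real.exp M := by
    rw [div_le_iff₀ hF0pos, hexpM, hQ, div_le_iff₀ (by positivity)]
    have h1 : 1 ≤ Real.exp 1 := Real.one_le_exp zero_le_one
    calc A * Real.exp (2 * B * R) = (A * Real.exp (2 * B * R)) * (‖L 0‖ / ‖L 0‖) := by
          rw [div_self hn0.ne', mul_one]
      _ ≤ (A * Real.exp (2 * B * R)) * ((R ^ T.card * ‖F 0‖) / ‖L 0‖) := by gcongr
      _ ≤ (A * Real.exp (2 * B * R)) * ((R ^ T.card * ‖F 0‖) / ‖L 0‖) * Real.exp 1 :=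
          le_mul_of_one_le_right (by positivity) h1
      _ = _ := by ring
  have hre : MapsTo g (ball 0 R) {z | z.re ≤ M} := by
    intro ζ hζ
    have h1 : ‖F ζ‖ ≤ Q := hFb ζ (by
      have : ‖ζ‖ < R := by simpa using hζ
      rw [sub_zero]; linarith)
    rw [hgexp ζ hζ, norm_mul, Complex.norm_exp] at h1
    have h2 : Real.exp (g ζ).re ≤ Real.exp M := by
      refine le_trans ?_ hQM
      rw [le_div_iff₀ hF0pos, mul_comm]
      exact h1
    exact Real.exp_le_exp.1 h2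
  have hgb : ∀ ζ : ℂ, ‖ζ‖ = R / 2 → ‖g ζ‖ ≤ 2 * M := by
    intro ζ hζ
    have hzR : ζ ∈ ball (0 : ℂ) R := by
      simp only [mem_ball, dist_zero_right]
      rw [hζ]; linarith
    refine (Complex.borelCaratheodory_zero hMpos hg hre hRpos hzR hg0).trans ?_
    rw [hζ, div_le_iff₀ (by linarith)]
    nlinarith
  have hsub : closedBall (0 : ℂ) (R / 2) ⊆ ball 0 R := closedBall_subset_ball (by linarith)
  have hnb : ball (0 : ℂ) R ∈ 𝓝 (0 : ℂ) := ball_mem_nhds _ hRpos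
  set g1 : ℂ → ℂ := dslope g 0 with hg1
  have hg1d : DifferentiableOn ℂ g1 (ball 0 R) := (Complex.differentiableOn_dslope hnb).2 hg
  set g2 : ℂ → ℂ := dslope g1 0 with hg2
  have hg2d : DifferentiableOn ℂ g2 (ball 0 R) := (Complex.differentiableOn_dslope hnb).2 hg1d
  have hgg1 : ∀ z, g z = z * g1 z := by
    intro z
    have := sub_smul_dslope g 0 z
    rw [smul_eq_mul, hg0, sub_zero, sub_zero] at this
    exact this.symm
  have hg1g2 : ∀ z, g1 z = g1 0 + z * g2 z := by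
    intro z
    have := sub_smul_dslope g1 0 z
    rw [smul_eq_mul, sub_zero] at this
    rw [hg2, this]; ring
  have hg1b : ∀ ζ : ℂ, ‖ζ - 0‖ ≤ R / 2 → ‖g1 ζ‖ ≤ 4 * M / R := by
    intro ζ hζ
    refine norm_le_of_sphere' (R := R / 2) (by positivity) (hg1d.mono hsub) ?_ hζ
    intro η hη
    rw [sub_zero] at hη
    have h1 := hgb η hη
    rw [hgg1, norm_mul, hη] at h1
    rw [le_div_iff₀ hRpos]
    nlinarith
  have hg2b : ∀ ζ : ℂ, ‖ζ - 0‖ ≤ R / 2 → ‖g2 ζ‖ ≤ 16 * M / R ^ 2 := by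
    intro ζ hζ
    refine norm_le_of_sphere' (R := R / 2) (by positivity) (hg2d.mono hsub) ?_ hζ
    intro η hη
    have h1 := hg1b η hη.le
    have h2 := hg1b 0 (by simp; positivity)
    rw [sub_zero] at hη
    have h3 : η * g2 η = g1 η - g1 0 := by rw [hg1g2 η]; ring
    have h4 : ‖η‖ * ‖g2 η‖ ≤ 4 * M / R + 4 * M / R := by
      rw [← norm_mul, h3]
      exact (norm_sub_le _ _).trans (add_le_add h1 h2)
    rw [hη] at h4
    rw [le_div_iff₀ (by positivity)]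
    have h5 : R / 2 * ‖g2 η‖ * (2 * R) ≤ (4 * M / R + 4 * M / R) * (2 * R) := by gcongr
    have h6 : (4 * M / R + 4 * M / R) * (2 * R) = 16 * M := by field_simp; ring
    rw [h6] at h5
    linarith
  refine ⟨g1 0, ?_, T, fun w hw => ((hTmem w).1 hw).1, ?_⟩
  · refine (hg1b 0 (by simp; positivity)).trans ?_
    rw [div_le_iff₀ hRpos]
    nlinarith
  · intro z hz
    have hzb : z ∈ ball (0 : ℂ) R := hsub (by simpa using hz)
    have hgz : (g z).re ≤ (g1 0 * z).re + 16 * m * ‖z‖ ^ 2 / R := by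
      have h1 : g z = g1 0 * z + z ^ 2 * g2 z := by
        rw [hgg1 z, hg1g2 z]; ring
      rw [h1, Complex.add_re]
      have h2 : (z ^ 2 * g2 z).re ≤ ‖z‖ ^ 2 * (16 * M / R ^ 2) := by
        refine (Complex.re_le_norm _).trans ?_
        rw [norm_mul, norm_pow]
        gcongr
        exact hg2b z (by simpa using hz)
      have h3 : ‖z‖ ^ 2 * (16 * M / R ^ 2) ≤ 16 * m * ‖z‖ ^ 2 / R := by
        rw [mul_div_assoc', div_le_div_iff₀ (by positivity) hRpos]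
        have h4 : 0 ≤ ‖z‖ ^ 2 := by positivity
        calc ‖z‖ ^ 2 * (16 * M) * R ≤ ‖z‖ ^ 2 * (16 * (m * R)) * R := by gcongr
          _ = 16 * m * ‖z‖ ^ 2 * R ^ 2 := by ring
      linarith
    have hLz : ‖L z‖ = (∏ w ∈ T, ‖z - w‖) * (‖F 0‖ * Real.exp (g z).re) := by
      rw [hLF z, norm_mul, norm_prod, hgexp z hzb, norm_mul, Complex.norm_exp]
    have hL0 : ‖L 0‖ = (∏ w ∈ T, ‖w‖) * ‖F 0‖ := by
      rw [hLF 0, norm_mul, norm_prod]
      simp
    have hpr : ∏ w ∈ T, ‖z - w‖ ≤ (∏ w ∈ T, ‖w‖) * ∏ w ∈ T, (1 + ‖z‖ / ‖w‖) := by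
      rw [← Finset.prod_mul_distrib]
      refine Finset.prod_le_prod (fun _ _ => norm_nonneg _) (fun w hw => ?_)
      have hw0 : 0 < ‖w‖ := by
        rw [norm_pos_iff]
        rintro rfl
        exact h0 ((hTmem 0).1 hw).1
      have : ‖w‖ * (1 + ‖z‖ / ‖w‖) = ‖w‖ + ‖z‖ := by field_simp
      rw [this]
      have := norm_sub_le z w
      linarith
    have hP0 : 0 ≤ ∏ w ∈ T, ‖w‖ := Finset.prod_nonneg fun _ _ => norm_nonneg _
    have hP1 : 0 ≤ ∏ w ∈ T, (1 + ‖z‖ / ‖w‖) := Finset.prod_nonneg fun _ _ => by positivity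
    rw [hLz, hL0]
    calc (∏ w ∈ T, ‖z - w‖) * (‖F 0‖ * Real.exp (g z).re)
        ≤ ((∏ w ∈ T, ‖w‖) * ∏ w ∈ T, (1 + ‖z‖ / ‖w‖)) *
            (‖F 0‖ * Real.exp ((g1 0 * z).re + 16 * m * ‖z‖ ^ 2 / R)) := by
          gcongr
      _ = _ := by ring

/-- An entire function of exponential type with simple zeros `w` and `∑ 1/|w| < ∞` is
an exponential times a function of minimal type. -/
theorem minimal_type {L : ℂ → ℂ} (hL : Differentiable ℂ L) (hs : ∀ z, L z = 0 → deriv L z ≠ 0)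
    {A B : ℝ} (hB : 0 ≤ B) (hLb : ∀ z, ‖L z‖ ≤ A * Real.exp (B * ‖z‖)) (h0 : L 0 ≠ 0)
    (hsum : Summable (fun w : {w : ℂ // L w = 0} => 1 / ‖(w : ℂ)‖)) :
    ∃ a : ℂ, ∀ ε : ℝ, 0 < ε → ∃ C : ℝ, ∀ z : ℂ,
      ‖L z‖ ≤ C * Real.exp ((a * z).re + ε * ‖z‖) := by
  obtain ⟨K, hK, hrep⟩ := local_rep hL hs hB hLb h0
  choose a ha T hT hbound using fun n : ℕ => hrep ((n : ℝ) + 1) (by linarith [Nat.cast_nonneg (α := ℝ) n])
  obtain ⟨a0, -, φ, hφ, hlim⟩ := (isCompact_closedBall (0 : ℂ) K).tendsto_subseq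
    (x := a) (fun n => by simpa using ha n)
  refine ⟨a0, fun ε hε => ?_⟩
  obtain ⟨C, hC, hprod⟩ := prod_one_add_le h0 hsum hε
  refine ⟨‖L 0‖ * C, fun z => ?_⟩
  have hn : Tendsto (fun n : ℕ => ((φ n : ℕ) : ℝ) + 1) atTop atTop :=
    (tendsto_natCast_atTop_atTop.comp hφ.tendsto_atTop).atTop_add tendsto_const_nhds
  have hev : ∀ᶠ n in atTop, ‖L z‖ ≤ ‖L 0‖ * (C * Real.exp (ε * ‖z‖)) *
      Real.exp ((a (φ n) * z).re + K * ‖z‖ ^ 2 / (((φ n : ℕ) : ℝ) + 1)) := by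
    filter_upwards [hn.eventually_ge_atTop (2 * ‖z‖)] with n hn1
    refine (hbound (φ n) z (by linarith)).trans ?_
    gcongr
    exact hprod (T (φ n)) (hT (φ n)) _ (norm_nonneg _)
  have hlim2 : Tendsto (fun n => ‖L 0‖ * (C * Real.exp (ε * ‖z‖)) *
      Real.exp ((a (φ n) * z).re + K * ‖z‖ ^ 2 / (((φ n : ℕ) : ℝ) + 1))) atTop
      (𝓝 (‖L 0‖ * (C * Real.exp (ε * ‖z‖)) * Real.exp ((a0 * z).re + 0))) := by
    refine Tendsto.const_mul _ ((Real.continuous_exp.tendsto _).comp (Tendsto.add ?_ ?_))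
    · exact (Complex.continuous_re.tendsto _).comp (hlim.mul_const z)
    · exact tendsto_const_nhds.div_atTop hn
  have hfin := ge_of_tendsto hlim2 hev
  refine hfin.trans (le_of_eq ?_)
  rw [add_zero, Real.exp_add]
  ring

end Pool.Agent.H83
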