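import Mathlib
import Pool.Agent.H83.Interp
import Pool.Agent.H83.Zeros3

set_option autoImplicit false

open Filter Set MeasureTheory Complex Metric
open scoped Topology Real

namespace Pool.Agent.H83

/-- Radius attached to a zero. -/
noncomputable def rh (c : ℝ) (w : ℂ) : ℝ := Real.exp (-(3 * (c / 20)) * ‖w‖)

theorem rh_pos (c : ℝ) (w : ℂ) : 0 < rh c w := Real.exp_pos _

theorem rh_le_one {c : ℝ} (hc : 0 < c) (w : ℂ) : rh c w ≤ 1 := by
  rw [rh, Real.exp_le_one_iff]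
  have := norm_nonneg w
  nlinarith

/-- A point which is far from all zeros in the relevant sense. -/
def Good (L : ℂ → ℂ) (c : ℝ) (z : ℂ) : Prop := ∀ w, L w = 0 → rh c w / 2 ≤ ‖z - w‖

/-- Facts about large zeros. -/
structure Big (L : ℂ → ℂ) (c R : ℝ) : Prop where
  one : 1 ≤ R
  low : ∀ w, L w = 0 → R < ‖w‖ → ∀ z, ‖z - w‖ ≤ rh c w → 3 / 4 * ‖deriv L w‖ * ‖z - w‖ ≤ ‖L z‖
  up : ∀ w, L w = 0 → R < ‖w‖ → ∀ z, ‖z - w‖ ≤ rh c w → ‖L z‖ ≤ 5 / 4 * ‖deriv L w‖ * ‖z - w‖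
  der : ∀ w, L w = 0 → R < ‖w‖ → ∀ z, ‖z - w‖ ≤ rh c w → 1 / 2 * ‖deriv L w‖ ≤ ‖deriv L z‖
  size : ∀ w, L w = 0 → R < ‖w‖ → Real.exp (c / 2 * ‖w‖) ≤ 3 / 8 * (‖deriv L w‖ * rh c w)
  disj : ∀ w, L w = 0 → R < ‖w‖ → ∀ w', L w' = 0 → R < ‖w'‖ → w ≠ w' → ∀ z,
    ‖z - w‖ ≤ rh c w / 2 → ‖z - w'‖ ≤ rh c w' / 2 → False

variable {L : ℂ → ℂ} {A B c : ℝ}

theorem Hyp.exists_big (h : Hyp L A B c) : ∃ R : ℝ, Big L c R := by
  have hε : 0 < c / 20 := by have := h.hc; positivity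
  obtain ⟨R0, hR0, hloc⟩ := h.locz hε
  have hev : ∀ᶠ r : ℝ in atTop, 8 / 3 * Real.exp (c / 2 * r) ≤ Real.exp ((c - 4 * (c / 20)) * r) :=
    eventually_mul_exp_le (by have := h.hc; linarith)
  obtain ⟨R1, hR1⟩ := eventually_atTop.1 hev
  have hR0' : ∀ w, L w = 0 → max R0 R1 < ‖w‖ → R0 < ‖w‖ := fun w _ hw =>
    lt_of_le_of_lt (le_max_left _ _) hw
  have key : ∀ w, L w = 0 → max R0 R1 < ‖w‖ → ∀ w', L w' = 0 → max R0 R1 < ‖w'‖ → w ≠ w' →
      rh c w' ≤ rh c w → ∀ z, ‖z - w‖ ≤ rh c w / 2 → ‖z - w'‖ ≤ rh c w' / 2 → False := by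
    intro w hw hwR w' hw' _ hne hle z hz hz'
    have h1 : ‖w' - w‖ ≤ rh c w := by
      calc ‖w' - w‖ = ‖(z - w) - (z - w')‖ := by ring_nf
        _ ≤ ‖z - w‖ + ‖z - w'‖ := norm_sub_le _ _
        _ ≤ rh c w := by linarith
    have h2 := ((hloc w hw (hR0' w hw hwR)).1 w' h1).1
    rw [hw', norm_zero] at h2
    have h3 : 0 < ‖deriv L w‖ := norm_pos_iff.2 (h.simple w hw)
    have h4 : 0 < ‖w' - w‖ := norm_pos_iff.2 (sub_ne_zero.2 (Ne.symm hne))
    have h5 : 0 < 3 / 4 * ‖deriv L w‖ * ‖w' - w‖ := by positivity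
    linarith
  refine ⟨max R0 R1, hR0.trans (le_max_left _ _), ?_, ?_, ?_, ?_, ?_⟩
  · intro w hw hwR z hz
    exact ((hloc w hw (hR0' w hw hwR)).1 z hz).1
  · intro w hw hwR z hz
    exact ((hloc w hw (hR0' w hw hwR)).1 z hz).2.1
  · intro w hw hwR z hz
    exact ((hloc w hw (hR0' w hw hwR)).1 z hz).2.2
  · intro w hw hwR
    have h1 := (hloc w hw (hR0' w hw hwR)).2.1
    have h2 := hR1 ‖w‖ ((le_max_right _ _).trans hwR.le)
    have h3 : ‖deriv L w‖ * Real.exp (-(3 * (c / 20)) * ‖w‖) = ‖deriv L w‖ * rh c w := rfl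
    rw [h3] at h1
    linarith
  · intro w hw hwR w' hw' hwR' hne z hz hz'
    rcases le_total (rh c w') (rh c w) with hle | hle
    · exact key w hw hwR w' hw' hwR' hne hle z hz hz'
    · exact key w' hw' hwR' w hw hwR (Ne.symm hne) hle z hz' hz

theorem good_circle (hc : 0 < c) {R : ℝ} (hb : Big L c R) {w0 : ℂ} (hw0 : L w0 = 0)
    (hwR : R < ‖w0‖) {z : ℂ} (hz : ‖z - w0‖ = rh c w0 / 2) (hzR : R + 1 ≤ ‖z‖) : Good L c z := by
  intro w hw
  by_contra hcon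
  push Not at hcon
  by_cases hne : w = w0
  · subst hne
    linarith
  · by_cases hwR' : R < ‖w‖
    · exact hb.disj w0 hw0 hwR w hw hwR' (Ne.symm hne) z hz.le hcon.le
    · push Not at hwR'
      have h1 : ‖z‖ ≤ ‖z - w‖ + ‖w‖ := by
        calc ‖z‖ = ‖(z - w) + w‖ := by ring_nf
          _ ≤ _ := norm_add_le _ _
      have h2 := rh_le_one hc w
      linarith

theorem Big.circle_low {R : ℝ} (hb : Big L c R) {w0 : ℂ} (hw0 : L w0 = 0)
    (hwR : R < ‖w0‖) {z : ℂ} (hz : ‖z - w0‖ = rh c w0 / 2) :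
    Real.exp (c / 2 * ‖w0‖) ≤ ‖L z‖ := by
  have h1 := hb.low w0 hw0 hwR z (by rw [hz]; linarith [rh_pos c w0])
  rw [hz] at h1
  have h2 := hb.size w0 hw0 hwR
  linarith

/-- majorant of the interpolation series at good points. -/
theorem Hyp.summable_maj (h : Hyp L A B c) :
    Summable (fun w : {w : ℂ // L w = 0} => 2 * (Real.exp (3 * (c / 20) * ‖(w : ℂ)‖) /
      ‖deriv L w‖)) :=
  (h.summable_inv (β := 3 * (c / 20)) (by have := h.hc; linarith)).mul_left 2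

theorem Good.term (hg : ∀ w, L w = 0 → deriv L w ≠ 0) {z : ℂ} (hz : Good L c z)
    (w : {w : ℂ // L w = 0}) : ‖1 / (deriv L w * (z - w))‖ ≤
      2 * (Real.exp (3 * (c / 20) * ‖(w : ℂ)‖) / ‖deriv L w‖) := by
  have hD : 0 < ‖deriv L (w : ℂ)‖ := norm_pos_iff.2 (hg w w.2)
  have h1 := hz w w.2
  have h2 := rh_pos c w
  have h3 : 0 < ‖z - w‖ := by linarith
  rw [norm_div, norm_one, norm_mul]
  have h4 : Real.exp (3 * (c / 20) * ‖(w : ℂ)‖) = (rh c w)⁻¹ := by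
    rw [rh, ← Real.exp_neg]; congr 1; ring
  rw [h4]
  calc 1 / (‖deriv L (w : ℂ)‖ * ‖z - w‖) ≤ 1 / (‖deriv L (w : ℂ)‖ * (rh c w / 2)) := by
        apply one_div_le_one_div_of_le (by positivity)
        exact mul_le_mul_of_nonneg_left h1 hD.le
    _ = 2 * ((rh c w)⁻¹ / ‖deriv L (w : ℂ)‖) := by field_simp

/-- `E` is bounded where `|L| ≥ 1`. -/
theorem Hyp.E_bound (h : Hyp L A B c) {E : ℂ → ℂ} (hE : Differentiable ℂ E)
    (hEf : ∀ z, L z ≠ 0 → E z = 1 / L z - ∑' w : {w : ℂ // L w = 0}, 1 / (deriv L w * (z - w))) :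
    ∃ R0 K0 : ℝ, 0 ≤ K0 ∧ ∀ z, R0 < ‖z‖ → 1 ≤ ‖L z‖ → ‖E z‖ ≤ 1 + K0 := by
  obtain ⟨R, hb⟩ := h.exists_big
  set K0 := ∑' w : {w : ℂ // L w = 0}, 2 * (Real.exp (3 * (c / 20) * ‖(w : ℂ)‖) /
      ‖deriv L (w : ℂ)‖) with hK0
  have hgood : ∀ z, Good L c z → 1 ≤ ‖L z‖ → ‖E z‖ ≤ 1 + K0 := by
    intro z hz hL1
    have hLz : L z ≠ 0 := by
      intro h0
      rw [h0, norm_zero] at hL1
      linarith
    rw [hEf z hLz]
    refine (norm_sub_le _ _).trans ?_
    apply add_le_add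
    · rw [norm_div, norm_one, div_le_one (by linarith)]
      exact hL1
    · exact tsum_of_norm_bounded h.summable_maj.hasSum (fun w => Good.term h.simple hz w)
  refine ⟨R + 3, K0, tsum_nonneg fun w => by positivity, fun z hz hL1 => ?_⟩
  by_cases hg : Good L c z
  · exact hgood z hg hL1
  · unfold Good at hg
    push Not at hg
    obtain ⟨w0, hw0, hzw⟩ := hg
    have h1 := rh_le_one h.hc w0
    have h2 := rh_pos c w0
    have h3 : ‖z‖ ≤ ‖z - w0‖ + ‖w0‖ := by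
      calc ‖z‖ = ‖(z - w0) + w0‖ := by ring_nf
        _ ≤ _ := norm_add_le _ _
    have hwR : R < ‖w0‖ := by linarith
    apply norm_le_of_sphere hE (c := w0) (R := rh c w0 / 2) (by positivity) _ hzw.le
    intro u hu
    have h4 : ‖z‖ ≤ ‖u‖ + 1 := by
      calc ‖z‖ = ‖u + ((z - w0) - (u - w0))‖ := by ring_nf
        _ ≤ ‖u‖ + ‖(z - w0) - (u - w0)‖ := norm_add_le _ _
        _ ≤ ‖u‖ + (‖z - w0‖ + ‖u - w0‖) := by gcongr; exact norm_sub_le _ _
        _ ≤ ‖u‖ + 1 := by linarith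
    apply hgood u (good_circle h.hc hb hw0 hwR hu (by linarith))
    refine le_trans ?_ (hb.circle_low hw0 hwR hu)
    apply Real.one_le_exp
    have := h.hc
    positivity

/-- There are far away good points where `L` is large. -/
theorem Hyp.exists_good (h : Hyp L A B c) (n : ℝ) :
    ∃ z, n < ‖z‖ ∧ n ≤ ‖L z‖ ∧ Good L c z := by
  obtain ⟨R, hb⟩ := h.exists_big
  have hc := h.hc
  have hev : ∀ᶠ x : ℝ in atTop, n ≤ Real.exp (c / 2 * x) :=
    (Real.tendsto_exp_atTop.comp (tendsto_id.const_mul_atTop (by positivity : 0 < c / 2))).eventually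
      (eventually_ge_atTop n)
  obtain ⟨R1, hR1⟩ := eventually_atTop.1 hev
  set N := max (max (n + 1) (R + 3)) (max R1 1) with hN
  have hN1 : n + 1 ≤ N := (le_max_left _ _).trans (le_max_left _ _)
  have hN2 : R + 3 ≤ N := (le_max_right _ _).trans (le_max_left _ _)
  have hN3 : R1 ≤ N := (le_max_left _ _).trans (le_max_right _ _)
  have hN4 : 1 ≤ N := (le_max_right _ _).trans (le_max_right _ _)
  obtain ⟨r, hr, hLr⟩ := h.pos 1 norm_one (N + 1)
  rw [mul_one] at hLr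
  have hrn : ‖(r : ℂ)‖ = r := by
    rw [Complex.norm_real, Real.norm_eq_abs, abs_of_pos (by linarith)]
  by_cases hg : Good L c (r : ℂ)
  · refine ⟨r, by rw [hrn]; linarith, ?_, hg⟩
    have h1 := hR1 r (by linarith)
    have h2 : Real.exp (c / 2 * r) ≤ Real.exp (c * r) := Real.exp_le_exp.2 (by nlinarith)
    linarith
  · unfold Good at hg
    push Not at hg
    obtain ⟨w0, hw0, hzw⟩ := hg
    have h1 := rh_le_one hc w0
    have h2 := rh_pos c w0
    have h3 : ‖(r : ℂ)‖ ≤ ‖(r : ℂ) - w0‖ + ‖w0‖ := by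
      calc ‖(r : ℂ)‖ = ‖((r : ℂ) - w0) + w0‖ := by ring_nf
        _ ≤ _ := norm_add_le _ _
    have hwN : N + 1 / 2 < ‖w0‖ := by linarith
    have hwR : R < ‖w0‖ := by linarith
    set u : ℂ := w0 + ((rh c w0 / 2 : ℝ) : ℂ) with hu
    have hun : ‖u - w0‖ = rh c w0 / 2 := by
      rw [hu, add_sub_cancel_left, Complex.norm_real, Real.norm_eq_abs, abs_of_pos (by positivity)]
    have h4 : ‖w0‖ ≤ ‖u - w0‖ + ‖u‖ := by
      calc ‖w0‖ = ‖u - (u - w0)‖ := by ring_nf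
        _ ≤ ‖u‖ + ‖u - w0‖ := norm_sub_le _ _
        _ = _ := add_comm _ _
    refine ⟨u, by linarith, ?_, good_circle hc hb hw0 hwR hun (by linarith)⟩
    refine le_trans (hR1 ‖w0‖ (by linarith)) (hb.circle_low hw0 hwR hun)

/-- If `E` is constant then it is zero. -/
theorem Hyp.E_const (h : Hyp L A B c) {E : ℂ → ℂ}
    (hEf : ∀ z, L z ≠ 0 → E z = 1 / L z - ∑' w : {w : ℂ // L w = 0}, 1 / (deriv L w * (z - w)))
    {e : ℂ} (hconst : ∀ z, E z = e) : e = 0 := by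
  choose z hz1 hz2 hz3 using fun n : ℕ => h.exists_good ((n : ℝ) + 1)
  have hzn : Tendsto (fun n => ‖z n‖) atTop atTop := by
    apply tendsto_atTop_mono (fun n => (hz1 n).le)
    exact tendsto_atTop_add_const_right _ _ tendsto_natCast_atTop_atTop
  have hLn : Tendsto (fun n => ‖L (z n)‖) atTop atTop := by
    apply tendsto_atTop_mono (fun n => hz2 n)
    exact tendsto_atTop_add_const_right _ _ tendsto_natCast_atTop_atTop
  have hL0 : ∀ n, L (z n) ≠ 0 := by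
    intro n h0
    have := hz2 n
    rw [h0, norm_zero] at this
    have h3 : (0 : ℝ) ≤ n := Nat.cast_nonneg n
    linarith
  have t1 : Tendsto (fun n => 1 / L (z n)) atTop (𝓝 0) := by
    rw [tendsto_zero_iff_norm_tendsto_zero]
    have : (fun n => ‖1 / L (z n)‖) = fun n => (‖L (z n)‖)⁻¹ := by
      funext n; rw [norm_div, norm_one, one_div]
    rw [this]
    exact hLn.inv_tendsto_atTop
  have t2 : Tendsto (fun n => ∑' w : {w : ℂ // L w = 0}, 1 / (deriv L w * (z n - w))) atTop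
      (𝓝 (∑' _ : {w : ℂ // L w = 0}, (0 : ℂ))) := by
    apply tendsto_tsum_of_dominated_convergence h.summable_maj
    · intro w
      rw [tendsto_zero_iff_norm_tendsto_zero]
      have hD : 0 < ‖deriv L (w : ℂ)‖ := norm_pos_iff.2 (h.simple w w.2)
      have h5 : Tendsto (fun n => ‖deriv L (w : ℂ)‖ * ‖z n - w‖) atTop atTop := by
        apply Tendsto.const_mul_atTop hD
        apply tendsto_atTop_mono (fun n => (norm_sub_norm_le (z n) (w : ℂ)))
        exact tendsto_atTop_add_const_right _ _ hzn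
      have : (fun n => ‖1 / (deriv L w * (z n - w))‖) =
          fun n => (‖deriv L (w : ℂ)‖ * ‖z n - w‖)⁻¹ := by
        funext n; rw [norm_div, norm_one, one_div, norm_mul]
      rw [this]
      exact h5.inv_tendsto_atTop
    · exact Eventually.of_forall fun n w => Good.term h.simple (hz3 n) w
  rw [tsum_zero] at t2
  have t3 := t1.sub t2
  rw [sub_zero] at t3
  have t4 : Tendsto (fun _ : ℕ => e) atTop (𝓝 0) := by
    refine t3.congr (fun n => ?_)
    rw [← hEf (z n) (hL0 n), hconst]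
  exact tendsto_nhds_unique tendsto_const_nhds t4

end Pool.Agent.H83
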