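import Mathlib
import Pool.Agent.H83.Remainder

set_option autoImplicit false

open Filter Set MeasureTheory Complex Metric
open scoped Topology Real

namespace Pool.Agent.H83

variable {L : ℂ → ℂ} {A B c : ℝ}

theorem Hyp.not_min (h : Hyp L A B c) (hmin : ∃ a : ℂ, ∀ ε : ℝ, 0 < ε → ∃ C : ℝ, ∀ z : ℂ,
      ‖L z‖ ≤ C * Real.exp ((a * z).re + ε * ‖z‖)) : False := by
  obtain ⟨a, ha⟩ := hmin
  have hc := h.hc
  obtain ⟨C, hC⟩ := ha (c / 2) (by positivity)
  have hC0 : 0 ≤ C := by
    have h1 := (norm_nonneg _).trans (hC 0)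
    by_contra hneg
    push Not at hneg
    have := mul_neg_of_neg_of_pos hneg (Real.exp_pos ((a * 0).re + c / 2 * ‖(0 : ℂ)‖))
    linarith
  obtain ⟨e, he, hae⟩ : ∃ e : ℂ, ‖e‖ = 1 ∧ (a * e).re ≤ 0 := by
    by_cases hre : a.re ≤ 0
    · exact ⟨1, norm_one, by simpa using hre⟩
    · exact ⟨-1, by simp, by push Not at hre; simp; linarith⟩
  have hev : ∀ᶠ r : ℝ in atTop, C * Real.exp (c / 2 * r) ≤ Real.exp (c * r) :=
    eventually_mul_exp_le (by linarith)
  obtain ⟨R, hR⟩ := eventually_atTop.1 hev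
  obtain ⟨r, hr, hLr⟩ := h.pos e he (max R 1)
  have hr1 : 1 ≤ r := (le_max_right _ _).trans hr.le
  have h1 := hR r ((le_max_left _ _).trans hr.le)
  have h2 := hC ((r : ℂ) * e)
  have h3 : ‖(r : ℂ) * e‖ = r := by
    rw [norm_mul, he, mul_one, Complex.norm_real, Real.norm_eq_abs, abs_of_pos (by linarith)]
  have h4 : (a * ((r : ℂ) * e)).re = r * (a * e).re := by
    have : a * ((r : ℂ) * e) = (r : ℂ) * (a * e) := by ring
    rw [this, Complex.re_ofReal_mul]
  rw [h3, h4] at h2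
  have h5 : C * Real.exp (r * (a * e).re + c / 2 * r) ≤ C * Real.exp (c / 2 * r) := by
    apply mul_le_mul_of_nonneg_left _ hC0
    apply Real.exp_le_exp.2
    nlinarith
  linarith

theorem Hyp.not_summable (h : Hyp L A B c) :
    ¬ Summable (fun w : {w : ℂ // L w = 0} => 1 / ‖(w : ℂ)‖) := by
  intro hsum
  by_cases h0 : L 0 = 0
  · set G := dslope L 0 with hG
    have hGd : Differentiable ℂ G := differentiable_dslope h.diff 0
    have hLG : ∀ z, L z = z * G z := fun z => by
      have := eq_mul_dslope h0 z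
      rwa [sub_zero] at this
    have hG0 : G 0 ≠ 0 := by
      rw [hG, dslope_same]; exact h.simple 0 h0
    have hGs : ∀ z, G z = 0 → deriv G z ≠ 0 := by
      intro z hz hdz
      have h1 : HasDerivAt L (1 * G z + z * deriv G z) z := by
        have h2 := ((hasDerivAt_id z)).mul (hGd z).hasDerivAt
        refine h2.congr_of_eventuallyEq ?_
        exact Eventually.of_forall fun u => hLG u
      apply h.simple z (by rw [hLG, hz, mul_zero])
      rw [h1.deriv, hz, hdz]
      simp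
    have hGb : ∀ z, ‖G z‖ ≤ (A * Real.exp (B * 2)) * Real.exp (B * ‖z‖) := by
      intro z
      have h1 := dslope_bound h.diff (zero_le_one.trans h.hA) h.hB h.growth h0 z
      refine h1.trans (le_of_eq ?_)
      rw [mul_assoc, ← Real.exp_add]
      congr 2
      ring
    have hsumG : Summable (fun w : {w : ℂ // G w = 0} => 1 / ‖(w : ℂ)‖) := by
      have h1 := hsum.comp_injective (i := fun w : {w : ℂ // G w = 0} =>
        (⟨(w : ℂ), by rw [hLG, w.2, mul_zero]⟩ : {w : ℂ // L w = 0})) (by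
          intro x y hxy
          apply Subtype.ext
          exact congrArg (fun w : {w : ℂ // L w = 0} => (w : ℂ)) hxy)
      exact h1
    obtain ⟨a, ha⟩ := minimal_type hGd hGs h.hB hGb hG0 hsumG
    apply h.not_min
    refine ⟨a, fun ε hε => ?_⟩
    obtain ⟨C, hC⟩ := ha (ε / 2) (by positivity)
    refine ⟨2 / ε * C, fun z => ?_⟩
    have h2 := hC z
    have h3 : ‖z‖ ≤ 2 / ε * Real.exp (ε / 2 * ‖z‖) := by
      have h4 := Real.add_one_le_exp (ε / 2 * ‖z‖)
      rw [div_mul_eq_mul_div, le_div_iff₀ hε]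
      linarith
    rw [hLG z, norm_mul]
    calc ‖z‖ * ‖G z‖ ≤ (2 / ε * Real.exp (ε / 2 * ‖z‖)) *
          (C * Real.exp ((a * z).re + ε / 2 * ‖z‖)) :=
          mul_le_mul h3 h2 (norm_nonneg _) (by positivity)
      _ = 2 / ε * C * (Real.exp (ε / 2 * ‖z‖) * Real.exp ((a * z).re + ε / 2 * ‖z‖)) := by ring
      _ = _ := by
          rw [← Real.exp_add]
          congr 2
          ring
  · exact h.not_min (minimal_type h.diff h.simple h.hB h.growth h0 hsum)

/-- The lower bound for the window ratio at large zeros. -/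
theorem Hyp.window (h : Hyp L A B c) {K : ℝ} (hK : 1 ≤ K) : ∃ R : ℝ, Big L c R ∧
    ∀ w, L w = 0 → R < ‖w‖ → LocZ (fun z => L z / K) w (rh c w / 2) ∧
      c / 4 * ‖w‖ ≤ Real.log (dr (rh c w / 2) w / dl (fun z => L z / K) w) := by
  obtain ⟨R, hb⟩ := h.exists_big
  have hc := h.hc
  have hK0 : 0 < K := by linarith
  have hev : ∀ᶠ r : ℝ in atTop, (4 * Real.exp 1 * K) * Real.exp (c / 4 * r) ≤
      Real.exp (c / 2 * r) :=
    eventually_mul_exp_le (by linarith)
  obtain ⟨R1, hR1⟩ := eventually_atTop.1 hev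
  have hb' : Big L c (max R R1) := by
    have hle : R ≤ max R R1 := le_max_left _ _
    exact ⟨hb.one.trans hle, fun w hw hwR => hb.low w hw (lt_of_le_of_lt hle hwR),
      fun w hw hwR => hb.up w hw (lt_of_le_of_lt hle hwR),
      fun w hw hwR => hb.der w hw (lt_of_le_of_lt hle hwR),
      fun w hw hwR => hb.size w hw (lt_of_le_of_lt hle hwR),
      fun w hw hwR w' hw' hwR' => hb.disj w hw (lt_of_le_of_lt hle hwR) w' hw'
        (lt_of_le_of_lt hle hwR')⟩
  refine ⟨max R R1, hb', fun w hw hwR => ?_⟩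
  have hw1 : 1 ≤ ‖w‖ := hb'.one.trans hwR.le
  have hwpos : 0 < ‖w‖ := by linarith
  have hder : ∀ z, deriv (fun z => L z / (K : ℂ)) z = deriv L z / K := by
    intro z
    exact ((h.diff z).hasDerivAt.div_const (K : ℂ)).deriv
  have hnd : ∀ z, ‖deriv (fun z => L z / (K : ℂ)) z‖ = ‖deriv L z‖ / K := by
    intro z
    rw [hder, norm_div, Complex.norm_real, Real.norm_eq_abs, abs_of_pos hK0]
  have hn : ∀ z, ‖L z / (K : ℂ)‖ = ‖L z‖ / K := by
    intro z
    rw [norm_div, Complex.norm_real, Real.norm_eq_abs, abs_of_pos hK0]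
  have hD : 0 < ‖deriv L w‖ := norm_pos_iff.2 (h.simple w hw)
  have hrp := rh_pos c w
  have hr1 := rh_le_one hc w
  have hsize := hb'.size w hw hwR
  have hR1w := hR1 ‖w‖ ((le_max_right _ _).trans hwR.le)
  have he := Real.exp_pos 1
  have hratio : Real.exp (c / 4 * ‖w‖) ≤
      dr (rh c w / 2) w / dl (fun z => L z / (K : ℂ)) w := by
    have h1 : dr (rh c w / 2) w / dl (fun z => L z / (K : ℂ)) w =
        (3 / 8 * (‖deriv L w‖ * rh c w)) / (4 * Real.exp 1 * K) := by
      rw [dr, dl, hnd]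
      field_simp
      ring
    rw [h1, le_div_iff₀ (by positivity)]
    linarith
  have hdl : 0 < dl (fun z => L z / (K : ℂ)) w := by
    rw [dl, hnd]; positivity
  refine ⟨⟨?_, ?_, ?_, ?_, hw1, ?_, ?_⟩, ?_⟩
  · intro z hz
    rw [hnd, hn]
    have h1 := hb'.low w hw hwR z (by linarith)
    calc 3 / 4 * (‖deriv L w‖ / K) * ‖z - w‖ = (3 / 4 * ‖deriv L w‖ * ‖z - w‖) / K := by ring
      _ ≤ ‖L z‖ / K := div_le_div_of_nonneg_right h1 hK0.le
  · intro z hz
    rw [hnd, hn]
    have h1 := hb'.up w hw hwR z (by linarith)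
    calc ‖L z‖ / K ≤ (5 / 4 * ‖deriv L w‖ * ‖z - w‖) / K := div_le_div_of_nonneg_right h1 hK0.le
      _ = _ := by ring
  · intro z hz
    rw [hnd, hnd]
    have h1 := hb'.der w hw hwR z (by linarith)
    calc 1 / 2 * (‖deriv L w‖ / K) = (1 / 2 * ‖deriv L w‖) / K := by ring
      _ ≤ ‖deriv L z‖ / K := div_le_div_of_nonneg_right h1 hK0.le
  · rw [hder]
    exact div_ne_zero (h.simple w hw) (by exact_mod_cast hK0.ne')
  · have h2 : 1 < Real.exp (c / 4 * ‖w‖) := Real.one_lt_exp_iff.2 (by positivity)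
    have h3 := lt_of_lt_of_le h2 hratio
    rwa [lt_div_iff₀ hdl, one_mul] at h3
  · rw [dr, div_le_iff₀ (by positivity)]
    linarith
  · rw [Real.le_log_iff_exp_le (lt_of_lt_of_le (Real.exp_pos _) hratio)]
    exact hratio

end Pool.Agent.H83
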