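import Mathlib
import Pool.Agent.H83.MainI

set_option autoImplicit false

open Filter Set MeasureTheory Complex Metric
open scoped Topology Real

namespace Pool.Agent.H83

variable {L : ℂ → ℂ} {A B c : ℝ}

/-- The interpolation formula for the reciprocal. -/
theorem Hyp.interp (h : Hyp L A B c) (z : ℂ) (hz : L z ≠ 0) :
    1 / L z = ∑' w : {w : ℂ // L w = 0}, 1 / (deriv L w * (z - w)) := by
  obtain ⟨E, hE, hEf, A', B', hA', hB', hEg⟩ := h.exists_E
  by_contra hcon
  have hEz : E z ≠ 0 := by
    rw [hEf z hz]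
    exact sub_ne_zero.2 hcon
  have hc := h.hc
  obtain ⟨R0, K0, hK0, hER⟩ := h.E_bound hE hEf
  set K1 : ℝ := ‖L 0‖ + 1 with hK1
  set K2 : ℝ := 1 + K0 + ‖E 0‖ with hK2
  have hK1p : 1 ≤ K1 := by have := norm_nonneg (L 0); linarith
  have hK2p : 1 ≤ K2 := by have := norm_nonneg (E 0); linarith
  set f1 : ℂ → ℂ := fun z => L z / (K1 : ℂ) with hf1
  set f2 : ℂ → ℂ := fun z => E z / (K2 : ℂ) with hf2
  have n1 : ∀ z, ‖f1 z‖ = ‖L z‖ / K1 := by
    intro z
    rw [hf1]
    simp only
    rw [norm_div, Complex.norm_real, Real.norm_eq_abs, abs_of_pos (by linarith)]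
  have n2 : ∀ z, ‖f2 z‖ = ‖E z‖ / K2 := by
    intro z
    rw [hf2]
    simp only
    rw [norm_div, Complex.norm_real, Real.norm_eq_abs, abs_of_pos (by linarith)]
  have hd1 : Differentiable ℂ f1 := h.diff.div_const _
  have hd2 : Differentiable ℂ f2 := hE.div_const _
  -- `E` is unbounded
  have hunb : ∃ z, 1 < ‖f2 z‖ := by
    by_contra hb
    push Not at hb
    have hb' : Bornology.IsBounded (range E) := by
      rw [isBounded_iff_forall_norm_le]
      refine ⟨K2, ?_⟩
      rintro _ ⟨x, rfl⟩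
      have := hb x
      rw [n2, div_le_one (by linarith)] at this
      exact this
    obtain ⟨e, he⟩ := hE.exists_eq_const_of_bounded hb'
    have he' : ∀ z, E z = e := fun z => by rw [he]; rfl
    have := h.E_const hEf he'
    exact hEz (by rw [he' z, this])
  have hunb1 : ∃ z, 1 < ‖f1 z‖ := by
    obtain ⟨z, _, hz2, _⟩ := h.exists_good (K1 + 1)
    refine ⟨z, ?_⟩
    rw [n1, lt_div_iff₀ (by linarith)]
    linarith
  obtain ⟨T0, C, M, hC, hmm, hM⟩ := acf_main hd1 hd2 (A1 := A) (B1 := B) (A2 := max 1 A')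
    (B2 := B') h.hA h.hB (le_max_left _ _) hB'
    (by
      intro z
      rw [n1]
      refine (div_le_self (norm_nonneg _) hK1p).trans (h.growth z))
    (by
      intro z
      rw [n2]
      refine (div_le_self (norm_nonneg _) hK2p).trans ((hEg z).trans ?_)
      exact mul_le_mul_of_nonneg_right (le_max_right _ _) (Real.exp_pos _).le)
    (by
      rw [n1, div_lt_one (by linarith)]
      linarith)
    (by
      rw [n2, div_lt_one (by linarith)]
      linarith)
    hunb1 hunb (R0 := R0) (by
      intro z hz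
      by_cases h1 : 1 ≤ ‖L z‖
      · right
        rw [n2, div_le_one (by linarith)]
        have := hER z hz h1
        have h3 := norm_nonneg (E 0)
        linarith
      · left
        push Not at h1
        rw [n1, div_le_one (by linarith)]
        linarith)
  obtain ⟨R, hb, hRw⟩ := h.window hK1p
  set R2 := max R (Real.exp T0) with hR2
  have hsr : Summable (fun w : {w : ℂ // L w = 0} => rh c w) :=
    summable_exp_neg h.diff h.simple h.hB h.growth (by positivity : 0 < 3 * (c / 20))
  set Q := ∑' w : {w : ℂ // L w = 0}, rh c w with hQ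
  set κ := c / 4 / (100 * C * Real.exp 2) with hκ
  have hκ0 : 0 < κ := by positivity
  -- finite sums over large zeros are bounded
  have hfin : ∀ u : Finset {w : ℂ // L w = 0}, (∀ w ∈ u, R2 < ‖(w : ℂ)‖) →
      ∑ w ∈ u, 1 / ‖(w : ℂ)‖ ≤ (M + Q) / κ := by
    intro u hu
    have hJR : ∀ w ∈ u.map (Function.Embedding.subtype _), L w = 0 ∧ R < ‖w‖ ∧
        T0 ≤ Real.log ‖w‖ := by
      intro w hw
      rw [Finset.mem_map] at hw
      obtain ⟨v, hv, rfl⟩ := hw
      have h1 := hu v hv
      refine ⟨v.2, lt_of_le_of_lt (le_max_left _ _) h1, ?_⟩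
      have h2 : Real.exp T0 < ‖(v : ℂ)‖ := lt_of_le_of_lt (le_max_right _ _) h1
      exact (Real.le_log_iff_exp_le (lt_trans (Real.exp_pos _) h2)).2 h2.le
    have hz := zero_sum hd1 hC hmm hM (J := u.map (Function.Embedding.subtype _))
      (ρ := fun w => rh c w / 2)
      (fun w hw => (hRw w (hJR w hw).1 (hJR w hw).2.1).1)
      (fun w hw w' hw' hne z hz1 hz2 => hb.disj w (hJR w hw).1 (hJR w hw).2.1 w'
        (hJR w' hw').1 (hJR w' hw').2.1 hne z hz1 hz2)
      (fun w hw => (hJR w hw).2.2)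
    rw [Finset.sum_map] at hz
    simp only [Function.Embedding.subtype_apply] at hz
    have hterm : ∀ w ∈ u, κ * (1 / ‖(w : ℂ)‖) - rh c w ≤
        1 / (100 * C * Real.exp 2 * ‖(w : ℂ)‖ ^ 2) * Real.log (dr (rh c w / 2) w / dl f1 w)
          - 4 * (dr (rh c w / 2) w - dl f1 w) := by
      intro w hw
      have hwJ := hJR w (Finset.mem_map_of_mem _ hw)
      have h1 := hRw w hwJ.1 hwJ.2.1
      have hw1 : 1 ≤ ‖(w : ℂ)‖ := hb.one.trans hwJ.2.1.le
      have hrp := rh_pos c w
      have h2 : κ * (1 / ‖(w : ℂ)‖) ≤ 1 / (100 * C * Real.exp 2 * ‖(w : ℂ)‖ ^ 2) *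
          Real.log (dr (rh c w / 2) w / dl f1 w) := by
        have h3 : κ * (1 / ‖(w : ℂ)‖) = 1 / (100 * C * Real.exp 2 * ‖(w : ℂ)‖ ^ 2) *
            (c / 4 * ‖(w : ℂ)‖) := by
          rw [hκ]
          have : ‖(w : ℂ)‖ ≠ 0 := by linarith
          field_simp
        rw [h3]
        exact mul_le_mul_of_nonneg_left h1.2 (by positivity)
      have h4 : 0 < dl f1 w := by
        have hDp : 0 < ‖deriv f1 (w : ℂ)‖ := norm_pos_iff.2 h1.1.nz
        have : 0 < ‖(w : ℂ)‖ := by linarith
        unfold dl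
        positivity
      have h5 : 4 * dr (rh c w / 2) w ≤ rh c w := by
        rw [dr, mul_div_assoc', div_le_iff₀ (by positivity)]
        nlinarith
      linarith
    have h6 := (Finset.sum_le_sum hterm).trans hz
    rw [Finset.sum_sub_distrib, ← Finset.mul_sum] at h6
    have h7 : ∑ w ∈ u, rh c (w : ℂ) ≤ Q := hsr.sum_le_tsum u (fun w _ => (rh_pos c w).le)
    rw [le_div_iff₀ hκ0]
    linarith
  -- hence summability
  apply h.not_summable
  have hg : Summable (fun w : {w : ℂ // L w = 0} => if R2 < ‖(w : ℂ)‖ then 1 / ‖(w : ℂ)‖ else 0) := by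
    apply summable_of_sum_le (c := (M + Q) / κ)
    · intro w
      simp only [Pi.zero_apply]
      split_ifs
      · positivity
      · exact le_rfl
    · intro u
      rw [← Finset.sum_filter]
      exact hfin _ (fun w hw => (Finset.mem_filter.1 hw).2)
  refine hg.congr_cofinite ?_
  filter_upwards [h.cofin R2] with w hw
  rw [if_pos hw]

end Pool.Agent.H83
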