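import Mathlib
import Pool.Agent.H83.MainII

set_option autoImplicit false

open Filter Set MeasureTheory Complex Metric
open scoped Topology Real

namespace Pool.Agent.H83

variable {L : ℂ → ℂ} {A B c : ℝ}

theorem hasDerivAt_twist (hL : Differentiable ℂ L) (α z : ℂ) :
    HasDerivAt (fun z => L z * Complex.exp (-(α * z)))
      (deriv L z * Complex.exp (-(α * z)) + L z * (Complex.exp (-(α * z)) * -α)) z := by
  have h1 : HasDerivAt (fun z : ℂ => -(α * z)) (-α) z := by
    have := ((hasDerivAt_id z).const_mul α).neg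
    exact this.congr_deriv (by simp)
  exact (hL z).hasDerivAt.mul h1.cexp

/-- The standing hypotheses are stable under multiplication by small exponentials. -/
theorem Hyp.twist (h : Hyp L A B c) {α : ℂ} (hα : ‖α‖ < c) :
    Hyp (fun z => L z * Complex.exp (-(α * z))) A (B + ‖α‖) (c - ‖α‖) := by
  have hα0 := norm_nonneg α
  have hA := h.hA
  have hnexp : ∀ z : ℂ, ‖Complex.exp (-(α * z))‖ = Real.exp (-(α * z).re) := by
    intro z
    rw [Complex.norm_exp, Complex.neg_re]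
  refine ⟨fun z => (hasDerivAt_twist h.diff α z).differentiableAt, ?_, hA, by
    have := h.hB; positivity, ?_, by linarith, ?_, ?_⟩
  · intro z hz
    have hLz : L z = 0 := by
      rcases mul_eq_zero.1 hz with h1 | h1
      · exact h1
      · exact absurd h1 (Complex.exp_ne_zero _)
    rw [(hasDerivAt_twist h.diff α z).deriv, hLz, zero_mul, add_zero]
    exact mul_ne_zero (h.simple z hLz) (Complex.exp_ne_zero _)
  · intro z
    rw [norm_mul, hnexp]
    have h1 : -(α * z).re ≤ ‖α‖ * ‖z‖ := by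
      rw [← norm_mul]
      exact (neg_le_abs _).trans (Complex.abs_re_le_norm _)
    calc ‖L z‖ * Real.exp (-(α * z).re) ≤ (A * Real.exp (B * ‖z‖)) * Real.exp (‖α‖ * ‖z‖) :=
          mul_le_mul (h.growth z) (Real.exp_le_exp.2 h1) (Real.exp_pos _).le (by positivity)
      _ = A * Real.exp ((B + ‖α‖) * ‖z‖) := by
          rw [mul_assoc, ← Real.exp_add]; congr 2; ring
  · intro e he R
    obtain ⟨r, hr, hLr⟩ := h.pos e he (max R 0)
    have hr0 : 0 < r := lt_of_le_of_lt (le_max_right _ _) hr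
    refine ⟨r, lt_of_le_of_lt (le_max_left _ _) hr, ?_⟩
    rw [norm_mul, hnexp]
    have h1 : (α * ((r : ℂ) * e)).re ≤ ‖α‖ * r := by
      have h2 : ‖α * ((r : ℂ) * e)‖ = ‖α‖ * r := by
        rw [norm_mul, norm_mul, he, mul_one, Complex.norm_real, Real.norm_eq_abs, abs_of_pos hr0]
      rw [← h2]
      exact Complex.re_le_norm _
    calc Real.exp ((c - ‖α‖) * r) = Real.exp (c * r) * Real.exp (-(‖α‖ * r)) := by
          rw [← Real.exp_add]; congr 1; ring
      _ ≤ Real.exp (c * r) * Real.exp (-(α * ((r : ℂ) * e)).re) := by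
          apply mul_le_mul_of_nonneg_left _ (Real.exp_pos _).le
          exact Real.exp_le_exp.2 (by linarith)
      _ < ‖L ((r : ℂ) * e)‖ * Real.exp (-(α * ((r : ℂ) * e)).re) :=
          mul_lt_mul_of_pos_right hLr (Real.exp_pos _)
  · intro ε hε
    obtain ⟨τ, hτ⟩ := h.cond ε hε
    refine ⟨τ, fun w hw hwτ => ?_⟩
    have hLw : L w = 0 := by
      rcases mul_eq_zero.1 hw with h1 | h1
      · exact h1
      · exact absurd h1 (Complex.exp_ne_zero _)
    obtain ⟨s, hs1, hs2⟩ := hτ w hLw hwτ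
    set e : ℂ := Complex.exp ((Complex.arg w : ℂ) * Complex.I) with he
    have hwe : ((‖w‖ : ℝ) : ℂ) * e = w := Complex.norm_mul_exp_arg_mul_I w
    refine ⟨s - (α * e).re, ?_, ?_⟩
    · filter_upwards [hs1] with r hr
      rw [norm_mul, hnexp]
      have h1 : (α * ((r : ℂ) * e)).re = r * (α * e).re := by
        have : α * ((r : ℂ) * e) = (r : ℂ) * (α * e) := by ring
        rw [this, Complex.re_ofReal_mul]
      rw [h1]
      calc ‖L ((r : ℂ) * e)‖ * Real.exp (-(r * (α * e).re)) ≤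
            Real.exp (s * r) * Real.exp (-(r * (α * e).re)) :=
            mul_le_mul_of_nonneg_right hr (Real.exp_pos _).le
        _ = Real.exp ((s - (α * e).re) * r) := by
            rw [← Real.exp_add]; congr 1; ring
    · rw [(hasDerivAt_twist h.diff α w).deriv, hLw, zero_mul, add_zero, norm_mul, hnexp]
      have h1 : (α * w).re = ‖w‖ * (α * e).re := by
        have : α * w = ((‖w‖ : ℝ) : ℂ) * (α * e) := by
          conv_lhs => rw [← hwe]
          ring
        rw [this, Complex.re_ofReal_mul]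
      rw [h1]
      calc Real.exp ((s - (α * e).re - ε) * ‖w‖) =
            Real.exp ((s - ε) * ‖w‖) * Real.exp (-(‖w‖ * (α * e).re)) := by
            rw [← Real.exp_add]; congr 1; ring
        _ < ‖deriv L w‖ * Real.exp (-(‖w‖ * (α * e).re)) :=
            mul_lt_mul_of_pos_right hs2 (Real.exp_pos _)

theorem Hyp.twist_interp (h : Hyp L A B c) {α : ℂ} (hα : ‖α‖ < c) {z : ℂ} (hz : L z ≠ 0) :
    Complex.exp (α * z) / L z = ∑' w : {w : ℂ // L w = 0},
      Complex.exp (α * w) / (deriv L w * (z - w)) := by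
  have h1 := (h.twist hα).interp z (mul_ne_zero hz (Complex.exp_ne_zero _))
  have hiff : ∀ w : ℂ, L w * Complex.exp (-(α * w)) = 0 ↔ L w = 0 := by
    intro w
    constructor
    · intro hw
      rcases mul_eq_zero.1 hw with h1 | h1
      · exact h1
      · exact absurd h1 (Complex.exp_ne_zero _)
    · intro hw
      rw [hw, zero_mul]
  have h2 : Complex.exp (α * z) / L z = 1 / (L z * Complex.exp (-(α * z))) := by
    rw [Complex.exp_neg]
    have := Complex.exp_ne_zero (α * z)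
    field_simp
  rw [h2, h1, ← (Equiv.subtypeEquivRight hiff).tsum_eq]
  apply tsum_congr
  intro w
  have hw : L (w : ℂ) = 0 := (hiff w).1 w.2
  rw [(hasDerivAt_twist h.diff α w).deriv, hw, zero_mul, add_zero, Equiv.subtypeEquivRight_apply_coe,
    Complex.exp_neg]
  have h3 := Complex.exp_ne_zero (α * (w : ℂ))
  have h4 := h.simple w hw
  have h5 : z - (w : ℂ) ≠ 0 := by
    intro h0
    rw [sub_eq_zero] at h0
    rw [h0] at hz
    exact hz hw
  field_simp

/-- Lower bound for `L` away from the zeros. -/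
theorem Hyp.lower (h : Hyp L A B c) : ∃ K : ℝ, 0 < K ∧ ∀ (z : ℂ) (δ : ℝ), 0 < δ →
    (∀ w, L w = 0 → δ ≤ ‖z - w‖) → δ * Real.exp (c / 4 * ‖z‖) ≤ K * ‖L z‖ := by
  have hc := h.hc
  have hsum := h.summable_inv (β := c / 4) (by linarith)
  set K := ∑' w : {w : ℂ // L w = 0}, Real.exp (c / 4 * ‖(w : ℂ)‖) / ‖deriv L (w : ℂ)‖ with hK
  have hK0 : 0 ≤ K := tsum_nonneg fun w => by positivity
  refine ⟨K + 1, by positivity, fun z δ hδ hz => ?_⟩
  have hLz : L z ≠ 0 := by
    intro h0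
    have := hz z h0
    rw [sub_self, norm_zero] at this
    linarith
  have hLp : 0 < ‖L z‖ := norm_pos_iff.2 hLz
  obtain ⟨α, hα, hαz⟩ : ∃ α : ℂ, ‖α‖ ≤ c / 4 ∧ α * z = ((c / 4 * ‖z‖ : ℝ) : ℂ) := by
    by_cases hz0 : z = 0
    · exact ⟨0, by rw [norm_zero]; positivity, by rw [hz0]; simp⟩
    · have hzn : 0 < ‖z‖ := norm_pos_iff.2 hz0
      refine ⟨((c / 4 / ‖z‖ : ℝ) : ℂ) * (starRingEnd ℂ) z, ?_, ?_⟩
      · rw [norm_mul, Complex.norm_real, Real.norm_eq_abs, abs_of_pos (by positivity),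
          RCLike.norm_conj]
        apply le_of_eq
        field_simp
      · rw [mul_assoc, mul_comm ((starRingEnd ℂ) z) z, Complex.mul_conj, Complex.normSq_eq_norm_sq,
          ← Complex.ofReal_mul]
        congr 1
        field_simp
  have h1 := h.twist_interp (α := α) (lt_of_le_of_lt hα (by linarith)) hLz
  have h2 : ‖Complex.exp (α * z) / L z‖ ≤ (1 / δ) * K := by
    rw [h1]
    apply tsum_of_norm_bounded (hsum.hasSum.mul_left _)
    intro w
    have hD : 0 < ‖deriv L (w : ℂ)‖ := norm_pos_iff.2 (h.simple w w.2)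
    have hw := hz w w.2
    rw [norm_div, norm_mul, Complex.norm_exp]
    have h3 : (α * (w : ℂ)).re ≤ c / 4 * ‖(w : ℂ)‖ := by
      refine (Complex.re_le_norm _).trans ?_
      rw [norm_mul]
      exact mul_le_mul_of_nonneg_right hα (norm_nonneg _)
    calc Real.exp (α * (w : ℂ)).re / (‖deriv L (w : ℂ)‖ * ‖z - w‖) ≤
          Real.exp (c / 4 * ‖(w : ℂ)‖) / (‖deriv L (w : ℂ)‖ * δ) := by
          apply div_le_div₀ (Real.exp_pos _).le (Real.exp_le_exp.2 h3) (by positivity)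
          exact mul_le_mul_of_nonneg_left hw hD.le
      _ = 1 / δ * (Real.exp (c / 4 * ‖(w : ℂ)‖) / ‖deriv L (w : ℂ)‖) := by field_simp
  rw [hαz, norm_div, Complex.norm_exp, Complex.ofReal_re, div_le_iff₀ hLp] at h2
  have h4 : δ * (1 / δ * K * ‖L z‖) = K * ‖L z‖ := by field_simp
  have h5 := mul_le_mul_of_nonneg_left h2 hδ.le
  rw [h4] at h5
  nlinarith

/-- A radius far from finitely many moduli. -/
theorem exists_radius (T : Finset ℂ) {δ a : ℝ} (hδ : 0 < δ) (h : (T.card : ℝ) * (2 * δ) < 1) :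
    ∃ r ∈ Icc a (a + 1), ∀ w ∈ T, δ ≤ |r - ‖w‖| := by
  by_contra hcon
  push Not at hcon
  have hsub : Icc a (a + 1) ⊆ ⋃ w ∈ T, Ioo (‖w‖ - δ) (‖w‖ + δ) := by
    intro r hr
    obtain ⟨w, hw, hlt⟩ := hcon r hr
    rw [abs_lt] at hlt
    exact mem_iUnion₂.2 ⟨w, hw, by constructor <;> linarith [hlt.1, hlt.2]⟩
  have h1 : volume (Icc a (a + 1)) ≤ ∑ w ∈ T, volume (Ioo (‖w‖ - δ) (‖w‖ + δ)) :=
    (measure_mono hsub).trans (measure_biUnion_finset_le _ _)
  have h2 : ∀ w ∈ T, volume (Ioo (‖w‖ - δ) (‖w‖ + δ)) = ENNReal.ofReal (2 * δ) := by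
    intro w _
    rw [Real.volume_Ioo]
    congr 1
    ring
  rw [Finset.sum_congr rfl h2, Finset.sum_const, Real.volume_Icc, nsmul_eq_mul] at h1
  have h3 : ((T.card : ℕ) : ENNReal) = ENNReal.ofReal (T.card : ℝ) := by
    rw [ENNReal.ofReal_natCast]
  rw [h3, ← ENNReal.ofReal_mul (Nat.cast_nonneg _)] at h1
  rw [ENNReal.ofReal_le_ofReal_iff (by positivity)] at h1
  linarith

theorem Hyp.final (h : Hyp L A B c) : ∃ P : ℝ, 0 < P ∧ ∀ R : ℝ, ∃ r : ℝ, R < r ∧
          ∀ z : ℂ, ‖z‖ = r → Real.exp (P * r) < ‖L z‖ := by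
  have hc := h.hc
  obtain ⟨K, hK, hlow⟩ := h.lower
  obtain ⟨C0, hC0, hcount⟩ := count_linear h.diff h.simple h.hB h.growth
  set C := max C0 1 with hC
  have hC1 : 1 ≤ C := le_max_right _ _
  have hev : ∀ᶠ r : ℝ in atTop, (8 * C * K * (16 / c * Real.exp (3 * c / 16))) *
      Real.exp (3 * c / 16 * r) ≤ Real.exp (c / 4 * r) :=
    eventually_mul_exp_le (by linarith)
  obtain ⟨R1, hR1⟩ := eventually_atTop.1 hev
  refine ⟨c / 8, by positivity, fun R => ?_⟩
  obtain ⟨n, hn⟩ := exists_nat_gt (max R R1)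
  have hn1 : R < n := lt_of_le_of_lt (le_max_left _ _) hn
  have hn2 : R1 < n := lt_of_le_of_lt (le_max_right _ _) hn
  have hn0 : (0 : ℝ) ≤ n := Nat.cast_nonneg n
  set T := (zeros_finite h.diff h.simple ((n : ℝ) + 2)).toFinset with hT
  have hTm : ∀ w, w ∈ T ↔ L w = 0 ∧ ‖w‖ ≤ (n : ℝ) + 2 := by
    intro w
    rw [hT, Set.Finite.mem_toFinset]
    rfl
  have hcard : (T.card : ℝ) ≤ C * (n + 3) := by
    have h1 := hcount ((n : ℝ) + 2) (by positivity) T (fun w hw => (hTm w).1 hw)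
    refine h1.trans ?_
    have h2 : (n : ℝ) + 2 + 1 = n + 3 := by ring
    rw [h2]
    exact mul_le_mul_of_nonneg_right (le_max_left _ _) (by positivity)
  set δ := 1 / (4 * C * (n + 3)) with hδ
  have hδ0 : 0 < δ := by positivity
  have hδ1 : δ ≤ 1 := by
    rw [hδ, div_le_one (by positivity)]
    nlinarith
  obtain ⟨r, hr, hrT⟩ := exists_radius T (δ := δ) (a := n) hδ0 (by
    calc (T.card : ℝ) * (2 * δ) ≤ C * (n + 3) * (2 * δ) :=
          mul_le_mul_of_nonneg_right hcard (by positivity)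
      _ = 1 / 2 := by rw [hδ]; field_simp; norm_num
      _ < 1 := by norm_num)
  refine ⟨r, lt_of_lt_of_le hn1 hr.1, fun z hz => ?_⟩
  have hr0 : 0 ≤ r := hn0.trans hr.1
  have hdist : ∀ w, L w = 0 → δ ≤ ‖z - w‖ := by
    intro w hw
    by_cases hwT : w ∈ T
    · have h1 := hrT w hwT
      rw [← hz] at h1
      exact h1.trans (abs_norm_sub_norm_le z w)
    · have h1 : ¬ ‖w‖ ≤ (n : ℝ) + 2 := fun h2 => hwT ((hTm w).2 ⟨hw, h2⟩)
      push Not at h1
      have h2 : ‖w‖ - ‖z‖ ≤ ‖z - w‖ := by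
        rw [norm_sub_rev]
        exact norm_sub_norm_le w z
      rw [hz] at h2
      linarith [hr.2]
  have h1 := hlow z δ hδ0 hdist
  rw [hz] at h1
  have h2 := hR1 r (hn2.le.trans hr.1)
  have h3 : r + 3 ≤ 16 / c * Real.exp (3 * c / 16) * Real.exp (c / 16 * r) := by
    have h4 := Real.add_one_le_exp (c / 16 * (r + 3))
    have h5 : Real.exp (c / 16 * (r + 3)) = Real.exp (3 * c / 16) * Real.exp (c / 16 * r) := by
      rw [← Real.exp_add]; congr 1; ring
    rw [h5] at h4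
    rw [mul_assoc, div_mul_eq_mul_div, le_div_iff₀ hc]
    linarith
  have h6 : δ * (4 * C * (n + 3)) = 1 := by
    rw [hδ]; field_simp
  have h7 : Real.exp (c / 4 * r) ≤ 4 * C * (n + 3) * (K * ‖L z‖) := by
    calc Real.exp (c / 4 * r) = (4 * C * (n + 3)) * (δ * Real.exp (c / 4 * r)) := by
          rw [← mul_assoc, mul_comm (4 * C * ((n : ℝ) + 3)) δ, h6, one_mul]
      _ ≤ 4 * C * (n + 3) * (K * ‖L z‖) := mul_le_mul_of_nonneg_left h1 (by positivity)
  by_contra hcon
  push Not at hcon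
  have h8 : 4 * C * (n + 3) * (K * ‖L z‖) ≤
      4 * C * K * (16 / c * Real.exp (3 * c / 16)) * Real.exp (3 * c / 16 * r) := by
    calc 4 * C * (n + 3) * (K * ‖L z‖) ≤ 4 * C * (r + 3) * (K * Real.exp (c / 8 * r)) := by
          have := hr.1
          gcongr
      _ ≤ 4 * C * (16 / c * Real.exp (3 * c / 16) * Real.exp (c / 16 * r)) *
          (K * Real.exp (c / 8 * r)) := by gcongr
      _ = 4 * C * K * (16 / c * Real.exp (3 * c / 16)) *
          (Real.exp (c / 16 * r) * Real.exp (c / 8 * r)) := by ring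
      _ = _ := by
          rw [← Real.exp_add]
          congr 2
          ring
  have h9 : 0 < 4 * C * K * (16 / c * Real.exp (3 * c / 16)) * Real.exp (3 * c / 16 * r) := by
    positivity
  linarith

/-- Condition (a) implies condition (b). -/
theorem main_result (L : ℂ → ℂ) (hL : Differentiable ℂ L)
    (hexp : ∃ A B : ℝ, ∀ z : ℂ, ‖L z‖ ≤ A * Real.exp (B * ‖z‖))
    (hs : ∀ z : ℂ, L z = 0 → deriv L z ≠ 0)
    (hpos : ∀ φ : ℝ, ∃ c : ℝ, 0 < c ∧ ∀ R : ℝ, ∃ r : ℝ, R < r ∧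
          Real.exp (c * r) < ‖L ((r : ℂ) * Complex.exp ((φ : ℂ) * Complex.I))‖)
    (hcond : ∀ ε : ℝ, 0 < ε → ∃ τ : ℝ, ∀ w : ℂ, L w = 0 → τ < ‖w‖ →
          ∃ s : ℝ,
            (∀ᶠ r : ℝ in atTop,
              ‖L ((r : ℂ) * Complex.exp ((Complex.arg w : ℂ) * Complex.I))‖ ≤ Real.exp (s * r)) ∧
            Real.exp ((s - ε) * ‖w‖) < ‖deriv L w‖) :
      ∃ P : ℝ, 0 < P ∧ ∀ R : ℝ, ∃ r : ℝ, R < r ∧
          ∀ z : ℂ, ‖z‖ = r → Real.exp (P * r) < ‖L z‖ := by
  obtain ⟨A, B, hAB⟩ := hexp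
  have hAB' : ∀ z : ℂ, ‖L z‖ ≤ max A 1 * Real.exp (max B 0 * ‖z‖) := by
    intro z
    refine (hAB z).trans ?_
    have h1 : A * Real.exp (B * ‖z‖) ≤ max A 1 * Real.exp (B * ‖z‖) :=
      mul_le_mul_of_nonneg_right (le_max_left _ _) (Real.exp_pos _).le
    refine h1.trans ?_
    apply mul_le_mul_of_nonneg_left _ (zero_le_one.trans (le_max_right _ _))
    exact Real.exp_le_exp.2 (mul_le_mul_of_nonneg_right (le_max_left _ _) (norm_nonneg _))
  obtain ⟨c, hc, hp⟩ := uniform_pos hL (zero_le_one.trans (le_max_right A 1)) (le_max_right B 0)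
    hAB' hpos
  have h : Hyp L (max A 1) (max B 0) c :=
    ⟨hL, hs, le_max_right _ _, le_max_right _ _, hAB', hc, hp, hcond⟩
  exact h.final

end Pool.Agent.H83
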